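import Mathlib

/-!
# Project LCD (MP_eb773b_co, LowConcurrence): definitions

`E` = plots, `s : E → V` the treatment of a plot (fibres of size `r`), `t : E → B` the block of a plot
(fibres of size `k`), `v = |V|`, `b = |B|`, `m = |E| = v r = b k`.
-/

set_option autoImplicit false

namespace LCD

open Finset Matrix

variable {E V B : Type} [Fintype E] [DecidableEq E] [Fintype V] [DecidableEq V]
  [Fintype B] [DecidableEq B]

/-- all fibres of `s` have `r` elements -/
def Fib (s : E → V) (r : ℕ) : Prop := ∀ i : V, (univ.filter (fun e => s e = i)).card = r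

/-- the incidence matrix `N` -/
def inc (s : E → V) (t : E → B) : Matrix V B ℝ :=
  fun i j => ((univ.filter (fun e => s e = i ∧ t e = j)).card : ℝ)

/-- the indicator matrix of the fibres -/
def ind (s : E → V) : Matrix V E ℝ := fun i e => if s e = i then 1 else 0

/-- same fibre, different element -/
def adj (t : E → B) : Matrix E E ℝ := fun e f => if t e = t f ∧ e ≠ f then 1 else 0

/-- `adj / (k - 1)`, doubly stochastic -/
noncomputable def sto (k : ℕ) (t : E → B) : Matrix E E ℝ := ((k : ℝ) - 1)⁻¹ • adj t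

/-- the nonbacktracking random walk: first a block step, then a treatment step -/
noncomputable def nb (k r : ℕ) (s : E → V) (t : E → B) : Matrix E E ℝ := sto k t * sto r s

/-- traces of its powers -/
noncomputable def aa (k r : ℕ) (s : E → V) (t : E → B) (j : ℕ) : ℝ := trace (nb k r s t ^ j)

/-- `q = (r - 1)(k - 1)` -/
noncomputable def qq (k r : ℕ) : ℝ := ((r : ℝ) - 1) * ((k : ℝ) - 1)

/-- `M = N Nᵀ` -/
noncomputable def MM (s : E → V) (t : E → B) : Matrix V V ℝ := inc s t * (inc s t)ᵀ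

/-- `M - (r k / v) J` -/
noncomputable def M0 (k r : ℕ) (s : E → V) (t : E → B) : Matrix V V ℝ :=
  MM s t - ((r : ℝ) * k / Fintype.card V) • Matrix.of (fun (_ : V) (_ : V) => (1 : ℝ))

/-- `r k - M0` -/
noncomputable def Rs (k r : ℕ) (s : E → V) (t : E → B) : Matrix V V ℝ :=
  ((r : ℝ) * k) • (1 : Matrix V V ℝ) - M0 k r s t

/-- the energy -/
noncomputable def En (k r : ℕ) (s : E → V) (t : E → B) : ℝ := trace ((Rs k r s t)⁻¹)

/-- spectral gap `δ` -/
def Gap (k r : ℕ) (s : E → V) (t : E → B) (δ : ℝ) : Prop :=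
  ∀ x : V → ℝ, δ * (x ⬝ᵥ x) ≤ x ⬝ᵥ (Rs k r s t *ᵥ x)

/-- the polynomials `z ^ j + (q / z) ^ j` in `μ = z + q / z + r + k - 2` -/
noncomputable def Pj (k r : ℕ) : ℕ → Polynomial ℝ
  | 0 => 2
  | 1 => Polynomial.X - Polynomial.C ((r : ℝ) + k - 2)
  | (j + 2) => (Polynomial.X - Polynomial.C ((r : ℝ) + k - 2)) * Pj k r (j + 1)
      - Polynomial.C (qq k r) * Pj k r j

/-- the remainder of the expansion of `(q - 1) / (r k - μ)` cut off by `c` -/
noncomputable def Rem (k r : ℕ) (c : ℕ → ℝ) (n : ℕ) (μ : ℝ) : ℝ :=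
  (qq k r - 1) / ((r : ℝ) * k - μ) - 1
    - ∑ j ∈ Icc 1 n, c j * ((Pj k r j).eval μ / qq k r ^ j)

/-- the binomial cutoff: `bc n j = 1` for `j ≤ n`, `= 0` for `j > 2 n` -/
noncomputable def bc (n j : ℕ) : ℝ :=
  ∑ i ∈ range (n + 1), if j ≤ n + i then (n.choose i : ℝ) / 2 ^ n else 0

/-- the constant of the energy identity -/
noncomputable def Kc (k r v b m : ℕ) (c : ℕ → ℝ) (n : ℕ) : ℝ :=
  (v : ℝ) - ∑ j ∈ Icc 1 n, c j * ((((b : ℝ) - v) * (-((k : ℝ) - 1)) ^ j + ((m : ℝ) - v - b)
    + (Pj k r j).eval ((r : ℝ) * k) - (Pj k r j).eval 0) / qq k r ^ j)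

/-- exchange of the blocks of the plots `e, f` -/
def sw (t : E → B) (e f : E) : E → B := t ∘ Equiv.swap e f

/-- the rows and columns `e, f` are killed -/
def kil (e f : E) (A : Matrix E E ℝ) : Matrix E E ℝ :=
  fun g h => if g = e ∨ g = f ∨ h = e ∨ h = f then 0 else A g h

/-- total mass on `{e, f}` of the walks which start at `f` (block step or treatment step first),
up to time `J` -/
noncomputable def sg (k r : ℕ) (s : E → V) (t : E → B) (J : ℕ) (e f : E) : ℝ :=
  ∑ i ∈ Icc 1 J,
    (((nb k r s t ^ i) f e + (nb k r s t ^ i) f f)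
      + ((nb k r s t ^ i * sto k t) f e + (nb k r s t ^ i * sto k t) f f)
      + (((sto r s * sto k t) ^ i) f e + ((sto r s * sto k t) ^ i) f f)
      + (((sto r s * sto k t) ^ i * sto r s) f e + ((sto r s * sto k t) ^ i * sto r s) f f))

/-- the distribution after `n` steps with the transition matrices `A 0, A 1, ...` -/
def run (A : ℕ → Matrix E E ℝ) (x : E → ℝ) : ℕ → (E → ℝ)
  | 0 => x
  | (n + 1) => run A x n ᵥ* A n

/-- alternating sum with principal minors of the average -/
noncomputable def UU (k r b m n : ℕ) : ℝ :=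
  ∑ l ∈ range (n + 1), (-1 : ℝ) ^ l * (n.choose l) * (b.descFactorial l) * ((m - l - 1).factorial)
    * (((m : ℝ) - l) + l * qq k r)

/-- a cycle of length `2 l` of the incidence graph, as a sequence of plots: consecutive plots
share the block (even positions) or the treatment (odd positions) -/
def Cyc (s : E → V) (t : E → B) (l : ℕ) (c : ℕ → E) : Prop :=
  (∀ i j, i < 2 * l → j < 2 * l → c i = c j → i = j) ∧ c (2 * l) = c 0 ∧
    ∀ i, i < 2 * l → (Even i → t (c i) = t (c (i + 1))) ∧ (¬ Even i → s (c i) = s (c (i + 1)))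

/-- the gradient inequality at the two plots `e, f` -/
def Two (s : E → V) (t : E → B) (e f : E) (κ : ℝ) : Prop :=
  ∀ (φ : V → ℝ) (ψ : B → ℝ),
    (φ (s e) - ψ (t e)) ^ 2 + (φ (s f) - ψ (t f)) ^ 2 ≤ κ * ∑ g, (φ (s g) - ψ (t g)) ^ 2

end LCD
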