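import Mathlib
import Pool.Agent.Lib_helper55.LCD.Defs

set_option autoImplicit false

namespace LCD

open Finset Matrix

variable {E V B : Type} [Fintype E] [DecidableEq E] [Fintype V] [DecidableEq V]
  [Fintype B] [DecidableEq B]

theorem adj_symm (t : E → B) : (adj t)ᵀ = adj t := by
  ext e f
  simp only [Matrix.transpose_apply, adj]
  have h : (t f = t e ∧ f ≠ e) ↔ (t e = t f ∧ e ≠ f) :=
    ⟨fun h => ⟨h.1.symm, h.2.symm⟩, fun h => ⟨h.1.symm, h.2.symm⟩⟩
  simp only [h]

theorem adj_diag (t : E → B) (e : E) : adj t e e = 0 := by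
  simp [adj]

theorem adj_nonneg (t : E → B) (e f : E) : 0 ≤ adj t e f := by
  unfold adj
  split_ifs <;> norm_num

theorem aa_card (k : ℕ) (t : E → B) (ht : Fib t k) (e : E) :
    (univ.filter (fun f => t e = t f)).card = k := by
  rw [← ht (t e)]
  congr 1
  ext f
  simp [eq_comm]

theorem aa_split (t : E → B) (e f : E) :
    adj t e f = (if t e = t f then 1 else 0) - (if e = f then 1 else 0) := by
  unfold adj
  by_cases h : e = f
  · subst h; simp
  · by_cases h2 : t e = t f <;> simp [h, h2]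

theorem adj_row (k : ℕ) (t : E → B) (ht : Fib t k) (e : E) : ∑ f, adj t e f = (k : ℝ) - 1 := by
  have h1 : ∀ f, adj t e f = (if t e = t f then 1 else 0) - (if e = f then 1 else 0) :=
    fun f => aa_split t e f
  simp only [h1]
  rw [Finset.sum_sub_distrib, Finset.sum_boole, aa_card k t ht e]
  simp

/-- `P² = (k-1) I + (k-2) P` -/
theorem adj_mul (k : ℕ) (t : E → B) (ht : Fib t k) :
    adj t * adj t = ((k : ℝ) - 1) • (1 : Matrix E E ℝ) + ((k : ℝ) - 2) • adj t := by
  ext e f
  rw [Matrix.mul_apply]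
  have h1 : ∀ g, adj t e g * adj t g f =
      (if t e = t f then (if t e = t g then 1 else 0) else 0)
        - (if g = f then (if t e = t f then (1 : ℝ) else 0) else 0)
        - (if e = g then (if t e = t f then 1 else 0) else 0)
        + (if e = g then (if e = f then 1 else 0) else 0) := by
    intro g
    rw [aa_split t e g, aa_split t g f]
    by_cases h1 : e = g
    · subst h1
      by_cases h2 : e = f
      · subst h2; simp
      · by_cases h3 : t e = t f <;> simp [h2, h3]
    · by_cases h2 : g = f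
      · subst h2
        by_cases h3 : t e = t g <;> simp [h1, h3]
      · by_cases h3 : t e = t g
        · have h4 : (t g = t f) = (t e = t f) := by rw [h3]
          simp only [h1, h2, h3, h4, if_true, if_false]
          simp
        · by_cases h5 : t e = t f
          · have h6 : ¬ t g = t f := fun h => h3 (h5.trans h.symm)
            simp [h1, h2, h3, h6]
          · simp [h1, h2, h3, h5]
  simp only [h1]
  rw [Finset.sum_add_distrib, Finset.sum_sub_distrib, Finset.sum_sub_distrib]
  have h2 : ∑ g, (if t e = t f then (if t e = t g then (1 : ℝ) else 0) else 0) =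
      if t e = t f then (k : ℝ) else 0 := by
    by_cases h : t e = t f
    · simp only [h, if_true]
      rw [Finset.sum_boole, aa_card k t ht f]
    · simp [h]
  rw [h2]
  simp only [Finset.sum_ite_eq', Finset.sum_ite_eq, Finset.mem_univ, if_true, Matrix.add_apply,
    Matrix.smul_apply, Matrix.one_apply, smul_eq_mul, aa_split t e f]
  by_cases h : e = f
  · subst h
    simp
  · by_cases h3 : t e = t f
    · simp only [h, h3, if_true, if_false]; ring
    · simp [h, h3]

theorem sto_symm (k : ℕ) (t : E → B) : (sto k t)ᵀ = sto k t := by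
  unfold sto
  rw [Matrix.transpose_smul, adj_symm]

theorem aa_pos {k : ℕ} (hk : 2 ≤ k) : (0 : ℝ) < (k : ℝ) - 1 := by
  have : (2 : ℝ) ≤ k := by exact_mod_cast hk
  linarith

theorem sto_nonneg (k : ℕ) (hk : 2 ≤ k) (t : E → B) (e f : E) : 0 ≤ sto k t e f := by
  unfold sto
  rw [Matrix.smul_apply, smul_eq_mul]
  exact mul_nonneg (inv_nonneg.2 (aa_pos hk).le) (adj_nonneg t e f)

theorem sto_row (k : ℕ) (hk : 2 ≤ k) (t : E → B) (ht : Fib t k) (e : E) :
    ∑ f, sto k t e f = 1 := by
  unfold sto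
  simp only [Matrix.smul_apply, smul_eq_mul]
  rw [← Finset.mul_sum, adj_row k t ht e, inv_mul_cancel₀ (aa_pos hk).ne']

theorem sto_mul (k : ℕ) (hk : 2 ≤ k) (t : E → B) (ht : Fib t k) :
    sto k t * sto k t = ((k : ℝ) - 1)⁻¹ • (1 : Matrix E E ℝ)
      + (((k : ℝ) - 2) / ((k : ℝ) - 1)) • sto k t := by
  have h := aa_pos hk
  unfold sto
  rw [Matrix.smul_mul, Matrix.mul_smul, adj_mul k t ht, smul_add, smul_add, smul_smul, smul_smul,
    smul_smul, smul_smul, smul_smul]
  congr 2
  · field_simp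
  · field_simp

theorem fib_sw (k : ℕ) (t : E → B) (ht : Fib t k) (e f : E) : Fib (sw t e f) k := by
  intro i
  rw [← ht i]
  refine Finset.card_bij (fun g _ => Equiv.swap e f g) ?_ ?_ ?_
  · intro g hg
    simpa [sw] using hg
  · intro a _ b _ hab
    exact (Equiv.swap e f).injective hab
  · intro g hg
    refine ⟨Equiv.swap e f g, ?_, ?_⟩
    · simpa [sw] using hg
    · exact Equiv.swap_apply_self e f g

theorem sto_sw (k : ℕ) (t : E → B) (e f : E) :
    sto k (sw t e f) = (sto k t).submatrix (Equiv.swap e f) (Equiv.swap e f) := by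
  ext g h
  unfold sto
  simp only [Matrix.submatrix_apply, Matrix.smul_apply]
  congr 1
  unfold adj sw
  simp only [Function.comp_apply, ne_eq, EmbeddingLike.apply_eq_iff_eq]

theorem aa_nb_nonneg (k r : ℕ) (hk : 2 ≤ k) (hr : 2 ≤ r) (s : E → V) (t : E → B) (e f : E) :
    0 ≤ (nb k r s t) e f := by
  unfold nb
  rw [Matrix.mul_apply]
  exact Finset.sum_nonneg fun g _ => mul_nonneg (sto_nonneg k hk t e g) (sto_nonneg r hr s g f)

theorem nb_nonneg (k r : ℕ) (hk : 2 ≤ k) (hr : 2 ≤ r) (s : E → V) (t : E → B) (j : ℕ) (e f : E) :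
    0 ≤ (nb k r s t ^ j) e f := by
  induction j generalizing f with
  | zero =>
    rw [pow_zero, Matrix.one_apply]
    split_ifs <;> norm_num
  | succ j ih =>
    rw [pow_succ, Matrix.mul_apply]
    exact Finset.sum_nonneg fun g _ => mul_nonneg (ih g) (aa_nb_nonneg k r hk hr s t g f)

theorem aa_mul_row {A C : Matrix E E ℝ} (hA : ∀ e, ∑ f, A e f = 1) (hC : ∀ e, ∑ f, C e f = 1)
    (e : E) : ∑ f, (A * C) e f = 1 := by
  simp only [Matrix.mul_apply]
  rw [Finset.sum_comm]
  simp only [← Finset.mul_sum, hC, mul_one, hA]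

theorem aa_pow_row {A : Matrix E E ℝ} (hA : ∀ e, ∑ f, A e f = 1) (j : ℕ) (e : E) :
    ∑ f, (A ^ j) e f = 1 := by
  induction j generalizing e with
  | zero => simp [Matrix.one_apply]
  | succ j ih =>
    rw [pow_succ]
    exact aa_mul_row ih hA e

theorem nb_row (k r : ℕ) (hk : 2 ≤ k) (hr : 2 ≤ r) (s : E → V) (t : E → B) (hs : Fib s r)
    (ht : Fib t k) (j : ℕ) (e : E) : ∑ f, (nb k r s t ^ j) e f = 1 :=
  aa_pow_row (fun e => aa_mul_row (sto_row k hk t ht) (sto_row r hr s hs) e) j e

theorem nb_col (k r : ℕ) (hk : 2 ≤ k) (hr : 2 ≤ r) (s : E → V) (t : E → B) (hs : Fib s r)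
    (ht : Fib t k) (j : ℕ) (f : E) : ∑ e, (nb k r s t ^ j) e f = 1 := by
  have h1 : ∑ e, (nb k r s t ^ j) e f = ∑ e, ((nb k r s t ^ j)ᵀ) f e := rfl
  rw [h1, Matrix.transpose_pow]
  refine aa_pow_row (fun e => ?_) j f
  unfold nb
  rw [Matrix.transpose_mul, sto_symm, sto_symm]
  exact aa_mul_row (sto_row r hr s hs) (sto_row k hk t ht) e

theorem aa_nonneg (k r : ℕ) (hk : 2 ≤ k) (hr : 2 ≤ r) (s : E → V) (t : E → B) (j : ℕ) :
    0 ≤ aa k r s t j := by
  unfold aa Matrix.trace
  exact Finset.sum_nonneg fun e _ => nb_nonneg k r hk hr s t j e e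

/-- `nb = adj adj / q` -/
theorem aa_eq (k r : ℕ) (s : E → V) (t : E → B) (j : ℕ) :
    aa k r s t j = trace ((adj t * adj s) ^ j) / qq k r ^ j := by
  have h : nb k r s t = (qq k r)⁻¹ • (adj t * adj s) := by
    unfold nb sto qq
    rw [Matrix.smul_mul, Matrix.mul_smul, smul_smul, _root_.mul_inv_rev]
  unfold aa
  rw [h, smul_pow, Matrix.trace_smul, smul_eq_mul, inv_pow, div_eq_inv_mul]

end LCD
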