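import Mathlib
import Pool.Agent.Lib_helper55.LCD.Defs

set_option autoImplicit false

namespace LCD

open Finset Matrix

variable {E V B : Type} [Fintype E] [DecidableEq E] [Fintype V] [DecidableEq V]
  [Fintype B] [DecidableEq B]

/-- the number of the permutations which fix the points `p i` -/
theorem ca_fix {ι : Type} [Fintype ι] [DecidableEq ι] (p : ι → E) (hp : Function.Injective p) :
    (univ.filter (fun σ : Equiv.Perm E => (fun i => σ (p i)) = p)).card
      = (Fintype.card E - Fintype.card ι).factorial := by
  classical
  rw [← Fintype.card_subtype]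
  have e1 : {σ : Equiv.Perm E // (fun i => σ (p i)) = p} ≃
      {f : Equiv.Perm E // ∀ a, ¬ (a ∉ Set.range p) → f a = a} :=
    Equiv.subtypeEquivRight (fun σ => by
      constructor
      · intro h a ha
        obtain ⟨i, rfl⟩ := not_not.1 ha
        exact congrFun h i
      · intro h
        funext i
        exact h (p i) (not_not.2 ⟨i, rfl⟩))
  have e2 := Equiv.Perm.subtypeEquivSubtypePerm (fun a : E => a ∉ Set.range p)
  rw [Fintype.card_congr (e1.trans e2.symm), Fintype.card_perm]
  congr 1
  rw [Fintype.card_subtype_compl, Set.card_range_of_injective hp]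

/-- the number of the permutations which map `p` to `u` -/
theorem ca_map {ι : Type} [Fintype ι] [DecidableEq ι] (p u : ι → E) (hp : Function.Injective p)
    (hu : Function.Injective u) :
    (univ.filter (fun σ : Equiv.Perm E => (fun i => σ (p i)) = u)).card
      = (Fintype.card E - Fintype.card ι).factorial := by
  classical
  rw [← ca_fix p hp]
  let e : {x // x ∈ Set.range p} ≃ {x // x ∈ Set.range u} :=
    (Equiv.ofInjective p hp).symm.trans (Equiv.ofInjective u hu)
  let τ : Equiv.Perm E := e.extendSubtype
  have hτ : ∀ i, τ (p i) = u i := by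
    intro i
    have h1 := e.extendSubtype_apply_of_mem (p i) ⟨i, rfl⟩
    have h2 : (Equiv.ofInjective p hp).symm ⟨p i, ⟨i, rfl⟩⟩ = i :=
      Equiv.ofInjective_symm_apply hp i
    have h3 : e ⟨p i, ⟨i, rfl⟩⟩ = ⟨u i, ⟨i, rfl⟩⟩ := by
      simp only [e, Equiv.trans_apply, h2]
      rfl
    rw [show τ (p i) = _ from h1, h3]
  apply Finset.card_bij (fun σ _ => τ⁻¹ * σ)
  · intro σ hσ
    rw [mem_filter] at hσ ⊢
    refine ⟨mem_univ _, ?_⟩
    funext i
    have h : σ (p i) = _ := congrFun hσ.2 i
    rw [Equiv.Perm.mul_apply, h, ← hτ i]
    exact τ.symm_apply_apply (p i)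
  · intro σ _ σ' _ h
    exact mul_left_cancel h
  · intro σ hσ
    rw [mem_filter] at hσ
    refine ⟨τ * σ, ?_, by rw [inv_mul_cancel_left]⟩
    rw [mem_filter]
    refine ⟨mem_univ _, ?_⟩
    funext i
    have h : σ (p i) = _ := congrFun hσ.2 i
    rw [Equiv.Perm.mul_apply, h, hτ]

/-- the number of the choices of plots in different blocks -/
theorem ca_choice (k : ℕ) (t : E → B) (ht : Fib t k) {ι : Type} [Fintype ι] [DecidableEq ι] :
    (univ.filter (fun u : ι → E => Function.Injective (fun i => t (u i)))).card
      = (Fintype.card B).descFactorial (Fintype.card ι) * k ^ (Fintype.card ι) := by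
  classical
  have h1 : (univ.filter (fun w : ι → B => Function.Injective w)).card
      = (Fintype.card B).descFactorial (Fintype.card ι) := by
    rw [← Fintype.card_embedding_eq, ← Fintype.card_subtype]
    exact Fintype.card_congr (Equiv.subtypeInjectiveEquivEmbedding ι B)
  rw [Finset.card_eq_sum_card_fiberwise (f := fun u : ι → E => fun i => t (u i))
    (t := univ.filter (fun w : ι → B => Function.Injective w))
    (fun u hu => by
      simp only [coe_filter, mem_univ, true_and, Set.mem_ofPred_eq] at hu ⊢
      exact hu)]
  rw [← h1, ← smul_eq_mul, ← Finset.sum_const]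
  apply Finset.sum_congr rfl
  intro w hw
  rw [mem_filter] at hw
  have h2 : (univ.filter (fun u : ι → E => Function.Injective (fun i => t (u i)))).filter
      (fun u => (fun i => t (u i)) = w) =
      Fintype.piFinset (fun i => univ.filter (fun e => t e = w i)) := by
    ext u
    simp only [mem_filter, mem_univ, true_and, Fintype.mem_piFinset]
    constructor
    · rintro ⟨_, h⟩ i
      exact congrFun h i
    · intro h
      have h' : (fun i => t (u i)) = w := funext h
      exact ⟨by rw [h']; exact hw.2, h'⟩
  rw [h2, Fintype.card_piFinset, Finset.prod_congr rfl (fun i _ => ht (w i)), Finset.prod_const,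
    Finset.card_univ]

theorem count_one (k : ℕ) (t : E → B) (ht : Fib t k) {ι : Type} [Fintype ι] [DecidableEq ι]
    (p : ι → E) (hp : Function.Injective p) :
    (univ.filter (fun σ : Equiv.Perm E => Function.Injective (fun i => t (σ (p i))))).card
      = (Fintype.card B).descFactorial (Fintype.card ι) * k ^ (Fintype.card ι)
        * (Fintype.card E - Fintype.card ι).factorial := by
  classical
  rw [Finset.card_eq_sum_card_fiberwise (f := fun σ : Equiv.Perm E => fun i => σ (p i))
    (t := univ.filter (fun u : ι → E => Function.Injective (fun i => t (u i))))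
    (fun σ hσ => by
      simp only [coe_filter, mem_univ, true_and, Set.mem_ofPred_eq] at hσ ⊢
      exact hσ)]
  rw [← ca_choice k t ht (ι := ι), ← smul_eq_mul, ← Finset.sum_const]
  apply Finset.sum_congr rfl
  intro u hu
  rw [mem_filter] at hu
  have hui : Function.Injective u := fun i j h => hu.2 (by simp only [h])
  rw [← ca_map p u hp hui]
  congr 1
  ext σ
  simp only [mem_filter, mem_univ, true_and]
  constructor
  · rintro ⟨_, h⟩
    exact h
  · intro h
    refine ⟨?_, h⟩
    have h' : (fun i => t (σ (p i))) = fun i => t (u i) := by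
      funext i
      rw [← congrFun h i]
    rw [h']
    exact hu.2

end LCD
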