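import Mathlib
import Pool.Agent.Lib_helper55.LCD.Defs

set_option autoImplicit false

namespace LCD

open Finset Matrix

variable {E V B : Type} [Fintype E] [DecidableEq E] [Fintype V] [DecidableEq V]
  [Fintype B] [DecidableEq B]

omit [Fintype E] [DecidableEq E] [Fintype V] [DecidableEq V] [Fintype B] in
/-- equal rows -/
theorem cb_zero (u : E → B) {ι : Type} [Fintype ι] [DecidableEq ι] (p p' : ι → E)
    (h : ¬ Function.Injective (fun i => u (p i))) :
    (Matrix.of (fun i j : ι => if u (p i) = u (p' j) then (1 : ℝ) else 0)).det = 0 := by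
  unfold Function.Injective at h
  push Not at h
  obtain ⟨i, j, hij, hne⟩ := h
  refine Matrix.det_zero_of_row_eq hne ?_
  funext a
  simp only [Matrix.of_apply]
  have : u (p i) = u (p j) := hij
  rw [this]

theorem sum_det_eq (t : E → B) {ι : Type} [Fintype ι] [DecidableEq ι]
    (p : ι → E) (hp : Function.Injective p) :
    ∑ σ : Equiv.Perm E, (Matrix.of (fun i j : ι =>
        if t (σ (p i)) = t (σ (p j)) then (1 : ℝ) else 0)).det
      = ((univ.filter (fun σ : Equiv.Perm E =>
          Function.Injective (fun i => t (σ (p i))))).card : ℝ) := by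
  rw [Finset.card_filter, Nat.cast_sum]
  refine Finset.sum_congr rfl fun σ _ => ?_
  by_cases h : Function.Injective (fun i => t (σ (p i)))
  · rw [if_pos h]
    have h1 : (Matrix.of (fun i j : ι => if t (σ (p i)) = t (σ (p j)) then (1 : ℝ) else 0)) = 1 := by
      ext i j
      rw [Matrix.of_apply, Matrix.one_apply]
      by_cases hij : i = j
      · rw [if_pos hij, hij, if_pos rfl]
      · rw [if_neg hij, if_neg]
        intro hc
        exact hij (h hc)
    rw [h1, Matrix.det_one, Nat.cast_one]
  · rw [if_neg h, cb_zero (fun e => t (σ e)) p p h, Nat.cast_zero]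

theorem sum_det_one (t : E → B) {ι : Type} [Fintype ι] [DecidableEq ι]
    (p : ι → E) (hp : Function.Injective p) (i0 : ι) (g : E) (hg : ∀ i, p i ≠ g) :
    ∑ σ : Equiv.Perm E, (Matrix.of (fun i j : ι =>
        if t (σ (p i)) = t (σ (Function.update p i0 g j)) then (1 : ℝ) else 0)).det
      = ((univ.filter (fun σ : Equiv.Perm E => Function.Injective (fun i => t (σ (p i))) ∧
        t (σ (p i0)) = t (σ g))).card : ℝ) := by
  rw [Finset.card_filter, Nat.cast_sum]
  refine Finset.sum_congr rfl fun σ _ => ?_
  by_cases h : Function.Injective (fun i => t (σ (p i)))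
  · by_cases h0 : t (σ (p i0)) = t (σ g)
    · rw [if_pos ⟨h, h0⟩]
      have h1 : (Matrix.of (fun i j : ι =>
          if t (σ (p i)) = t (σ (Function.update p i0 g j)) then (1 : ℝ) else 0)) = 1 := by
        ext i j
        rw [Matrix.of_apply, Matrix.one_apply]
        have h2 : t (σ (Function.update p i0 g j)) = t (σ (p j)) := by
          by_cases hj : j = i0
          · rw [hj, Function.update_self, h0]
          · rw [Function.update_of_ne hj]
        rw [h2]
        by_cases hij : i = j
        · rw [if_pos hij, hij, if_pos rfl]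
        · rw [if_neg hij, if_neg]
          intro hc
          exact hij (h hc)
      rw [h1, Matrix.det_one, Nat.cast_one]
    · rw [if_neg (fun hc => h0 hc.2), Nat.cast_zero]
      by_cases h3 : ∃ i, t (σ (p i)) = t (σ g)
      · obtain ⟨i, hi⟩ := h3
        have hne : i ≠ i0 := fun hc => h0 (hc ▸ hi)
        refine Matrix.det_zero_of_column_eq hne ?_
        intro a
        simp only [Matrix.of_apply]
        rw [Function.update_of_ne hne, Function.update_self, hi]
      · push Not at h3
        refine Matrix.det_eq_zero_of_column_eq_zero i0 ?_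
        intro a
        simp only [Matrix.of_apply]
        rw [Function.update_self, if_neg (h3 a)]
  · rw [if_neg (fun hc => h hc.1), Nat.cast_zero]
    exact cb_zero (fun e => t (σ e)) p (Function.update p i0 g) h

theorem sum_det_two (t : E → B) {ι : Type} [Fintype ι] [DecidableEq ι]
    (p p' : ι → E) (hpp : ∀ i j, i ≠ j → p i ≠ p' j) (hp : Function.Injective p) (i1 i2 : ι)
    (h12 : i1 ≠ i2) (h1 : p i1 ≠ p' i1) (h2 : p i2 ≠ p' i2) :
    ∑ σ : Equiv.Perm E, (Matrix.of (fun i j : ι =>
        if t (σ (p i)) = t (σ (p' j)) then (1 : ℝ) else 0)).det = 0 := by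
  set F : Equiv.Perm E → ℝ := fun σ => (Matrix.of (fun i j : ι =>
        if t (σ (p i)) = t (σ (p' j)) then (1 : ℝ) else 0)).det with hF
  have key : ∀ σ : Equiv.Perm E, F (σ * Equiv.swap (p i1) (p i2)) = -F σ := by
    intro σ
    have e1 : (Matrix.of (fun i j : ι =>
        if t ((σ * Equiv.swap (p i1) (p i2)) (p i)) = t ((σ * Equiv.swap (p i1) (p i2)) (p' j))
          then (1 : ℝ) else 0)) =
        (Matrix.of (fun i j : ι =>
          if t (σ (p i)) = t (σ (p' j)) then (1 : ℝ) else 0)).submatrix (Equiv.swap i1 i2) id := by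
      ext i j
      rw [Matrix.submatrix_apply, Matrix.of_apply, Matrix.of_apply, id_eq]
      have a1 : Equiv.swap (p i1) (p i2) (p' j) = p' j := by
        refine Equiv.swap_apply_of_ne_of_ne ?_ ?_
        · by_cases hj : i1 = j
          · rw [← hj]; exact h1.symm
          · exact (hpp i1 j hj).symm
        · by_cases hj : i2 = j
          · rw [← hj]; exact h2.symm
          · exact (hpp i2 j hj).symm
      have a2 : Equiv.swap (p i1) (p i2) (p i) = p (Equiv.swap i1 i2 i) := by
        rcases eq_or_ne i i1 with rfl | h3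
        · rw [Equiv.swap_apply_left, Equiv.swap_apply_left]
        · rcases eq_or_ne i i2 with rfl | h4
          · rw [Equiv.swap_apply_right, Equiv.swap_apply_right]
          · rw [Equiv.swap_apply_of_ne_of_ne h3 h4,
              Equiv.swap_apply_of_ne_of_ne (fun hc => h3 (hp hc)) (fun hc => h4 (hp hc))]
      have a3 : t ((σ * Equiv.swap (p i1) (p i2)) (p i)) = t (σ (p (Equiv.swap i1 i2 i))) := by
        rw [Equiv.Perm.mul_apply, a2]
      have a4 : t ((σ * Equiv.swap (p i1) (p i2)) (p' j)) = t (σ (p' j)) := by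
        rw [Equiv.Perm.mul_apply, a1]
      rw [a3, a4]
    show Matrix.det _ = -Matrix.det _
    rw [e1, Matrix.det_permute, Equiv.Perm.sign_swap h12]
    simp
  have h3 : ∑ σ : Equiv.Perm E, F (σ * Equiv.swap (p i1) (p i2)) = ∑ σ : Equiv.Perm E, F σ :=
    Equiv.sum_comp (Equiv.mulRight (Equiv.swap (p i1) (p i2))) F
  simp_rw [key] at h3
  rw [Finset.sum_neg_distrib] at h3
  show ∑ σ : Equiv.Perm E, F σ = 0
  linarith

end LCD
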