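import Mathlib
import Pool.Agent.Lib_helper55.LCD.Defs
import Pool.Agent.Lib_helper55.LCD.CA

set_option autoImplicit false

namespace LCD

open Finset Matrix

variable {E V B : Type} [Fintype E] [DecidableEq E] [Fintype V] [DecidableEq V]
  [Fintype B] [DecidableEq B]

/-- the number of permutations of the statement does not depend on `g` -/
theorem ch_swap (t : E → B) {ι : Type} [Fintype ι] [DecidableEq ι] (p : ι → E) (i0 : ι)
    (g h : E) (hg : ∀ i, p i ≠ g) (hh : ∀ i, p i ≠ h) :
    (univ.filter (fun σ : Equiv.Perm E => Function.Injective (fun i => t (σ (p i))) ∧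
        t (σ (p i0)) = t (σ h))).card =
    (univ.filter (fun σ : Equiv.Perm E => Function.Injective (fun i => t (σ (p i))) ∧
        t (σ (p i0)) = t (σ g))).card := by
  have hp : ∀ i, Equiv.swap g h (p i) = p i := fun i =>
    Equiv.swap_apply_of_ne_of_ne (hg i) (hh i)
  refine Finset.card_bij' (fun σ _ => σ * Equiv.swap g h) (fun σ _ => σ * Equiv.swap g h)
    ?_ ?_ ?_ ?_
  · intro σ hσ
    rw [mem_filter] at hσ ⊢
    refine ⟨mem_univ _, ?_, ?_⟩
    · have e : (fun i => t ((σ * Equiv.swap g h) (p i))) = fun i => t (σ (p i)) := by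
        funext i
        rw [Equiv.Perm.mul_apply, hp]
      rw [e]
      exact hσ.2.1
    · rw [Equiv.Perm.mul_apply, Equiv.Perm.mul_apply, hp, Equiv.swap_apply_left]
      exact hσ.2.2
  · intro σ hσ
    rw [mem_filter] at hσ ⊢
    refine ⟨mem_univ _, ?_, ?_⟩
    · have e : (fun i => t ((σ * Equiv.swap g h) (p i))) = fun i => t (σ (p i)) := by
        funext i
        rw [Equiv.Perm.mul_apply, hp]
      rw [e]
      exact hσ.2.1
    · rw [Equiv.Perm.mul_apply, Equiv.Perm.mul_apply, hp, Equiv.swap_apply_right]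
      exact hσ.2.2
  · intro σ _
    rw [mul_assoc, Equiv.swap_mul_self, mul_one]
  · intro σ _
    rw [mul_assoc, Equiv.swap_mul_self, mul_one]

/-- the elements outside of the range of `p` in the same fibre as `p i0` -/
theorem ch_row (k : ℕ) (t : E → B) (ht : Fib t k) {ι : Type} [Fintype ι] [DecidableEq ι]
    (p : ι → E) (i0 : ι) (σ : Equiv.Perm E)
    (hσ : Function.Injective (fun i => t (σ (p i)))) :
    ((univ.filter (fun h : E => ∀ i, p i ≠ h)).filter
      (fun h => t (σ (p i0)) = t (σ h))).card = k - 1 := by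
  have h1 : (univ.filter (fun h : E => t (σ h) = t (σ (p i0)))).card = k := by
    rw [← ht (t (σ (p i0)))]
    refine Finset.card_bij' (fun h _ => σ h) (fun e _ => σ.symm e) ?_ ?_ ?_ ?_
    · intro h hh
      rw [mem_filter] at hh ⊢
      exact ⟨mem_univ _, hh.2⟩
    · intro e he
      rw [mem_filter] at he ⊢
      exact ⟨mem_univ _, by rw [Equiv.apply_symm_apply]; exact he.2⟩
    · intro h _
      exact Equiv.symm_apply_apply _ _
    · intro e _
      exact Equiv.apply_symm_apply _ _
  have h2 : (univ.filter (fun h : E => ∀ i, p i ≠ h)).filter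
      (fun h => t (σ (p i0)) = t (σ h)) =
      (univ.filter (fun h : E => t (σ h) = t (σ (p i0)))).erase (p i0) := by
    ext h
    rw [mem_filter, mem_filter, mem_erase, mem_filter]
    constructor
    · rintro ⟨⟨_, h3⟩, h4⟩
      exact ⟨fun h5 => h3 i0 h5.symm, mem_univ _, h4.symm⟩
    · rintro ⟨h3, _, h4⟩
      refine ⟨⟨mem_univ _, fun i hi => ?_⟩, h4.symm⟩
      subst hi
      have h5 : i = i0 := hσ h4
      exact h3 (by rw [h5])
  rw [h2, card_erase_of_mem (by rw [mem_filter]; exact ⟨mem_univ _, rfl⟩), h1]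

theorem count_two (k : ℕ) (t : E → B) (ht : Fib t k) {ι : Type} [Fintype ι] [DecidableEq ι]
    (p : ι → E) (hp : Function.Injective p) (i0 : ι) (g : E) (hg : ∀ i, p i ≠ g) :
    (univ.filter (fun σ : Equiv.Perm E => Function.Injective (fun i => t (σ (p i))) ∧
        t (σ (p i0)) = t (σ g))).card
      = (Fintype.card B).descFactorial (Fintype.card ι) * k ^ (Fintype.card ι) * (k - 1)
        * (Fintype.card E - Fintype.card ι - 1).factorial := by
  have hR : (univ.filter (fun h : E => ∀ i, p i ≠ h)).card =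
      Fintype.card E - Fintype.card ι := by
    have h1 : univ.filter (fun h : E => ∀ i, p i ≠ h) = univ \ univ.image p := by
      ext h
      rw [mem_filter, mem_sdiff, mem_image]
      constructor
      · rintro ⟨_, h3⟩
        exact ⟨mem_univ _, fun ⟨i, _, h4⟩ => h3 i h4⟩
      · rintro ⟨_, h3⟩
        exact ⟨mem_univ _, fun i hi => h3 ⟨i, mem_univ _, hi⟩⟩
    rw [h1, card_sdiff_of_subset (subset_univ _), card_image_of_injective _ hp, card_univ,
      card_univ]
  have hpos : 0 < Fintype.card E - Fintype.card ι := by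
    rw [← hR]
    exact card_pos.mpr ⟨g, by rw [mem_filter]; exact ⟨mem_univ _, hg⟩⟩
  -- double counting
  have hS : ∑ h ∈ univ.filter (fun h : E => ∀ i, p i ≠ h),
      (univ.filter (fun σ : Equiv.Perm E => Function.Injective (fun i => t (σ (p i))) ∧
        t (σ (p i0)) = t (σ h))).card =
      (univ.filter (fun σ : Equiv.Perm E => Function.Injective (fun i => t (σ (p i))))).card
        * (k - 1) := by
    have h1 : ∀ h : E, (univ.filter (fun σ : Equiv.Perm E =>
        Function.Injective (fun i => t (σ (p i))) ∧ t (σ (p i0)) = t (σ h))).card =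
        ∑ σ ∈ univ.filter (fun σ : Equiv.Perm E => Function.Injective (fun i => t (σ (p i)))),
          if t (σ (p i0)) = t (σ h) then 1 else 0 := by
      intro h
      rw [← filter_filter, card_filter]
    rw [sum_congr rfl fun h _ => h1 h, sum_comm]
    have h2 : ∀ σ ∈ univ.filter (fun σ : Equiv.Perm E =>
        Function.Injective (fun i => t (σ (p i)))),
        (∑ h ∈ univ.filter (fun h : E => ∀ i, p i ≠ h),
          if t (σ (p i0)) = t (σ h) then 1 else 0) = k - 1 := by
      intro σ hσ
      rw [← card_filter]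
      exact ch_row k t ht p i0 σ (mem_filter.mp hσ).2
    rw [sum_congr rfl h2, sum_const, smul_eq_mul]
  have hC : ∑ h ∈ univ.filter (fun h : E => ∀ i, p i ≠ h),
      (univ.filter (fun σ : Equiv.Perm E => Function.Injective (fun i => t (σ (p i))) ∧
        t (σ (p i0)) = t (σ h))).card = (Fintype.card E - Fintype.card ι) *
      (univ.filter (fun σ : Equiv.Perm E => Function.Injective (fun i => t (σ (p i))) ∧
        t (σ (p i0)) = t (σ g))).card := by
    rw [← hR, ← smul_eq_mul, ← sum_const]
    exact sum_congr rfl fun h hh => ch_swap t p i0 g h hg (mem_filter.mp hh).2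
  rw [hS, count_one k t ht p hp] at hC
  obtain ⟨d, hd⟩ : ∃ d, Fintype.card E - Fintype.card ι = d + 1 := ⟨_, (Nat.succ_pred_eq_of_pos hpos).symm⟩
  rw [hd, Nat.factorial_succ] at hC
  rw [hd, Nat.add_sub_cancel]
  apply Nat.eq_of_mul_eq_mul_left (Nat.succ_pos d)
  rw [← Nat.succ_eq_add_one] at hC
  rw [← hC]
  ring

end LCD
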