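import Mathlib
import Pool.Agent.Lib_helper55.LCD.Defs
import Pool.Agent.Lib_helper55.LCD.CA
import Pool.Agent.Lib_helper55.LCD.CB
import Pool.Agent.Lib_helper55.LCD.CH

set_option autoImplicit false

namespace LCD

open Finset Matrix

variable {E V B : Type} [Fintype E] [DecidableEq E] [Fintype V] [DecidableEq V]
  [Fintype B] [DecidableEq B]

/-- the fibre of a treatment -/
def cc_F (s : E → V) (x : V) : Finset E := univ.filter (fun e => s e = x)

theorem cc_MM (s : E → V) (t : E → B) (x y : V) :
    MM s t x y = ∑ e ∈ cc_F s x, ∑ f ∈ cc_F s y, if t e = t f then (1 : ℝ) else 0 := by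
  unfold MM
  rw [Matrix.mul_apply]
  have h1 : ∀ (x : V) (j : B), inc s t x j = ∑ e ∈ cc_F s x, if t e = j then (1 : ℝ) else 0 := by
    intro x j
    unfold inc cc_F
    rw [← Finset.filter_filter, Finset.card_filter]
    push_cast
    rfl
  simp only [Matrix.transpose_apply, h1]
  simp only [Finset.sum_mul_sum]
  rw [Finset.sum_comm]
  refine Finset.sum_congr rfl fun e _ => ?_
  rw [Finset.sum_comm]
  refine Finset.sum_congr rfl fun f _ => ?_
  have h2 : ∀ j : B, (if t e = j then (1 : ℝ) else 0) * (if t f = j then (1 : ℝ) else 0) =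
      if t e = j then (if t e = t f then (1 : ℝ) else 0) else 0 := by
    intro j
    by_cases h3 : t e = j
    · rw [if_pos h3, if_pos h3, one_mul]
      by_cases h4 : t f = j
      · rw [if_pos h4, if_pos (h3.trans h4.symm)]
      · rw [if_neg h4, if_neg fun h5 => h4 (h5.symm.trans h3)]
    · rw [if_neg h3, if_neg h3, zero_mul]
  simp only [h2]
  rw [Finset.sum_ite_eq Finset.univ (t e), if_pos (Finset.mem_univ _)]

theorem cc_rows {ι : Type} [Fintype ι] [DecidableEq ι] (F : ι → Finset E) (u : E → ι → ℝ) :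
    (Matrix.of fun x y : ι => ∑ e ∈ F x, u e y).det =
      ∑ p ∈ Fintype.piFinset F, (Matrix.of fun x y : ι => u (p x) y).det := by
  have h := MultilinearMap.map_sum_finset
    (Matrix.detRowAlternating (n := ι) (R := ℝ)).toMultilinearMap (fun _ e => u e) F
  have e1 : (Matrix.of fun x y : ι => ∑ e ∈ F x, u e y) = fun x => ∑ e ∈ F x, u e := by
    ext x y
    show ∑ e ∈ F x, u e y = (∑ e ∈ F x, u e) y
    rw [Finset.sum_apply]
  rw [e1]
  exact h

theorem cc_det {ι : Type} [Fintype ι] [DecidableEq ι] (F : ι → Finset E) (g : E → E → ℝ) :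
    (Matrix.of fun x y : ι => ∑ e ∈ F x, ∑ f ∈ F y, g e f).det =
      ∑ p ∈ Fintype.piFinset F, ∑ p' ∈ Fintype.piFinset F,
        (Matrix.of fun x y : ι => g (p x) (p' y)).det := by
  rw [cc_rows F fun e y => ∑ f ∈ F y, g e f]
  refine Finset.sum_congr rfl fun p _ => ?_
  rw [← Matrix.det_transpose]
  have e1 : (Matrix.of fun x y : ι => ∑ f ∈ F y, g (p x) f)ᵀ =
      Matrix.of fun y x : ι => ∑ f ∈ F y, g (p x) f := rfl
  rw [e1, cc_rows F fun f x => g (p x) f]
  refine Finset.sum_congr rfl fun p' _ => ?_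
  rw [← Matrix.det_transpose]
  rfl

/-- the sum over all `p'`, for fixed `p` -/
theorem cc_sum {ι : Type} [Fintype ι] [DecidableEq ι] (F : ι → Finset E) (p : ι → E)
    (hp : ∀ x, p x ∈ F x) (r : ℕ) (hF : ∀ x, (F x).card = r) (hr : 1 ≤ r) (h : (ι → E) → ℝ)
    (c1 c2 : ℝ) (h1 : h p = c1)
    (h2 : ∀ (x0 : ι), ∀ g ∈ F x0, g ≠ p x0 → h (Function.update p x0 g) = c2)
    (h3 : ∀ p' ∈ Fintype.piFinset F, ∀ i1 i2, i1 ≠ i2 → p i1 ≠ p' i1 → p i2 ≠ p' i2 → h p' = 0) :
    ∑ p' ∈ Fintype.piFinset F, h p' = c1 + (Fintype.card ι : ℝ) * (((r : ℝ) - 1) * c2) := by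
  classical
  set S : Finset (Σ _ : ι, E) := (Finset.univ : Finset ι).sigma fun x0 => (F x0).erase (p x0)
    with hS
  have hmemS : ∀ z : Σ _ : ι, E, z ∈ S ↔ z.2 ∈ F z.1 ∧ z.2 ≠ p z.1 := by
    intro z
    rw [hS, Finset.mem_sigma, Finset.mem_erase]
    constructor
    · rintro ⟨-, a, b⟩
      exact ⟨b, a⟩
    · rintro ⟨a, b⟩
      exact ⟨Finset.mem_univ _, b, a⟩
  set U : Finset (ι → E) := S.image fun z => Function.update p z.1 z.2 with hU
  have hpU : p ∉ U := by
    intro h4
    obtain ⟨z, hz, h5⟩ := Finset.mem_image.1 h4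
    have h6 := congrFun h5 z.1
    rw [Function.update_self] at h6
    exact ((hmemS z).1 hz).2 h6
  have hsub : insert p U ⊆ Fintype.piFinset F := by
    intro p' hp'
    rw [Fintype.mem_piFinset]
    rcases Finset.mem_insert.1 hp' with h4 | h4
    · rw [h4]
      exact hp
    · obtain ⟨z, hz, h5⟩ := Finset.mem_image.1 h4
      intro x
      rw [← h5]
      by_cases hx : x = z.1
      · subst hx
        rw [Function.update_self]
        exact ((hmemS z).1 hz).1
      · rw [Function.update_of_ne hx]
        exact hp x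
  rw [← Finset.sum_subset hsub, Finset.sum_insert hpU, h1, hU, Finset.sum_image]
  · congr 1
    rw [Finset.sum_congr rfl (g := fun _ => c2) fun z hz => h2 z.1 z.2 ((hmemS z).1 hz).1
      ((hmemS z).1 hz).2]
    rw [Finset.sum_const, nsmul_eq_mul, hS, Finset.card_sigma]
    have h4 : ∀ x : ι, ((F x).erase (p x)).card = r - 1 := by
      intro x
      rw [Finset.card_erase_of_mem (hp x), hF]
    simp only [h4]
    rw [Finset.sum_const, Finset.card_univ, smul_eq_mul]
    push_cast [Nat.cast_sub hr]
    ring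
  · intro z hz z' hz' h4
    obtain ⟨x0, g⟩ := z
    obtain ⟨x1, g'⟩ := z'
    have a1 := ((hmemS _).1 hz).2
    have a2 := ((hmemS _).1 hz').2
    have h5 : Function.update p x0 g = Function.update p x1 g' := h4
    have h6 := congrFun h5 x0
    rw [Function.update_self] at h6
    by_cases h7 : x0 = x1
    · subst h7
      rw [Function.update_self] at h6
      rw [h6]
    · rw [Function.update_of_ne h7] at h6
      exact absurd h6 a1
  · intro p' hp' hn
    rw [Finset.mem_insert, not_or] at hn
    obtain ⟨i1, hi1⟩ : ∃ i1, p i1 ≠ p' i1 := by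
      by_contra h4
      push Not at h4
      exact hn.1 (funext fun i => (h4 i).symm)
    obtain ⟨i2, hi21, hi2⟩ : ∃ i2, i1 ≠ i2 ∧ p i2 ≠ p' i2 := by
      by_contra h4
      push Not at h4
      apply hn.2
      rw [hU, Finset.mem_image]
      refine ⟨⟨i1, p' i1⟩, (hmemS _).2 ⟨(Fintype.mem_piFinset.1 hp') i1, Ne.symm hi1⟩, ?_⟩
      funext i
      by_cases hi : i = i1
      · rw [hi]
        exact Function.update_self _ _ _
      · show Function.update p i1 (p' i1) i = p' i
        rw [Function.update_of_ne hi]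
        exact h4 i (Ne.symm hi)
    exact h3 p' hp' i1 i2 hi21 hi1 hi2

/-- the average of a principal minor of `M` over all matchings of the half plots -/
theorem sum_det_MM (k r : ℕ) (hk : 1 ≤ k) (hr : 1 ≤ r) (s : E → V) (t : E → B) (hs : Fib s r)
    (ht : Fib t k) (A : Finset V) (hA : A.card < Fintype.card E) :
    ∑ σ : Equiv.Perm E,
        ((MM s (t ∘ σ)).submatrix (fun x : A => (x : V)) (fun x : A => (x : V))).det
      = (r : ℝ) ^ A.card * (k : ℝ) ^ A.card * ((Fintype.card B).descFactorial A.card)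
        * ((Fintype.card E - A.card - 1).factorial)
        * (((Fintype.card E : ℝ) - A.card) + A.card * qq k r) := by
  have hι : Fintype.card A = A.card := Fintype.card_coe A
  set F : A → Finset E := fun x => cc_F s x with hF
  have hmem : ∀ (x : A) (e : E), e ∈ F x ↔ s e = x := by
    intro x e
    rw [hF]
    unfold cc_F
    rw [Finset.mem_filter]
    exact ⟨fun h => h.2, fun h => ⟨Finset.mem_univ _, h⟩⟩
  have h1 : ∀ σ : Equiv.Perm E,
      ((MM s (t ∘ σ)).submatrix (fun x : A => (x : V)) (fun x : A => (x : V))).det =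
      ∑ p ∈ Fintype.piFinset F, ∑ p' ∈ Fintype.piFinset F,
        (Matrix.of fun x y : A => if t (σ (p x)) = t (σ (p' y)) then (1 : ℝ) else 0).det := by
    intro σ
    have e1 : (MM s (t ∘ σ)).submatrix (fun x : A => (x : V)) (fun x : A => (x : V)) =
        Matrix.of fun x y : A => ∑ e ∈ F x, ∑ f ∈ F y,
          if t (σ e) = t (σ f) then (1 : ℝ) else 0 := by
      ext x y
      exact cc_MM s (t ∘ σ) x y
    rw [e1]
    exact cc_det F fun e f => if t (σ e) = t (σ f) then (1 : ℝ) else 0
  rw [Finset.sum_congr rfl fun σ _ => h1 σ, Finset.sum_comm]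
  have h2 : ∀ p ∈ Fintype.piFinset F,
      ∑ σ : Equiv.Perm E, ∑ p' ∈ Fintype.piFinset F,
        (Matrix.of fun x y : A => if t (σ (p x)) = t (σ (p' y)) then (1 : ℝ) else 0).det =
      (((Fintype.card B).descFactorial (Fintype.card A) * k ^ (Fintype.card A)
        * (Fintype.card E - Fintype.card A).factorial : ℕ) : ℝ) +
      (Fintype.card A : ℝ) * (((r : ℝ) - 1) *
        (((Fintype.card B).descFactorial (Fintype.card A) * k ^ (Fintype.card A) * (k - 1)
        * (Fintype.card E - Fintype.card A - 1).factorial : ℕ) : ℝ)) := by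
    intro p hp
    rw [Fintype.mem_piFinset] at hp
    have hsp : ∀ x, s (p x) = x := fun x => (hmem x _).1 (hp x)
    have hinj : Function.Injective p := by
      intro x y h
      have h3 := hsp x
      rw [h, hsp y] at h3
      exact Subtype.ext h3.symm
    rw [Finset.sum_comm]
    refine cc_sum F p hp r (fun x => hs x) hr _ _ _ ?_ ?_ ?_
    · show ∑ σ : Equiv.Perm E, (Matrix.of fun x y : A =>
        if t (σ (p x)) = t (σ (p y)) then (1 : ℝ) else 0).det = _
      rw [sum_det_eq t p hinj, count_one k t ht p hinj]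
    · intro x0 g hg hne
      have hg' : ∀ i, p i ≠ g := by
        intro i hi
        have h3 := hsp i
        rw [hi, (hmem x0 g).1 hg] at h3
        have h4 : x0 = i := Subtype.ext h3
        subst h4
        exact hne hi.symm
      show ∑ σ : Equiv.Perm E, (Matrix.of fun x y : A =>
        if t (σ (p x)) = t (σ (Function.update p x0 g y)) then (1 : ℝ) else 0).det = _
      rw [sum_det_one t p hinj x0 g hg', count_two k t ht p hinj x0 g hg']
    · intro p' hp' i1 i2 h12 h3 h4
      rw [Fintype.mem_piFinset] at hp'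
      refine sum_det_two t p p' (fun i j hij h5 => hij ?_) hinj i1 i2 h12 h3 h4
      have h6 := hsp i
      rw [h5, (hmem j _).1 (hp' j)] at h6
      exact Subtype.ext h6.symm
  rw [Finset.sum_congr rfl h2, Finset.sum_const, Fintype.card_piFinset, hι]
  have h3 : ∏ x : A, (F x).card = r ^ A.card := by
    have h5 : ∀ x : A, (F x).card = r := fun x => hs x
    rw [Finset.prod_congr rfl fun x _ => h5 x, Finset.prod_const, Finset.card_univ, hι]
  rw [h3, nsmul_eq_mul]
  have h4 : (Fintype.card E - A.card).factorial =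
      (Fintype.card E - A.card) * (Fintype.card E - A.card - 1).factorial :=
    (Nat.mul_factorial_pred (by omega)).symm
  rw [h4]
  unfold qq
  push_cast [Nat.cast_sub hk, Nat.cast_sub hA.le]
  ring

end LCD
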