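import Mathlib
import Pool.Agent.Lib_helper55.LCD.Defs

set_option autoImplicit false

namespace LCD

open Finset Matrix

variable {E V B : Type} [Fintype E] [DecidableEq E] [Fintype V] [DecidableEq V]
  [Fintype B] [DecidableEq B]

/-- the characteristic polynomial and the principal minors -/
theorem charpoly_minors (M : Matrix V V ℝ) :
    M.charpoly = ∑ A ∈ (univ : Finset V).powerset,
      Polynomial.C ((-1 : ℝ) ^ A.card
        * (M.submatrix (fun x : A => (x : V)) (fun x : A => (x : V))).det)
      * Polynomial.X ^ (Fintype.card V - A.card) := by
  ext n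
  rw [Polynomial.finsetSum_coeff]
  simp_rw [Polynomial.coeff_C_mul_X_pow]
  by_cases hn : n ≤ Fintype.card V
  · have h := Matrix.charpoly_coeff_eq_sum_minors M (Fintype.card V - n) (Nat.sub_le _ _)
    rw [Nat.sub_sub_self hn] at h
    rw [h, ← Finset.sum_filter, Finset.mul_sum]
    have hset : (univ : Finset V).powerset.filter (fun A => n = Fintype.card V - A.card) =
        univ.powersetCard (Fintype.card V - n) := by
      ext A
      have hA : A.card ≤ Fintype.card V := Finset.card_le_univ A
      simp only [mem_filter, mem_powerset, subset_univ, true_and, mem_powersetCard]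
      omega
    rw [hset]
    apply Finset.sum_congr rfl
    intro A hA
    rw [(mem_powersetCard.1 hA).2]
  · rw [Polynomial.coeff_eq_zero_of_natDegree_lt (by
      rw [Matrix.charpoly_natDegree_eq_dim]
      omega)]
    symm
    apply Finset.sum_eq_zero
    intro A _
    rw [if_neg (by omega)]

end LCD
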