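import Mathlib
import Pool.Agent.Lib_helper55.LCD.Defs

set_option autoImplicit false

namespace LCD

open Finset Matrix

variable {E V B : Type} [Fintype E] [DecidableEq E] [Fintype V] [DecidableEq V]
  [Fintype B] [DecidableEq B]

/-- the alternating sum -/
noncomputable def ce_G (n b m : ℕ) : ℝ :=
  ∑ l ∈ range (n + 1), (-1 : ℝ) ^ l * (n.choose l) * (b.descFactorial l) * ((m - l).factorial)

theorem ce_pascal (a : ℕ → ℝ) (n : ℕ) :
    ∑ l ∈ range (n + 2), (-1 : ℝ) ^ l * ((n + 1).choose l) * a l =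
      ∑ l ∈ range (n + 1), (-1 : ℝ) ^ l * (n.choose l) * a l -
      ∑ l ∈ range (n + 1), (-1 : ℝ) ^ l * (n.choose l) * a (l + 1) := by
  rw [sum_range_succ']
  have h1 : ∀ l ∈ range (n + 1), (-1 : ℝ) ^ (l + 1) * ((n + 1).choose (l + 1)) * a (l + 1) =
      -((-1 : ℝ) ^ l * (n.choose l) * a (l + 1)) +
        (-1 : ℝ) ^ (l + 1) * (n.choose (l + 1)) * a (l + 1) := by
    intro l _
    rw [Nat.choose_succ_succ, Nat.cast_add]
    ring
  rw [sum_congr rfl h1, sum_add_distrib, sum_neg_distrib]
  have h2 : ∑ l ∈ range (n + 1), (-1 : ℝ) ^ (l + 1) * (n.choose (l + 1)) * a (l + 1) +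
      (-1 : ℝ) ^ 0 * ((n + 1).choose 0) * a 0 = ∑ l ∈ range (n + 1), (-1 : ℝ) ^ l *
        (n.choose l) * a l := by
    have h3 : (-1 : ℝ) ^ 0 * ((n + 1).choose 0) * a 0 = (-1 : ℝ) ^ 0 * (n.choose 0) * a 0 := by
      simp
    rw [h3, ← sum_range_succ' (fun l => (-1 : ℝ) ^ l * (n.choose l) * a l), sum_range_succ,
      Nat.choose_eq_zero_of_lt (Nat.lt_succ_self n)]
    simp
  linarith

theorem ce_G_eq (n : ℕ) : ∀ b m : ℕ, b ≤ m → n ≤ m →
    ce_G n b m = ((m - b).descFactorial n : ℝ) * ((m - n).factorial : ℝ) := by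
  induction n with
  | zero =>
    intro b m _ _
    unfold ce_G
    simp
  | succ n ih =>
    intro b m hb hn
    have e1 : ce_G (n + 1) b m = ce_G n b m -
        ∑ l ∈ range (n + 1), (-1 : ℝ) ^ l * (n.choose l) *
          ((b.descFactorial (l + 1)) * ((m - (l + 1)).factorial)) := by
      have := ce_pascal (fun l => (b.descFactorial l : ℝ) * ((m - l).factorial : ℝ)) n
      unfold ce_G
      simp only [mul_assoc] at this ⊢
      exact this
    obtain ⟨m, rfl⟩ : ∃ m', m = m' + 1 := ⟨m - 1, by omega⟩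
    rcases b with - | b
    · rw [e1, ih 0 (m + 1) (by omega) (by omega)]
      have h1 : ∑ l ∈ range (n + 1), (-1 : ℝ) ^ l * (n.choose l) *
          ((Nat.descFactorial 0 (l + 1) : ℝ) * ((m + 1 - (l + 1)).factorial : ℝ)) = 0 := by
        apply sum_eq_zero
        intro l _
        rw [Nat.zero_descFactorial_succ]
        simp
      rw [h1, sub_zero, Nat.sub_zero, ← Nat.cast_mul, ← Nat.cast_mul, mul_comm, mul_comm
        ((m + 1).descFactorial (n + 1)), Nat.factorial_mul_descFactorial (by omega),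
        Nat.factorial_mul_descFactorial (by omega)]
    · have h1 : ∑ l ∈ range (n + 1), (-1 : ℝ) ^ l * (n.choose l) *
          (((b + 1).descFactorial (l + 1) : ℝ) * ((m + 1 - (l + 1)).factorial : ℝ)) =
            (b + 1) * ce_G n b m := by
        unfold ce_G
        rw [mul_sum]
        apply sum_congr rfl
        intro l _
        rw [Nat.succ_descFactorial_succ, Nat.add_sub_add_right]
        push_cast
        ring
      rw [e1, h1, ih (b + 1) (m + 1) hb (by omega), ih b m (by omega) (by omega),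
        Nat.add_sub_add_right, Nat.add_sub_add_right, Nat.descFactorial_succ]
      have h2 : m + 1 - n = (m - n) + 1 := by omega
      rw [h2, Nat.factorial_succ]
      by_cases h3 : n ≤ m - b
      · have h4 : ((m - b - n : ℕ) : ℝ) = m - b - n := by
          rw [Nat.cast_sub h3, Nat.cast_sub (by omega)]
        have h5 : ((m - n : ℕ) : ℝ) = m - n := Nat.cast_sub (by omega)
        rw [Nat.cast_mul, Nat.cast_mul, h4, Nat.cast_add, h5]
        push_cast
        ring
      · rw [Nat.descFactorial_eq_zero_iff_lt.2 (by omega)]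
        simp

/-- Vandermonde -/
theorem UU_eq (k r b m n : ℕ) (hn : 1 ≤ n) (hm : n + 1 ≤ m) (hb : b + 1 ≤ m) :
    UU k r b m n = ((m - b - 1).descFactorial (n - 1)) * ((m - n - 1).factorial)
      * (((m : ℝ) - b) * (m - n) - qq k r * n * b) := by
  obtain ⟨n, rfl⟩ : ∃ n', n = n' + 1 := ⟨n - 1, by omega⟩
  have e1 : UU k r b m (n + 1) = ce_G (n + 1) b m + qq k r * ∑ l ∈ range (n + 1 + 1),
      (-1 : ℝ) ^ l * ((n + 1).choose l) * (b.descFactorial l) * ((m - l - 1).factorial) * l := by
    unfold UU ce_G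
    rw [mul_sum, ← sum_add_distrib]
    apply sum_congr rfl
    intro l hl
    rw [mem_range] at hl
    have h1 : ((m - l).factorial : ℝ) = ((m : ℝ) - l) * ((m - l - 1).factorial : ℝ) := by
      have h2 : m - l = (m - l - 1) + 1 := by omega
      rw [h2, Nat.factorial_succ, ← h2, Nat.cast_mul, Nat.cast_sub (by omega)]
    rw [h1]
    ring
  have e2 : ∑ l ∈ range (n + 1 + 1), (-1 : ℝ) ^ l * ((n + 1).choose l) * (b.descFactorial l) *
      ((m - l - 1).factorial) * l = -((n + 1) * b * ((m - b - 1).descFactorial n) *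
        ((m - (n + 1) - 1).factorial)) := by
    rw [sum_range_succ']
    simp only [Nat.cast_zero, mul_zero, add_zero]
    rcases b with - | b
    · rw [Nat.cast_zero, mul_zero, zero_mul, zero_mul, neg_zero]
      apply sum_eq_zero
      intro l _
      rw [Nat.zero_descFactorial_succ]
      simp
    · have h1 := ce_G_eq n b (m - 2) (by omega) (by omega)
      have h2 : m - 2 - b = m - (b + 1) - 1 := by omega
      have h3 : m - 2 - n = m - (n + 1) - 1 := by omega
      rw [h2, h3] at h1
      have h4 : ∀ x y z w : ℝ, -(x * y * z * w) = -(x * y) * (z * w) := by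
        intro x y z w
        ring
      rw [h4, ← h1]
      unfold ce_G
      rw [mul_sum]
      apply sum_congr rfl
      intro l _
      have h5 : m - (l + 1) - 1 = m - 2 - l := by omega
      have h6 : ((n + 1).choose (l + 1) : ℝ) * ((l : ℝ) + 1) = (n + 1) * (n.choose l : ℝ) := by
        have := Nat.add_one_mul_choose_eq n l
        have h7 : ((n + 1 : ℕ) : ℝ) * (n.choose l : ℝ) = ((n + 1).choose (l + 1) : ℝ) *
            ((l + 1 : ℕ) : ℝ) := by exact_mod_cast this
        push_cast at h7
        linarith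
      rw [Nat.succ_descFactorial_succ, h5]
      push_cast
      linear_combination (-1 : ℝ) ^ (l + 1) * ((b : ℝ) + 1) * (b.descFactorial l : ℝ) *
        ((m - 2 - l).factorial : ℝ) * h6
  rw [e1, e2, ce_G_eq (n + 1) b m (by omega) (by omega)]
  have h1 : m - b = (m - b - 1) + 1 := by omega
  have h2 : ((m - b).descFactorial (n + 1) : ℝ) = ((m : ℝ) - b) *
      ((m - b - 1).descFactorial n : ℝ) := by
    rw [h1, Nat.succ_descFactorial_succ, ← h1, Nat.cast_mul, Nat.cast_sub (by omega)]
  have h3 : ((m - (n + 1)).factorial : ℝ) = ((m : ℝ) - (n + 1)) *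
      ((m - (n + 1) - 1).factorial : ℝ) := by
    have h4 : m - (n + 1) = (m - (n + 1) - 1) + 1 := by omega
    rw [h4, Nat.factorial_succ, ← h4, Nat.cast_mul, Nat.cast_sub (by omega)]
    push_cast
    rfl
  rw [h2, h3, Nat.add_sub_cancel]
  push_cast
  ring

end LCD
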