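import Mathlib
import Pool.Agent.Lib_helper55.LCD.Defs

set_option autoImplicit false

namespace LCD

open Finset Matrix

variable {E V B : Type} [Fintype E] [DecidableEq E] [Fintype V] [DecidableEq V]
  [Fintype B] [DecidableEq B]

theorem df_col (k : ℕ) (s : E → V) (t : E → B) (ht : Fib t k) (l : B) :
    ∑ j, inc s t j l = k := by
  have h := Finset.card_eq_sum_card_fiberwise (s := univ.filter (fun e => t e = l)) (f := s)
    (t := (univ : Finset V)) (fun _ _ => by simp)
  rw [ht l] at h
  unfold inc
  rw [← Nat.cast_sum, h]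
  congr 1
  apply Finset.sum_congr rfl
  intro j _
  rw [Finset.filter_filter]
  congr 1
  ext e
  simp only [Finset.mem_filter, Finset.mem_univ, true_and]
  exact and_comm

theorem df_row (r : ℕ) (s : E → V) (t : E → B) (hs : Fib s r) (i : V) :
    ∑ l, inc s t i l = r := by
  have h := Finset.card_eq_sum_card_fiberwise (s := univ.filter (fun e => s e = i)) (f := t)
    (t := (univ : Finset B)) (fun _ _ => by simp)
  rw [hs i] at h
  unfold inc
  rw [← Nat.cast_sum, h]
  congr 1
  apply Finset.sum_congr rfl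
  intro j _
  rw [Finset.filter_filter]

/-- `MM` has constant row sums `r k` -/
theorem MM_row (k r : ℕ) (s : E → V) (t : E → B) (hs : Fib s r) (ht : Fib t k) (i : V) :
    ∑ j, MM s t i j = (r : ℝ) * k := by
  have h1 : ∀ j, MM s t i j = ∑ l, inc s t i l * inc s t j l := by
    intro j
    rw [MM, Matrix.mul_apply]
    rfl
  simp only [h1]
  rw [Finset.sum_comm]
  calc ∑ l, ∑ j, inc s t i l * inc s t j l = ∑ l, inc s t i l * (k : ℝ) := by
        apply Finset.sum_congr rfl
        intro l _
        rw [← Finset.mul_sum, df_col k s t ht l]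
    _ = (r : ℝ) * k := by rw [← Finset.sum_mul, df_row r s t hs i]

theorem df_MM_symm (s : E → V) (t : E → B) : (MM s t)ᵀ = MM s t := by
  rw [MM, Matrix.transpose_mul, Matrix.transpose_transpose]

theorem M0_symm (k r : ℕ) (s : E → V) (t : E → B) : (M0 k r s t)ᵀ = M0 k r s t := by
  rw [M0, Matrix.transpose_sub, Matrix.transpose_smul, df_MM_symm]
  congr 1

theorem M0_row (k r : ℕ) (s : E → V) (t : E → B) (hs : Fib s r) (ht : Fib t k) (i : V) :
    ∑ j, M0 k r s t i j = 0 := by
  have hV : (0 : ℝ) < Fintype.card V := by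
    have : 0 < Fintype.card V := Fintype.card_pos_iff.2 ⟨i⟩
    exact_mod_cast this
  have h1 : ∀ j, M0 k r s t i j = MM s t i j - (r : ℝ) * k / Fintype.card V := by
    intro j
    rw [M0, Matrix.sub_apply, Matrix.smul_apply, Matrix.of_apply, smul_eq_mul, mul_one]
  simp only [h1]
  rw [Finset.sum_sub_distrib, MM_row k r s t hs ht i, Finset.sum_const, Finset.card_univ,
    nsmul_eq_mul, mul_div_cancel₀ _ hV.ne', sub_self]

/-- `M0` is positive semidefinite -/
theorem M0_psd (k r : ℕ) (s : E → V) (t : E → B) (hs : Fib s r) (ht : Fib t k) (x : V → ℝ) :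
    0 ≤ x ⬝ᵥ (M0 k r s t *ᵥ x) := by
  rcases isEmpty_or_nonempty V with hV | hV
  · simp [dotProduct]
  have hv : (0 : ℝ) < Fintype.card V := by
    have : 0 < Fintype.card V := Fintype.card_pos
    exact_mod_cast this
  obtain ⟨S, hS⟩ : ∃ S, S = ∑ i, x i := ⟨_, rfl⟩
  obtain ⟨a, ha⟩ : ∃ a, a = S / Fintype.card V := ⟨_, rfl⟩
  obtain ⟨c, hc⟩ : ∃ c, c = (r : ℝ) * k := ⟨_, rfl⟩
  obtain ⟨y, hy⟩ : ∃ y : V → ℝ, y = fun i => x i - a := ⟨_, rfl⟩
  have hrow : ∀ i, ∑ j, MM s t i j = c := fun i => by rw [hc]; exact MM_row k r s t hs ht i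
  have hcol : ∀ j, ∑ i, MM s t i j = c := fun j => by
    rw [← hrow j]
    apply Finset.sum_congr rfl
    intro i _
    have := congrFun (congrFun (df_MM_symm s t) j) i
    rwa [Matrix.transpose_apply] at this
  have h0 : 0 ≤ ∑ i, ∑ j, y i * MM s t i j * y j := by
    have h1 : ∀ i j, MM s t i j = ∑ l, inc s t i l * inc s t j l := by
      intro i j
      rw [MM, Matrix.mul_apply]
      rfl
    have h2 : ∑ i, ∑ j, y i * MM s t i j * y j = ∑ l, (∑ i, y i * inc s t i l) ^ 2 := by
      simp only [h1, sq, Finset.sum_mul_sum, Finset.mul_sum, Finset.sum_mul]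
      calc ∑ i, ∑ j, ∑ l, y i * (inc s t i l * inc s t j l) * y j
          = ∑ i, ∑ l, ∑ j, y i * (inc s t i l * inc s t j l) * y j :=
            Finset.sum_congr rfl fun i _ => Finset.sum_comm
        _ = ∑ l, ∑ i, ∑ j, y i * (inc s t i l * inc s t j l) * y j := Finset.sum_comm
        _ = _ := by
          apply Finset.sum_congr rfl
          intro l _
          rw [Finset.sum_comm]
          apply Finset.sum_congr rfl
          intro i _
          apply Finset.sum_congr rfl
          intro j _
          ring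
    rw [h2]
    exact Finset.sum_nonneg fun l _ => sq_nonneg _
  have h3 : ∑ i, ∑ j, y i * MM s t i j * y j =
      ∑ i, ∑ j, x i * MM s t i j * x j - c * S ^ 2 / Fintype.card V := by
    have e1 : ∑ i, ∑ j, y i * MM s t i j * y j =
        ∑ i, ∑ j, x i * MM s t i j * x j - ∑ i, ∑ j, a * (x i * MM s t i j)
          - ∑ i, ∑ j, a * (MM s t i j * x j) + ∑ i, ∑ j, a ^ 2 * MM s t i j := by
      rw [← Finset.sum_sub_distrib, ← Finset.sum_sub_distrib, ← Finset.sum_add_distrib]
      apply Finset.sum_congr rfl
      intro i _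
      rw [← Finset.sum_sub_distrib, ← Finset.sum_sub_distrib, ← Finset.sum_add_distrib]
      apply Finset.sum_congr rfl
      intro j _
      rw [hy]
      ring
    have e2 : ∑ i, ∑ j, a * (x i * MM s t i j) = a * (c * S) := by
      calc ∑ i, ∑ j, a * (x i * MM s t i j) = ∑ i, a * (x i * c) := by
            apply Finset.sum_congr rfl
            intro i _
            rw [← Finset.mul_sum, ← Finset.mul_sum, hrow i]
        _ = a * (c * S) := by rw [← Finset.mul_sum, ← Finset.sum_mul, hS, mul_comm c]
    have e3 : ∑ i, ∑ j, a * (MM s t i j * x j) = a * (c * S) := by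
      rw [Finset.sum_comm]
      calc ∑ j, ∑ i, a * (MM s t i j * x j) = ∑ j, a * (c * x j) := by
            apply Finset.sum_congr rfl
            intro j _
            rw [← Finset.mul_sum, ← Finset.sum_mul, hcol j]
        _ = a * (c * S) := by rw [← Finset.mul_sum, ← Finset.mul_sum, hS]
    have e4 : ∑ i, ∑ j, a ^ 2 * MM s t i j = a ^ 2 * (c * Fintype.card V) := by
      calc ∑ i, ∑ j, a ^ 2 * MM s t i j = ∑ i : V, a ^ 2 * c := by
            apply Finset.sum_congr rfl
            intro i _
            rw [← Finset.mul_sum, hrow i]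
        _ = _ := by
            rw [Finset.sum_const, Finset.card_univ, nsmul_eq_mul]
            ring
    rw [e1, e2, e3, e4, ha]
    field_simp
    ring
  have h4 : x ⬝ᵥ (M0 k r s t *ᵥ x) =
      ∑ i, ∑ j, x i * MM s t i j * x j - c * S ^ 2 / Fintype.card V := by
    have e1 : x ⬝ᵥ (M0 k r s t *ᵥ x) =
        ∑ i, ∑ j, (x i * MM s t i j * x j - c / Fintype.card V * (x i * x j)) := by
      simp only [dotProduct, Matrix.mulVec]
      apply Finset.sum_congr rfl
      intro i _
      rw [Finset.mul_sum]
      apply Finset.sum_congr rfl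
      intro j _
      rw [M0, Matrix.sub_apply, Matrix.smul_apply, Matrix.of_apply, smul_eq_mul, mul_one, ← hc]
      ring
    rw [e1]
    have e2 : ∑ i, ∑ j, c / Fintype.card V * (x i * x j) = c * S ^ 2 / Fintype.card V := by
      calc ∑ i, ∑ j, c / Fintype.card V * (x i * x j)
          = c / Fintype.card V * ((∑ i, x i) * ∑ j, x j) := by
            rw [Finset.sum_mul_sum, Finset.mul_sum]
            apply Finset.sum_congr rfl
            intro i _
            rw [Finset.mul_sum]
        _ = _ := by rw [← hS]; ring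
    rw [← e2, ← Finset.sum_sub_distrib]
    apply Finset.sum_congr rfl
    intro i _
    rw [Finset.sum_sub_distrib]
  rw [h4, ← h3]
  exact h0

/-- deflation -/
theorem trace_defl (k r : ℕ) (s : E → V) (t : E → B) (hs : Fib s r) (ht : Fib t k)
    (hV : 0 < Fintype.card V) (p : Polynomial ℝ) :
    trace (Polynomial.aeval (MM s t) p)
      = trace (Polynomial.aeval (M0 k r s t) p) + p.eval ((r : ℝ) * k) - p.eval 0 := by
  have hv : (0 : ℝ) < Fintype.card V := by exact_mod_cast hV
  obtain ⟨c, hc⟩ : ∃ c, c = (r : ℝ) * k := ⟨_, rfl⟩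
  obtain ⟨J1, hJ1⟩ : ∃ J1 : Matrix V V ℝ, J1 = Matrix.of (fun _ _ => 1 / (Fintype.card V : ℝ)) :=
    ⟨_, rfl⟩
  obtain ⟨M, hM⟩ : ∃ M, M = M0 k r s t := ⟨_, rfl⟩
  have hMM : MM s t = M + c • J1 := by
    rw [hM, M0, hJ1, hc]
    ext i j
    simp only [Matrix.add_apply, Matrix.sub_apply, Matrix.smul_apply, Matrix.of_apply,
      smul_eq_mul]
    ring
  have hMJ : M * J1 = 0 := by
    ext i j
    rw [Matrix.mul_apply, Matrix.zero_apply]
    have h1 : ∀ l, M i l * J1 l j = M i l * (1 / Fintype.card V) := by
      intro l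
      rw [hJ1, Matrix.of_apply]
    simp only [h1]
    rw [← Finset.sum_mul, hM, M0_row k r s t hs ht i, zero_mul]
  have hJM : J1 * M = 0 := by
    have h1 : (M * J1)ᵀ = J1 * M := by
      rw [Matrix.transpose_mul]
      congr 1
      · rw [hJ1]
        ext i j
        rfl
      · rw [hM, M0_symm]
    rw [← h1, hMJ, Matrix.transpose_zero]
  have hJJ : J1 * J1 = J1 := by
    ext i j
    rw [Matrix.mul_apply, hJ1]
    simp only [Matrix.of_apply]
    rw [Finset.sum_const, Finset.card_univ, nsmul_eq_mul]
    field_simp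
  have hMn : ∀ n : ℕ, M ^ (n + 1) * J1 = 0 := by
    intro n
    rw [pow_succ, Matrix.mul_assoc, hMJ, Matrix.mul_zero]
  have hpow : ∀ n : ℕ, (MM s t) ^ n = M ^ n + (c ^ n - 0 ^ n) • J1 := by
    intro n
    induction n with
    | zero => simp
    | succ n ih =>
      rw [pow_succ, ih, hMM, Matrix.add_mul, Matrix.mul_add, Matrix.mul_add, Matrix.smul_mul,
        Matrix.smul_mul, hJM, smul_zero, zero_add, Matrix.mul_smul, Matrix.mul_smul, hJJ,
        ← pow_succ, add_assoc]
      congr 1
      cases n with
      | zero => simp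
      | succ n =>
        rw [hMn n]
        simp only [smul_zero, zero_add, smul_smul]
        congr 1
        simp only [pow_succ, mul_zero, sub_zero]
  have haeval : Polynomial.aeval (MM s t) p =
      Polynomial.aeval M p + (p.eval c - p.eval 0) • J1 := by
    induction p using Polynomial.induction_on' with
    | add p q hp hq =>
      rw [map_add, map_add, hp, hq, Polynomial.eval_add, Polynomial.eval_add]
      rw [show (p.eval c + q.eval c - (p.eval 0 + q.eval 0)) =
        (p.eval c - p.eval 0) + (q.eval c - q.eval 0) by ring, add_smul]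
      abel
    | monomial n a =>
      rw [Polynomial.aeval_monomial, Polynomial.aeval_monomial, hpow n, mul_add,
        Polynomial.eval_monomial, Polynomial.eval_monomial, ← mul_sub]
      congr 1
      rw [Algebra.algebraMap_eq_smul_one, Matrix.smul_mul, Matrix.one_mul, smul_smul]
  have htr : trace J1 = 1 := by
    rw [Matrix.trace, hJ1]
    simp only [Matrix.diag_apply, Matrix.of_apply]
    rw [Finset.sum_const, Finset.card_univ, nsmul_eq_mul]
    field_simp
  rw [haeval, Matrix.trace_add, Matrix.trace_smul, htr, smul_eq_mul, mul_one, hM, hc]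
  ring

end LCD
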