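import Mathlib
import Pool.Agent.Lib_helper55.LCD.Defs
import Pool.Agent.Lib_helper55.LCD.DF
import Pool.Agent.Lib_helper55.LCD.AA

set_option autoImplicit false
set_option linter.unusedSectionVars false

namespace LCD

open Finset Matrix

variable {E V B : Type} [Fintype E] [DecidableEq E] [Fintype V] [DecidableEq V]
  [Fintype B] [DecidableEq B]

omit [DecidableEq E] in
/-- sums over fibres -/
theorem qf_fib (r : ℕ) (s : E → V) (hs : Fib s r) (h : V → ℝ) :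
    ∑ g, h (s g) = r * ∑ i, h i := by
  rw [← Finset.sum_fiberwise univ s, Finset.mul_sum]
  refine Finset.sum_congr rfl fun i _ => ?_
  rw [Finset.sum_congr rfl (g := fun _ => h i) fun g hg => by
    rw [(Finset.mem_filter.1 hg).2]]
  rw [Finset.sum_const, hs i, nsmul_eq_mul]

omit [DecidableEq E] in
/-- mixed sums -/
theorem qf_mix (s : E → V) (t : E → B) (φ : V → ℝ) (ψ : B → ℝ) :
    ∑ g, φ (s g) * ψ (t g) = ψ ⬝ᵥ ((inc s t)ᵀ *ᵥ φ) := by
  have h1 : ∀ g, φ (s g) * ψ (t g) = ∑ j, ∑ i, if s g = i ∧ t g = j then φ i * ψ j else 0 := by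
    intro g
    rw [Finset.sum_eq_single (t g), Finset.sum_eq_single (s g)]
    · simp
    · intro i _ hi
      rw [if_neg]
      exact fun h => hi h.1.symm
    · intro h
      exact absurd (Finset.mem_univ _) h
    · intro j _ hj
      refine Finset.sum_eq_zero fun i _ => ?_
      rw [if_neg]
      exact fun h => hj h.2.symm
    · intro h
      exact absurd (Finset.mem_univ _) h
  rw [Finset.sum_congr rfl fun g _ => h1 g, Finset.sum_comm]
  simp only [dotProduct, mulVec]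
  refine Finset.sum_congr rfl fun j _ => ?_
  rw [Finset.sum_comm, Finset.mul_sum]
  refine Finset.sum_congr rfl fun i _ => ?_
  rw [← Finset.sum_filter, Finset.sum_const, nsmul_eq_mul, Matrix.transpose_apply, inc]
  ring

omit [DecidableEq E] in
/-- the quadratic form of `MM` -/
theorem qf_MM (s : E → V) (t : E → B) (φ : V → ℝ) :
    φ ⬝ᵥ (MM s t *ᵥ φ) = ((inc s t)ᵀ *ᵥ φ) ⬝ᵥ ((inc s t)ᵀ *ᵥ φ) := by
  rw [MM, ← Matrix.mulVec_mulVec, Matrix.dotProduct_mulVec, Matrix.mulVec_transpose]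

omit [DecidableEq E] in
/-- the sum of the squares of the gradient -/
theorem qf_grad (k r : ℕ) (s : E → V) (t : E → B) (hs : Fib s r) (ht : Fib t k)
    (φ : V → ℝ) (ψ : B → ℝ) :
    ∑ g, (φ (s g) - ψ (t g)) ^ 2 =
      r * (φ ⬝ᵥ φ) - 2 * (ψ ⬝ᵥ ((inc s t)ᵀ *ᵥ φ)) + k * (ψ ⬝ᵥ ψ) := by
  have h1 : ∀ g, (φ (s g) - ψ (t g)) ^ 2 =
      φ (s g) * φ (s g) - 2 * (φ (s g) * ψ (t g)) + ψ (t g) * ψ (t g) := fun g => by ring
  rw [Finset.sum_congr rfl fun g _ => h1 g, Finset.sum_add_distrib, Finset.sum_sub_distrib,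
    ← Finset.mul_sum, qf_fib r s hs fun i => φ i * φ i,
    qf_fib k t ht fun j => ψ j * ψ j, qf_mix s t]
  rfl

omit [DecidableEq E] in
/-- completed square -/
theorem qf_square (k r : ℕ) (s : E → V) (t : E → B) (hs : Fib s r) (ht : Fib t k)
    (φ : V → ℝ) (ψ : B → ℝ) :
    k * ∑ g, (φ (s g) - ψ (t g)) ^ 2 - (((r : ℝ) * k) * (φ ⬝ᵥ φ) - φ ⬝ᵥ (MM s t *ᵥ φ)) =
      ((inc s t)ᵀ *ᵥ φ - (k : ℝ) • ψ) ⬝ᵥ ((inc s t)ᵀ *ᵥ φ - (k : ℝ) • ψ) := by
  rw [qf_grad k r s t hs ht, qf_MM, sub_dotProduct, dotProduct_sub, dotProduct_sub,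
    smul_dotProduct, smul_dotProduct, dotProduct_smul, dotProduct_smul,
    dotProduct_comm ((inc s t)ᵀ *ᵥ φ) ψ]
  simp only [smul_eq_mul]
  ring

/-- `x (r k - M) x = k min over ψ of the Dirichlet form` : the inequality -/
theorem form_le (k r : ℕ) (s : E → V) (t : E → B) (hs : Fib s r) (ht : Fib t k)
    (φ : V → ℝ) (ψ : B → ℝ) :
    ((r : ℝ) * k) * (φ ⬝ᵥ φ) - φ ⬝ᵥ (MM s t *ᵥ φ) ≤ k * ∑ g, (φ (s g) - ψ (t g)) ^ 2 := by
  have h := qf_square k r s t hs ht φ ψ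
  have h2 : 0 ≤ ((inc s t)ᵀ *ᵥ φ - (k : ℝ) • ψ) ⬝ᵥ ((inc s t)ᵀ *ᵥ φ - (k : ℝ) • ψ) :=
    Finset.sum_nonneg fun _ _ => mul_self_nonneg _
  linarith

/-- the minimiser -/
theorem form_eq (k r : ℕ) (hk : 1 ≤ k) (s : E → V) (t : E → B) (hs : Fib s r) (ht : Fib t k)
    (φ : V → ℝ) : ∃ ψ : B → ℝ,
    ((r : ℝ) * k) * (φ ⬝ᵥ φ) - φ ⬝ᵥ (MM s t *ᵥ φ) = k * ∑ g, (φ (s g) - ψ (t g)) ^ 2 := by
  refine ⟨(k : ℝ)⁻¹ • ((inc s t)ᵀ *ᵥ φ), ?_⟩
  have h := qf_square k r s t hs ht φ ((k : ℝ)⁻¹ • ((inc s t)ᵀ *ᵥ φ))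
  have hk0 : (k : ℝ) ≠ 0 := by
    have : (0 : ℝ) < k := by exact_mod_cast hk
    exact this.ne'
  rw [smul_smul, mul_inv_cancel₀ hk0, one_smul, sub_self, zero_dotProduct] at h
  linarith

/-- the form of `Rs` -/
theorem qf_Rs (k r : ℕ) (s : E → V) (t : E → B) (x : V → ℝ) :
    x ⬝ᵥ (Rs k r s t *ᵥ x) = ((r : ℝ) * k) * (x ⬝ᵥ x) - x ⬝ᵥ (MM s t *ᵥ x) +
      ((r : ℝ) * k / Fintype.card V) * (∑ i, x i) ^ 2 := by
  have h1 : x ⬝ᵥ (Matrix.of (fun (_ : V) (_ : V) => (1 : ℝ)) *ᵥ x) = (∑ i, x i) ^ 2 := by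
    simp only [dotProduct, mulVec, Matrix.of_apply, one_mul]
    rw [← Finset.sum_mul, sq]
  rw [Rs, M0, Matrix.sub_mulVec, Matrix.sub_mulVec, Matrix.smul_mulVec, Matrix.smul_mulVec,
    Matrix.one_mulVec, dotProduct_sub, dotProduct_sub, dotProduct_smul, dotProduct_smul, h1]
  simp only [smul_eq_mul]
  ring

/-- `Rs` is positive semidefinite -/
theorem gap_zero (k r : ℕ) (hk : 1 ≤ k) (s : E → V) (t : E → B) (hs : Fib s r) (ht : Fib t k) :
    Gap k r s t 0 := by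
  intro x
  rw [zero_mul, qf_Rs]
  obtain ⟨ψ, hψ⟩ := form_eq k r hk s t hs ht x
  rw [hψ]
  positivity

omit [DecidableEq E] [Fintype V] in
theorem qf_MM_symm (s : E → V) (t : E → B) : (MM s t)ᵀ = MM s t := by
  rw [MM, Matrix.transpose_mul, Matrix.transpose_transpose]

/-- the form of `Rs` for a vector with mean `a` -/
theorem qf_shift (k r : ℕ) (s : E → V) (t : E → B) (hs : Fib s r) (ht : Fib t k)
    (hV : 0 < Fintype.card V) (y : V → ℝ) (hy : ∑ i, y i = 0) (a : ℝ) :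
    (y + a • 1) ⬝ᵥ (Rs k r s t *ᵥ (y + a • 1)) =
      (((r : ℝ) * k) * (y ⬝ᵥ y) - y ⬝ᵥ (MM s t *ᵥ y)) +
        (r : ℝ) * k * (Fintype.card V * a ^ 2) := by
  have hc : (Fintype.card V : ℝ) ≠ 0 := by exact_mod_cast hV.ne'
  have h1 : MM s t *ᵥ (1 : V → ℝ) = ((r : ℝ) * k) • 1 := by
    funext i
    have h := MM_row k r s t hs ht i
    simp only [mulVec, dotProduct, Pi.one_apply, mul_one, Pi.smul_apply, smul_eq_mul]
    exact h
  have h2 : (1 : V → ℝ) ⬝ᵥ y = 0 := by rw [one_dotProduct, hy]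
  have h3 : (1 : V → ℝ) ⬝ᵥ (1 : V → ℝ) = Fintype.card V := by simp [dotProduct]
  have h4 : (1 : V → ℝ) ⬝ᵥ (MM s t *ᵥ y) = 0 := by
    rw [Matrix.dotProduct_mulVec, ← Matrix.mulVec_transpose, qf_MM_symm, h1, smul_dotProduct, h2,
      smul_zero]
  have h5 : y ⬝ᵥ (1 : V → ℝ) = 0 := by rw [dotProduct_comm, h2]
  have h6 : ∑ i, (y + a • (1 : V → ℝ)) i = Fintype.card V * a := by
    simp [Finset.sum_add_distrib, hy]
  rw [qf_Rs, h6, Matrix.mulVec_add, Matrix.mulVec_smul, h1]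
  simp only [add_dotProduct, dotProduct_add, smul_dotProduct, dotProduct_smul, h2, h3, h4, h5,
    smul_eq_mul]
  field_simp
  ring

/-- the gap survives a switch -/
theorem gap_switch (k r : ℕ) (hk : 1 ≤ k) (s : E → V) (t : E → B) (hs : Fib s r) (ht : Fib t k)
    (e f : E) (κ δ : ℝ) (hκ0 : 0 ≤ κ) (hκ : κ < 1) (h2 : Two s t e f κ) (hG : Gap k r s t δ)
    (hδ : δ ≤ (r : ℝ) * k) : Gap k r s (sw t e f) ((1 - κ) * δ) := by
  intro x
  rcases Nat.eq_zero_or_pos (Fintype.card V) with hV | hV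
  · haveI := Fintype.card_eq_zero_iff.1 hV
    simp [dotProduct]
  have hc : (0 : ℝ) < Fintype.card V := by exact_mod_cast hV
  set a : ℝ := (∑ i, x i) / Fintype.card V with ha
  set y : V → ℝ := x - a • 1 with hy
  have hx : x = y + a • 1 := by rw [hy, sub_add_cancel]
  have hy0 : ∑ i, y i = 0 := by
    simp only [hy, Pi.sub_apply, Pi.smul_apply, Pi.one_apply, smul_eq_mul, mul_one,
      Finset.sum_sub_distrib, Finset.sum_const, Finset.card_univ, nsmul_eq_mul]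
    rw [ha]
    field_simp
    ring
  have hxx : x ⬝ᵥ x = y ⬝ᵥ y + Fintype.card V * a ^ 2 := by
    have h3 : (1 : V → ℝ) ⬝ᵥ (1 : V → ℝ) = Fintype.card V := by simp [dotProduct]
    have h4 : (1 : V → ℝ) ⬝ᵥ y = 0 := by rw [one_dotProduct, hy0]
    have h5 : y ⬝ᵥ (1 : V → ℝ) = 0 := by rw [dotProduct_comm, h4]
    rw [hx]
    simp only [add_dotProduct, dotProduct_add, smul_dotProduct, dotProduct_smul, h3, h4, h5,
      smul_eq_mul]
    ring
  have h1 : x ⬝ᵥ (Rs k r s (sw t e f) *ᵥ x) =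
      (((r : ℝ) * k) * (y ⬝ᵥ y) - y ⬝ᵥ (MM s (sw t e f) *ᵥ y)) +
        (r : ℝ) * k * (Fintype.card V * a ^ 2) := by
    conv_lhs => rw [hx]
    exact qf_shift k r s _ hs (fib_sw k t ht e f) hV y hy0 a
  obtain ⟨ψ, hψ⟩ := form_eq k r hk s (sw t e f) hs (fib_sw k t ht e f) y
  -- the terms `g ≠ e, f` are unchanged
  have h3 : ∑ g, (y (s g) - ψ (t g)) ^ 2 - ((y (s e) - ψ (t e)) ^ 2 + (y (s f) - ψ (t f)) ^ 2) ≤
      ∑ g, (y (s g) - ψ (sw t e f g)) ^ 2 := by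
    have h4 : ∀ g, (y (s g) - ψ (t g)) ^ 2 - ((if g = e then (y (s e) - ψ (t e)) ^ 2 else 0) +
        (if g = f then (y (s f) - ψ (t f)) ^ 2 else 0)) ≤ (y (s g) - ψ (sw t e f g)) ^ 2 := by
      intro g
      by_cases he : g = e
      · subst he
        have h5 : 0 ≤ (if g = f then (y (s f) - ψ (t f)) ^ 2 else 0) := by
          split_ifs
          · positivity
          · exact le_refl _
        rw [if_pos rfl]
        nlinarith [sq_nonneg (y (s g) - ψ (sw t g f g))]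
      · by_cases hf : g = f
        · subst hf
          rw [if_pos rfl, if_neg he]
          nlinarith [sq_nonneg (y (s g) - ψ (sw t e g g))]
        · rw [if_neg he, if_neg hf, add_zero, sub_zero, sw, Function.comp_apply,
            Equiv.swap_apply_of_ne_of_ne he hf]
    have h5 := Finset.sum_le_sum fun g (_ : g ∈ univ) => h4 g
    rw [Finset.sum_sub_distrib, Finset.sum_add_distrib, Finset.sum_ite_eq', Finset.sum_ite_eq',
      if_pos (Finset.mem_univ _), if_pos (Finset.mem_univ _)] at h5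
    exact h5
  have h4 := h2 y ψ
  have h5 := form_le k r s t hs ht y ψ
  have h6 : δ * (y ⬝ᵥ y) ≤ ((r : ℝ) * k) * (y ⬝ᵥ y) - y ⬝ᵥ (MM s t *ᵥ y) := by
    have h7 := hG y
    rw [qf_Rs, hy0] at h7
    simpa using h7
  have hk0 : (0 : ℝ) ≤ k := Nat.cast_nonneg k
  have h7 : k * ((1 - κ) * ∑ g, (y (s g) - ψ (t g)) ^ 2) ≤
      k * ∑ g, (y (s g) - ψ (sw t e f g)) ^ 2 :=
    mul_le_mul_of_nonneg_left (by linarith) hk0
  have h8 : (1 - κ) * (δ * (y ⬝ᵥ y)) ≤ k * ∑ g, (y (s g) - ψ (sw t e f g)) ^ 2 := by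
    have h9 : (1 - κ) * (δ * (y ⬝ᵥ y)) ≤ (1 - κ) * (k * ∑ g, (y (s g) - ψ (t g)) ^ 2) :=
      mul_le_mul_of_nonneg_left (h6.trans h5) (by linarith)
    linarith
  have h9 : (1 - κ) * δ ≤ (r : ℝ) * k := by
    have hrk : 0 ≤ (r : ℝ) * k := by positivity
    calc (1 - κ) * δ ≤ (1 - κ) * ((r : ℝ) * k) :=
          mul_le_mul_of_nonneg_left hδ (by linarith)
      _ ≤ 1 * ((r : ℝ) * k) := mul_le_mul_of_nonneg_right (by linarith) hrk
      _ = _ := one_mul _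
  have h10 : (1 - κ) * δ * (Fintype.card V * a ^ 2) ≤
      (r : ℝ) * k * (Fintype.card V * a ^ 2) :=
    mul_le_mul_of_nonneg_right h9 (by positivity)
  rw [h1, hψ, hxx]
  linarith

end LCD
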