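import Mathlib
import Pool.Agent.Lib_helper55.LCD.Defs
import Pool.Agent.Lib_helper55.LCD.DF
import Pool.Agent.Lib_helper55.LCD.QF

set_option autoImplicit false

namespace LCD

open Finset Matrix

variable {E V B : Type} [Fintype E] [DecidableEq E] [Fintype V] [DecidableEq V]
  [Fintype B] [DecidableEq B]

theorem charpoly_defl (k r : ℕ) (s : E → V) (t : E → B) (hs : Fib s r) (ht : Fib t k)
    (hV : 0 < Fintype.card V) :
    Polynomial.X * (MM s t).charpoly
      = (Polynomial.X - Polynomial.C ((r : ℝ) * k)) * (M0 k r s t).charpoly := by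
  classical
  have hv0 : (Fintype.card V : ℝ) ≠ 0 := by
    exact_mod_cast hV.ne'
  set c : ℝ := (r : ℝ) * k / Fintype.card V with hc
  set J : Matrix V V ℝ := Matrix.vecMulVec (fun _ => c) (fun _ => 1) with hJ
  have hMM : MM s t = M0 k r s t + J := by
    ext i j
    simp only [M0, Matrix.add_apply, Matrix.sub_apply, Matrix.smul_apply, Matrix.of_apply, hJ,
      Matrix.vecMulVec_apply, smul_eq_mul, mul_one]
    rw [← hc]
    ring
  have h0 : M0 k r s t * J = 0 := by
    ext i j
    rw [Matrix.mul_apply]
    simp only [hJ, Matrix.vecMulVec_apply, mul_one, Matrix.zero_apply]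
    rw [← Finset.sum_mul, M0_row k r s t hs ht i, zero_mul]
  have hmat : (Matrix.scalar V (Polynomial.X : Polynomial ℝ)) * (MM s t).charmatrix
      = (M0 k r s t).charmatrix * J.charmatrix := by
    have h1 : (M0 k r s t).map Polynomial.C * J.map Polynomial.C =
        (0 : Matrix V V (Polynomial ℝ)) := by
      rw [← Matrix.map_mul, h0, Matrix.map_zero _ (map_zero _)]
    simp only [Matrix.charmatrix, RingHom.mapMatrix_apply]
    rw [hMM, Matrix.map_add _ (map_add _)]
    have hcomm : (M0 k r s t).map Polynomial.C * Matrix.scalar V (Polynomial.X : Polynomial ℝ) =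
        Matrix.scalar V (Polynomial.X : Polynomial ℝ) * (M0 k r s t).map Polynomial.C :=
      (Matrix.scalar_comm (Polynomial.X : Polynomial ℝ) (fun x => Commute.all _ x)
        ((M0 k r s t).map Polynomial.C)).symm
    rw [sub_mul, mul_sub, mul_sub, mul_sub, h1, hcomm, mul_add]
    abel
  have hdet := congrArg Matrix.det hmat
  rw [Matrix.det_mul, Matrix.det_mul] at hdet
  have hsc : (Matrix.scalar V (Polynomial.X : Polynomial ℝ)).det =
      Polynomial.X ^ Fintype.card V := by
    rw [Matrix.scalar_apply, Matrix.det_diagonal, Finset.prod_const, Finset.card_univ]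
  have hJc : J.charmatrix.det = Polynomial.X ^ Fintype.card V -
      (((r : ℝ) * k)) • Polynomial.X ^ (Fintype.card V - 1) := by
    have h2 := Matrix.charpoly_vecMulVec (fun _ : V => c) (fun _ : V => (1 : ℝ))
    rw [Matrix.charpoly] at h2
    rw [hJ, h2]
    congr 2
    simp only [dotProduct, mul_one, Finset.sum_const, Finset.card_univ, nsmul_eq_mul]
    rw [hc]
    field_simp
  rw [hsc, hJc] at hdet
  change _ * (MM s t).charpoly = (M0 k r s t).charpoly * _ at hdet
  obtain ⟨n, hn⟩ : ∃ n, Fintype.card V = n + 1 := ⟨Fintype.card V - 1, by omega⟩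
  rw [hn, Nat.add_sub_cancel, Polynomial.smul_eq_C_mul] at hdet
  have hX : (Polynomial.X : Polynomial ℝ) ^ n ≠ 0 := pow_ne_zero _ Polynomial.X_ne_zero
  apply mul_left_cancel₀ hX
  calc Polynomial.X ^ n * (Polynomial.X * (MM s t).charpoly)
      = Polynomial.X ^ (n + 1) * (MM s t).charpoly := by ring
    _ = _ := by
      rw [hdet]
      ring

theorem charpoly_eval (k r : ℕ) (s : E → V) (t : E → B) :
    (M0 k r s t).charpoly.eval ((r : ℝ) * k) = (Rs k r s t).det := by
  rw [Matrix.eval_charpoly]
  congr 1
  ext i j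
  simp only [Rs, Matrix.sub_apply, Matrix.smul_apply, Matrix.scalar_apply, Matrix.diagonal_apply,
    Matrix.one_apply, smul_eq_mul]
  split_ifs <;> simp

/-- the derivative of the characteristic polynomial at a regular point -/
theorem cf_deriv (M : Matrix V V ℝ) (y : ℝ) (R : Matrix V V ℝ) (hR : R = y • (1 : Matrix V V ℝ) - M)
    (hd : R.det ≠ 0) :
    (Polynomial.derivative M.charpoly).eval y = R.det * trace R⁻¹ := by
  classical
  have hu : IsUnit R.det := isUnit_iff_ne_zero.2 hd
  have h1 : M.charpoly.comp (Polynomial.X + Polynomial.C y) =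
      Polynomial.C R.det * (1 + (Polynomial.X : Polynomial ℝ) • (R⁻¹).map Polynomial.C).det := by
    rw [← Matrix.charpoly_sub_scalar, Matrix.charpoly]
    have h2 : (M - Matrix.scalar V y).charmatrix =
        R.map Polynomial.C * (1 + (Polynomial.X : Polynomial ℝ) • (R⁻¹).map Polynomial.C) := by
      have h3 : M - Matrix.scalar V y = -R := by
        rw [hR]
        ext i j
        simp only [Matrix.sub_apply, Matrix.neg_apply, Matrix.smul_apply, Matrix.scalar_apply,
          Matrix.diagonal_apply, Matrix.one_apply, smul_eq_mul]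
        split_ifs <;> simp
      rw [h3, mul_add, mul_one, Matrix.mul_smul, ← Matrix.map_mul, Matrix.mul_nonsing_inv _ hu]
      simp only [Matrix.charmatrix, RingHom.mapMatrix_apply]
      rw [Matrix.map_neg _ (map_neg _), sub_neg_eq_add, add_comm]
      congr 1
      rw [Matrix.map_one _ (map_zero _) (map_one _)]
      ext i j
      simp only [Matrix.smul_apply, Matrix.scalar_apply, Matrix.diagonal_apply, Matrix.one_apply,
        smul_eq_mul]
      split_ifs <;> simp
    rw [h2, Matrix.det_mul]
    congr 1
    exact (RingHom.map_det (Polynomial.C : ℝ →+* Polynomial ℝ) R).symm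
  have h4 := congrArg (fun p => (Polynomial.derivative p).eval 0) h1
  rw [Polynomial.derivative_comp, Polynomial.derivative_C_mul, Polynomial.eval_mul,
    Polynomial.eval_mul, Polynomial.eval_C, Matrix.derivative_det_one_add_X_smul,
    Polynomial.eval_comp] at h4
  simpa using h4

theorem charpoly_deriv (k r : ℕ) (hk : 1 ≤ k) (s : E → V) (t : E → B) (hs : Fib s r)
    (ht : Fib t k) :
    0 ≤ (Rs k r s t).det ∧
    0 ≤ (Polynomial.derivative (M0 k r s t).charpoly).eval ((r : ℝ) * k) ∧
    (0 < (Rs k r s t).det →
      (Polynomial.derivative (M0 k r s t).charpoly).eval ((r : ℝ) * k)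
        = (Rs k r s t).det * En k r s t) := by
  classical
  have hA : (M0 k r s t).IsHermitian := by
    rw [Matrix.IsHermitian, Matrix.conjTranspose_eq_transpose_of_trivial]
    exact M0_symm k r s t
  have hev : ∀ i, hA.eigenvalues i ≤ (r : ℝ) * k := by
    intro i
    have h1 := gap_zero k r hk s t hs ht (WithLp.ofLp (hA.eigenvectorBasis i))
    have h2 := hA.mulVec_eigenvectorBasis i
    set x : V → ℝ := WithLp.ofLp (hA.eigenvectorBasis i) with hx
    have h3 : x ⬝ᵥ x = 1 := by
      have h4 : ‖hA.eigenvectorBasis i‖ = 1 := hA.eigenvectorBasis.orthonormal.1 i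
      have h5 := EuclideanSpace.real_norm_sq_eq (hA.eigenvectorBasis i)
      rw [h4, one_pow] at h5
      rw [dotProduct]
      rw [h5]
      exact Finset.sum_congr rfl (fun j _ => (sq _).symm)
    rw [Rs, Matrix.sub_mulVec, Matrix.smul_mulVec, Matrix.one_mulVec, h2, dotProduct_sub,
      dotProduct_smul, dotProduct_smul, h3] at h1
    simp only [smul_eq_mul, mul_one] at h1
    linarith
  have hcp := hA.charpoly_eq
  refine ⟨?_, ?_, ?_⟩
  · rw [← charpoly_eval, hcp, Polynomial.eval_prod]
    apply Finset.prod_nonneg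
    intro i _
    simpa using hev i
  · rw [hcp, Polynomial.derivative_prod_finset, Polynomial.eval_finsetSum]
    apply Finset.sum_nonneg
    intro i _
    rw [Polynomial.eval_mul, Polynomial.eval_prod]
    apply mul_nonneg
    · apply Finset.prod_nonneg
      intro j _
      simpa using hev j
    · simp
  · intro hd
    rw [cf_deriv (M0 k r s t) ((r : ℝ) * k) (Rs k r s t) rfl hd.ne']
    rfl

end LCD
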