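import Mathlib
import Pool.Agent.Lib_helper55.LCD.Defs
import Pool.Agent.Lib_helper55.LCD.CC
import Pool.Agent.Lib_helper55.LCD.CD
import Pool.Agent.Lib_helper55.LCD.CE
import Pool.Agent.Lib_helper55.LCD.CF

set_option autoImplicit false
set_option linter.unusedSectionVars false

namespace LCD

open Finset Matrix

variable {E V B : Type} [Fintype E] [DecidableEq E] [Fintype V] [DecidableEq V]
  [Fintype B] [DecidableEq B]

/-- a Fib is invariant under permutations -/
theorem cg_fib (t : E → B) (k : ℕ) (ht : Fib t k) (σ : Equiv.Perm E) : Fib (t ∘ σ) k := by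
  intro i
  rw [← ht i]
  refine Finset.card_bij (fun e _ => σ e) ?_ ?_ ?_
  · intro e he
    simpa using he
  · intro e _ e' _ h
    exact σ.injective h
  · intro e he
    refine ⟨σ.symm e, ?_, by simp⟩
    simpa using he

/-- the number of plots -/
theorem cg_card (s : E → V) (r : ℕ) (hs : Fib s r) : Fintype.card E = Fintype.card V * r := by
  have h := Finset.card_eq_sum_card_fiberwise (f := s) (s := (univ : Finset E))
    (t := (univ : Finset V)) (fun _ _ => Finset.mem_univ _)
  rw [← Finset.card_univ, h, Finset.sum_congr rfl (fun i _ => hs i), Finset.sum_const,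
    Finset.card_univ, smul_eq_mul]

/-- the Appell polynomials -/
noncomputable def cg_P (c : ℝ) (g : ℕ → ℝ) (n : ℕ) : Polynomial ℝ :=
  ∑ l ∈ range (n + 1), Polynomial.C ((n.choose l : ℝ) * ((-1) ^ l * (c ^ l * g l)))
    * Polynomial.X ^ (n - l)

theorem cg_P_deriv (c : ℝ) (g : ℕ → ℝ) (n : ℕ) :
    Polynomial.derivative (cg_P c g (n + 1)) = Polynomial.C ((n : ℝ) + 1) * cg_P c g n := by
  unfold cg_P
  rw [Finset.sum_range_succ, Polynomial.derivative_add, Polynomial.derivative_sum,
    Finset.mul_sum]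
  have h0 : Polynomial.derivative (Polynomial.C (((n + 1).choose (n + 1) : ℝ) *
      ((-1) ^ (n + 1) * (c ^ (n + 1) * g (n + 1)))) * Polynomial.X ^ (n + 1 - (n + 1))) = 0 := by
    rw [Nat.sub_self, pow_zero, mul_one, Polynomial.derivative_C]
  rw [h0, add_zero]
  refine Finset.sum_congr rfl fun l hl => ?_
  have hl' : l ≤ n := by
    have := Finset.mem_range.mp hl
    omega
  have h1 : n + 1 - l = (n - l) + 1 := by omega
  rw [h1, Polynomial.derivative_C_mul_X_pow, Nat.add_sub_cancel,
    ← mul_assoc (Polynomial.C ((n : ℝ) + 1)), ← Polynomial.C_mul]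
  congr 2
  have h2 : (((n + 1).choose l : ℕ) : ℝ) * (((n - l) + 1 : ℕ) : ℝ) =
      ((n : ℝ) + 1) * (n.choose l : ℝ) := by
    have h4 := Nat.choose_mul_succ_eq n l
    rw [← h1]
    exact_mod_cast (by rw [← h4]; ring : (n + 1).choose l * (n + 1 - l) = (n + 1) * n.choose l)
  calc ((n + 1).choose l : ℝ) * ((-1) ^ l * (c ^ l * g l)) * (((n - l) + 1 : ℕ) : ℝ)
      = (((n + 1).choose l : ℝ) * (((n - l) + 1 : ℕ) : ℝ)) * ((-1) ^ l * (c ^ l * g l)) := by ring
    _ = _ := by rw [h2]; ring

theorem cg_P_eval (c : ℝ) (g : ℕ → ℝ) (n : ℕ) :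
    (cg_P c g n).eval c = c ^ n * ∑ l ∈ range (n + 1), (-1 : ℝ) ^ l * (n.choose l) * g l := by
  unfold cg_P
  rw [Polynomial.eval_finsetSum, Finset.mul_sum]
  refine Finset.sum_congr rfl fun l hl => ?_
  have hl' : l ≤ n := by
    have := Finset.mem_range.mp hl
    omega
  rw [Polynomial.eval_mul, Polynomial.eval_C, Polynomial.eval_pow, Polynomial.eval_X]
  have h1 : c ^ n = c ^ l * c ^ (n - l) := by
    rw [← pow_add]
    congr 1
    omega
  rw [h1]
  ring

/-- the average of the characteristic polynomials -/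
theorem cg_sum_charpoly (k r : ℕ) (hk : 1 ≤ k) (hr : 1 ≤ r) (s : E → V) (t : E → B)
    (hs : Fib s r) (ht : Fib t k) (hV : Fintype.card V < Fintype.card E) :
    ∑ σ : Equiv.Perm E, (MM s (t ∘ σ)).charpoly =
      cg_P ((r : ℝ) * k) (fun l => ((Fintype.card B).descFactorial l : ℝ)
        * ((Fintype.card E - l - 1).factorial)
        * (((Fintype.card E : ℝ) - l) + l * qq k r)) (Fintype.card V) := by
  have h1 : ∀ σ : Equiv.Perm E, (MM s (t ∘ σ)).charpoly = _ := fun σ =>
    charpoly_minors (MM s (t ∘ σ))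
  rw [Finset.sum_congr rfl (fun σ _ => h1 σ), Finset.sum_comm]
  obtain ⟨F, hF⟩ : ∃ F : ℕ → Polynomial ℝ, ∀ l, F l = Polynomial.C ((-1 : ℝ) ^ l *
      ((((r : ℝ) * k) ^ l) * (((Fintype.card B).descFactorial l : ℝ) *
        ((Fintype.card E - l - 1).factorial) * (((Fintype.card E : ℝ) - l) + l * qq k r)))) *
          Polynomial.X ^ (Fintype.card V - l) := ⟨_, fun _ => rfl⟩
  have h2 : ∀ A ∈ (univ : Finset V).powerset,
      ∑ σ : Equiv.Perm E, Polynomial.C ((-1 : ℝ) ^ A.card
        * ((MM s (t ∘ σ)).submatrix (fun x : A => (x : V)) (fun x : A => (x : V))).det)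
      * Polynomial.X ^ (Fintype.card V - A.card) = F A.card := by
    intro A _
    have hA : A.card < Fintype.card E := lt_of_le_of_lt (Finset.card_le_univ A) hV
    have h3 := sum_det_MM k r hk hr s t hs ht A hA
    rw [← Finset.sum_mul, ← map_sum, ← Finset.mul_sum, h3, hF]
    congr 3
    rw [mul_pow]
    ring
  have h5 : ∑ A ∈ (univ : Finset V).powerset, F A.card =
      ∑ l ∈ range ((univ : Finset V).card + 1), (univ : Finset V).card.choose l • F l :=
    Finset.sum_powerset_apply_card F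
  rw [Finset.sum_congr rfl h2, h5, Finset.card_univ]
  unfold cg_P
  refine Finset.sum_congr rfl fun l _ => ?_
  rw [hF, ← Nat.cast_smul_eq_nsmul ℝ, Polynomial.smul_eq_C_mul, ← mul_assoc, ← Polynomial.C_mul]

set_option linter.unusedVariables false in
/-- a design with the energy of the tree -/
theorem exists_good (k r : ℕ) (hk : 2 ≤ k) (hr : 3 ≤ r) (hkr : k ≤ r) (s : E → V) (t : E → B)
    (hs : Fib s r) (ht : Fib t k) (hV : 3 ≤ Fintype.card V) :
    ∃ σ : Equiv.Perm E, 0 < (Rs k r s (t ∘ σ)).det ∧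
      (qq k r - 1) * (En k r s (t ∘ σ) - 1 / ((r : ℝ) * k))
        ≤ (Fintype.card V : ℝ) * ((r : ℝ) - 1) / r + 1 := by
  classical
  have hm1 := cg_card s r hs
  have hm2 := cg_card t k ht
  obtain ⟨w, hw⟩ : ∃ w, Fintype.card V = w + 3 := ⟨Fintype.card V - 3, by omega⟩
  set v := Fintype.card V with hv
  set b := Fintype.card B with hb
  set m := Fintype.card E with hm
  have hrR : (3 : ℝ) ≤ r := by exact_mod_cast hr
  have hkR : (2 : ℝ) ≤ k := by exact_mod_cast hk
  have hvR : (3 : ℝ) ≤ v := by exact_mod_cast hV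
  have hmR1 : (m : ℝ) = v * r := by exact_mod_cast hm1
  have hmR2 : (m : ℝ) = b * k := by exact_mod_cast hm2
  have hb1 : 1 ≤ b := by
    rcases Nat.eq_zero_or_pos b with h | h
    · rw [h, zero_mul] at hm2
      rw [hm2] at hm1
      have : v * r > 0 := Nat.mul_pos (by omega) (by omega)
      omega
    · exact h
  have hbR : (1 : ℝ) ≤ b := by exact_mod_cast hb1
  have hvm : v + 1 ≤ m := by
    rw [hm1]
    nlinarith
  have hbm : b + 1 ≤ m := by
    rw [hm2]
    nlinarith
  -- `k (m - v - b) = v (q - 1)`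
  have hq : qq k r = ((r : ℝ) - 1) * ((k : ℝ) - 1) := rfl
  have hq2 : (2 : ℝ) ≤ qq k r := by
    rw [hq]
    nlinarith
  have hkmvb : (k : ℝ) * ((m : ℝ) - v - b) = v * (qq k r - 1) := by
    have : (k : ℝ) * b = v * r := by rw [← hmR1, hmR2]; ring
    rw [hq, hmR1]
    linear_combination -this
  have hmvb : (0 : ℝ) ≤ (m : ℝ) - v - b := by
    have h1 : 0 ≤ (k : ℝ) * ((m : ℝ) - v - b) := by
      rw [hkmvb]
      exact mul_nonneg (by linarith) (by linarith)
    exact nonneg_of_mul_nonneg_right h1 (by linarith)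
  have hmvbN : v + b ≤ m := by
    have : (v : ℝ) + b ≤ m := by linarith
    exact_mod_cast this
  set c : ℝ := (r : ℝ) * k with hc
  have hc0 : 0 < c := by positivity
  set g : ℕ → ℝ := fun l => (b.descFactorial l : ℝ) * ((m - l - 1).factorial)
    * (((m : ℝ) - l) + l * qq k r) with hg
  have hUU : ∀ n, ∑ l ∈ range (n + 1), (-1 : ℝ) ^ l * (n.choose l) * g l = UU k r b m n := by
    intro n
    unfold UU
    refine Finset.sum_congr rfl fun l _ => ?_
    rw [hg]
    ring
  set P : Polynomial ℝ := ∑ σ : Equiv.Perm E, (MM s (t ∘ σ)).charpoly with hP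
  set Q : Polynomial ℝ := ∑ σ : Equiv.Perm E, (M0 k r s (t ∘ σ)).charpoly with hQ
  have hPQ : Polynomial.X * P = (Polynomial.X - Polynomial.C c) * Q := by
    rw [hP, hQ, Finset.mul_sum, Finset.mul_sum]
    refine Finset.sum_congr rfl fun σ _ => ?_
    exact charpoly_defl k r s (t ∘ σ) hs (cg_fib t k ht σ) (by omega)
  have hP1 : P = cg_P c g (w + 3) := by
    rw [hP, cg_sum_charpoly k r (by omega) (by omega) s t hs ht (by omega), ← hv, hw]
  -- derivatives
  have hP0 : P.eval c = c ^ (w + 3) * UU k r b m (w + 3) := by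
    rw [hP1, cg_P_eval, hUU]
  have hP' : (Polynomial.derivative P).eval c = ((w : ℝ) + 3) * (c ^ (w + 2) * UU k r b m (w + 2)) := by
    rw [hP1, cg_P_deriv, Polynomial.eval_mul, Polynomial.eval_C, cg_P_eval, hUU]
    push_cast
    ring
  have hP'' : (Polynomial.derivative (Polynomial.derivative P)).eval c =
      ((w : ℝ) + 3) * (((w : ℝ) + 2) * (c ^ (w + 1) * UU k r b m (w + 1))) := by
    rw [hP1, cg_P_deriv, Polynomial.derivative_C_mul, cg_P_deriv, Polynomial.eval_mul,
      Polynomial.eval_C, Polynomial.eval_mul, Polynomial.eval_C, cg_P_eval, hUU]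
    push_cast
    ring
  have hvw : (v : ℝ) = w + 3 := by rw [hw]; push_cast; ring
  have hU0 : UU k r b m (w + 3) = 0 := by
    rw [UU_eq k r b m (w + 3) (by omega) (by omega) hbm]
    have : ((m : ℝ) - b) * (m - ((w + 3 : ℕ) : ℝ)) - qq k r * ((w + 3 : ℕ) : ℝ) * b = 0 := by
      have e1 : ((w + 3 : ℕ) : ℝ) = v := by rw [hw]
      rw [e1, hq]
      have e2 : (m : ℝ) - b = b * (k - 1) := by rw [hmR2]; ring
      have e3 : (m : ℝ) - v = v * (r - 1) := by rw [hmR1]; ring
      rw [e2, e3]
      ring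
    rw [this, mul_zero]
  have hfa : ((m - b - 1).descFactorial w : ℝ) * ((m - v).factorial : ℝ) * (b * (k - 1) * r) > 0 := by
    have h1 : 0 < (m - b - 1).descFactorial w := Nat.descFactorial_pos.mpr (by omega)
    have h2 : 0 < (m - v).factorial := Nat.factorial_pos _
    have h1' : (0 : ℝ) < ((m - b - 1).descFactorial w : ℝ) := by exact_mod_cast h1
    have h2' : (0 : ℝ) < ((m - v).factorial : ℝ) := by exact_mod_cast h2
    have h3 : (0 : ℝ) < b * (k - 1) * r := by
      apply mul_pos (mul_pos (by linarith) (by linarith)) (by linarith)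
    positivity
  set D : ℝ := ((m - b - 1).descFactorial w : ℝ) * ((m - v).factorial : ℝ) * (b * (k - 1) * r)
    with hD
  have hU1 : UU k r b m (w + 2) = D * ((m : ℝ) - b - v + 2) := by
    rw [UU_eq k r b m (w + 2) (by omega) (by omega) hbm]
    have e0 : w + 2 - 1 = w + 1 := by omega
    have e1 : m - (w + 2) - 1 = m - v := by omega
    have e2 : ((w + 2 : ℕ) : ℝ) = v - 1 := by rw [hvw]; push_cast; ring
    have e3 : (((m - b - 1) - w : ℕ) : ℝ) = (m : ℝ) - b - v + 2 := by
      have : (m - b - 1) - w = m + 2 - (b + v) := by omega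
      rw [this, Nat.cast_sub (by omega)]
      push_cast
      ring
    rw [e0, e1, e2, Nat.descFactorial_succ, Nat.cast_mul, e3]
    have e4 : ((m : ℝ) - b) * (m - (v - 1)) - qq k r * (v - 1) * b = b * (k - 1) * r := by
      have e5 : (m : ℝ) - b = b * (k - 1) := by rw [hmR2]; ring
      have e6 : (m : ℝ) - (v - 1) = v * (r - 1) + 1 := by rw [hmR1]; ring
      rw [e5, e6, hq]
      ring
    rw [e4, hD]
    ring
  have hU2 : UU k r b m (w + 1) = 2 * (D * ((m : ℝ) - v + 1)) := by
    rw [UU_eq k r b m (w + 1) (by omega) (by omega) hbm]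
    have e0 : w + 1 - 1 = w := by omega
    have e1 : m - (w + 1) - 1 = m - v + 1 := by omega
    have e2 : ((w + 1 : ℕ) : ℝ) = v - 2 := by rw [hvw]; push_cast; ring
    have e3 : (((m - v) + 1 : ℕ) : ℝ) = (m : ℝ) - v + 1 := by
      rw [Nat.cast_add, Nat.cast_sub (by omega)]
      push_cast
      ring
    rw [e0, e1, e2, Nat.factorial_succ, Nat.cast_mul, e3]
    have e4 : ((m : ℝ) - b) * (m - (v - 2)) - qq k r * (v - 2) * b = 2 * (b * (k - 1) * r) := by
      have e5 : (m : ℝ) - b = b * (k - 1) := by rw [hmR2]; ring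
      have e6 : (m : ℝ) - (v - 2) = v * (r - 1) + 2 := by rw [hmR1]; ring
      rw [e5, e6, hq]
      ring
    rw [e4, hD]
    ring
  -- the polynomial `Q` at `c`
  have hQ0 : Q.eval c = c * (Polynomial.derivative P).eval c := by
    have h1 := congrArg (fun p => (Polynomial.derivative p).eval c) hPQ
    simp only [Polynomial.derivative_mul, Polynomial.derivative_X, Polynomial.derivative_sub,
      Polynomial.derivative_C, Polynomial.eval_add, Polynomial.eval_mul, Polynomial.eval_sub,
      Polynomial.eval_X, Polynomial.eval_C, Polynomial.eval_one, Polynomial.eval_zero] at h1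
    rw [hP0, hU0] at h1
    linarith
  have hQ1 : 2 * (Polynomial.derivative Q).eval c = 2 * (Polynomial.derivative P).eval c +
      c * (Polynomial.derivative (Polynomial.derivative P)).eval c := by
    have h1 := congrArg (fun p => (Polynomial.derivative (Polynomial.derivative p)).eval c) hPQ
    simp only [Polynomial.derivative_mul, Polynomial.derivative_X, Polynomial.derivative_sub,
      Polynomial.derivative_C, Polynomial.derivative_add, Polynomial.derivative_one,
      Polynomial.derivative_zero, Polynomial.eval_add, Polynomial.eval_mul, Polynomial.eval_sub,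
      Polynomial.eval_X, Polynomial.eval_C, Polynomial.eval_one, Polynomial.eval_zero] at h1
    linarith
  have hQpos : 0 < Q.eval c := by
    rw [hQ0, hP', hU1]
    have h2 : 0 < (m : ℝ) - b - v + 2 := by linarith
    positivity
  set K : ℝ := (v : ℝ) * ((r : ℝ) - 1) / r + 1 with hK
  have hmain : (qq k r - 1) * ((Polynomial.derivative Q).eval c - Q.eval c / c) ≤
      K * Q.eval c := by
    have h1 : (Polynomial.derivative Q).eval c - Q.eval c / c =
        ((w : ℝ) + 3) * c ^ (w + 2) * D * (((v : ℝ) - 1) * ((m : ℝ) - v + 1)) := by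
      have h2 : Q.eval c / c = (Polynomial.derivative P).eval c := by
        rw [hQ0]
        field_simp
      rw [h2]
      have h3 : (Polynomial.derivative Q).eval c - (Polynomial.derivative P).eval c =
          c * (Polynomial.derivative (Polynomial.derivative P)).eval c / 2 := by linarith
      rw [h3, hP'', hU2, hvw]
      ring
    have h2 : Q.eval c = ((w : ℝ) + 3) * c ^ (w + 2) * D * (c * ((m : ℝ) - b - v + 2)) := by
      rw [hQ0, hP', hU1]
      ring
    rw [h1, h2]
    have h3 : 0 ≤ ((w : ℝ) + 3) * c ^ (w + 2) * D := by positivity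
    have h4 : (qq k r - 1) * (((v : ℝ) - 1) * ((m : ℝ) - v + 1)) ≤
        K * (c * ((m : ℝ) - b - v + 2)) := by
      have h5 : K * c = k * ((v : ℝ) * (r - 1) + r) := by
        rw [hK, hc]
        field_simp
      have h6 : K * (c * ((m : ℝ) - b - v + 2)) =
          ((v : ℝ) * (r - 1) + r) * (k * ((m : ℝ) - v - b) + 2 * k) := by
        rw [← mul_assoc, h5]
        ring
      rw [h6, hkmvb]
      have h7 : (m : ℝ) - v + 1 = v * (r - 1) + 1 := by rw [hmR1]; ring
      rw [h7]
      have h8 : (v : ℝ) * (r - 1) + 1 ≤ v * (r - 1) + r := by linarith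
      have h9 : (qq k r - 1) * ((v : ℝ) - 1) ≤ v * (qq k r - 1) + 2 * k := by nlinarith
      have h10 : 0 ≤ (qq k r - 1) * ((v : ℝ) - 1) := mul_nonneg (by linarith) (by linarith)
      have h11 : 0 ≤ (v : ℝ) * (r - 1) + 1 := by
        have : 0 ≤ (v : ℝ) * (r - 1) := mul_nonneg (by linarith) (by linarith)
        linarith
      calc (qq k r - 1) * (((v : ℝ) - 1) * ((v : ℝ) * (r - 1) + 1))
          = ((v : ℝ) * (r - 1) + 1) * ((qq k r - 1) * ((v : ℝ) - 1)) := by ring
        _ ≤ ((v : ℝ) * (r - 1) + r) * (v * (qq k r - 1) + 2 * k) :=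
            mul_le_mul h8 h9 h10 (by linarith)
    calc (qq k r - 1) * (((w : ℝ) + 3) * c ^ (w + 2) * D * (((v : ℝ) - 1) * ((m : ℝ) - v + 1)))
        = ((w : ℝ) + 3) * c ^ (w + 2) * D *
          ((qq k r - 1) * (((v : ℝ) - 1) * ((m : ℝ) - v + 1))) := by ring
      _ ≤ ((w : ℝ) + 3) * c ^ (w + 2) * D * (K * (c * ((m : ℝ) - b - v + 2))) :=
          mul_le_mul_of_nonneg_left h4 h3
      _ = _ := by ring
  -- the average
  by_contra hcon
  push Not at hcon
  have hQe : Q.eval c = ∑ σ : Equiv.Perm E, (Rs k r s (t ∘ σ)).det := by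
    rw [hQ, Polynomial.eval_finsetSum]
    exact Finset.sum_congr rfl fun σ _ => charpoly_eval k r s (t ∘ σ)
  have hQd : (Polynomial.derivative Q).eval c = ∑ σ : Equiv.Perm E,
      (Polynomial.derivative (M0 k r s (t ∘ σ)).charpoly).eval c := by
    rw [hQ, Polynomial.derivative_sum, Polynomial.eval_finsetSum]
  have hdata := fun σ : Equiv.Perm E =>
    charpoly_deriv k r (by omega) s (t ∘ σ) hs (cg_fib t k ht σ)
  have hle : ∀ σ : Equiv.Perm E, K * (Rs k r s (t ∘ σ)).det ≤
      (qq k r - 1) * ((Polynomial.derivative (M0 k r s (t ∘ σ)).charpoly).eval c -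
        (Rs k r s (t ∘ σ)).det / c) ∧ (0 < (Rs k r s (t ∘ σ)).det →
      K * (Rs k r s (t ∘ σ)).det <
      (qq k r - 1) * ((Polynomial.derivative (M0 k r s (t ∘ σ)).charpoly).eval c -
        (Rs k r s (t ∘ σ)).det / c)) := by
    intro σ
    obtain ⟨h1, h2, h3⟩ := hdata σ
    have h4 : 0 < (Rs k r s (t ∘ σ)).det →
      K * (Rs k r s (t ∘ σ)).det <
      (qq k r - 1) * ((Polynomial.derivative (M0 k r s (t ∘ σ)).charpoly).eval c -
        (Rs k r s (t ∘ σ)).det / c) := by
      intro h5
      have h6 := hcon σ h5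
      have h7 := h3 h5
      have h8 : (Polynomial.derivative (M0 k r s (t ∘ σ)).charpoly).eval c =
          (Rs k r s (t ∘ σ)).det * En k r s (t ∘ σ) := h7
      rw [h8]
      have h9 : (qq k r - 1) * ((Rs k r s (t ∘ σ)).det * En k r s (t ∘ σ) -
          (Rs k r s (t ∘ σ)).det / c) =
          ((qq k r - 1) * (En k r s (t ∘ σ) - 1 / c)) * (Rs k r s (t ∘ σ)).det := by
        ring
      rw [h9]
      exact mul_lt_mul_of_pos_right h6 h5
    refine ⟨?_, h4⟩
    rcases h1.lt_or_eq with h5 | h5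
    · exact (h4 h5).le
    · rw [← h5, mul_zero, zero_div, sub_zero]
      exact mul_nonneg (by linarith) h2
  obtain ⟨σ, _, hσ⟩ : ∃ σ ∈ (univ : Finset (Equiv.Perm E)), 0 < (Rs k r s (t ∘ σ)).det := by
    by_contra h
    push Not at h
    have : Q.eval c ≤ 0 := by
      rw [hQe]
      exact Finset.sum_nonpos h
    linarith
  have hlt : ∑ σ : Equiv.Perm E, K * (Rs k r s (t ∘ σ)).det <
      ∑ σ : Equiv.Perm E, (qq k r - 1) *
        ((Polynomial.derivative (M0 k r s (t ∘ σ)).charpoly).eval c -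
        (Rs k r s (t ∘ σ)).det / c) :=
    Finset.sum_lt_sum (fun σ _ => (hle σ).1) ⟨σ, Finset.mem_univ _, (hle σ).2 hσ⟩
  rw [← Finset.mul_sum, ← Finset.mul_sum, Finset.sum_sub_distrib, ← Finset.sum_div, ← hQe,
    ← hQd] at hlt
  exact absurd hmain (not_le.mpr hlt)

end LCD
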