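import Mathlib
import Pool.Agent.Lib_helper55.LCD.Defs

set_option autoImplicit false

namespace LCD

open Finset Matrix

variable {E V B : Type} [Fintype E] [DecidableEq E] [Fintype V] [DecidableEq V]
  [Fintype B] [DecidableEq B]

theorem RA_eval_zero (k r : ℕ) (μ : ℝ) : (Pj k r 0).eval μ = 2 := by
  simp [Pj]

theorem RA_eval_one (k r : ℕ) (μ : ℝ) : (Pj k r 1).eval μ = μ - ((r : ℝ) + k - 2) := by
  simp [Pj]

theorem RA_eval_succ (k r j : ℕ) (μ : ℝ) : (Pj k r (j + 2)).eval μ =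
    (μ - ((r : ℝ) + k - 2)) * (Pj k r (j + 1)).eval μ - qq k r * (Pj k r j).eval μ := by
  rw [Pj]
  simp

/-- closed form by sum and product -/
theorem RA_closed (k r : ℕ) (μ : ℝ) (z w : ℝ) (hs : z + w = μ - ((r : ℝ) + k - 2))
    (hp : z * w = qq k r) (j : ℕ) :
    (Pj k r j).eval μ = z ^ j + w ^ j ∧ (Pj k r (j + 1)).eval μ = z ^ (j + 1) + w ^ (j + 1) := by
  induction j with
  | zero =>
    refine ⟨?_, ?_⟩
    · rw [RA_eval_zero]; norm_num
    · rw [zero_add, RA_eval_one, ← hs]; ring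
  | succ j ih =>
    refine ⟨ih.2, ?_⟩
    rw [show j + 1 + 1 = j + 2 by ring, RA_eval_succ, ih.1, ih.2, ← hs, ← hp]
    ring

theorem Pj_at_top (k r j : ℕ) : (Pj k r j).eval ((r : ℝ) * k) = qq k r ^ j + 1 := by
  have h := (RA_closed k r ((r : ℝ) * k) (qq k r) 1 (by unfold qq; ring) (by ring) j).1
  rw [h, one_pow]

theorem Pj_at_zero (k r j : ℕ) :
    (Pj k r j).eval 0 = (-((r : ℝ) - 1)) ^ j + (-((k : ℝ) - 1)) ^ j :=
  (RA_closed k r 0 (-((r : ℝ) - 1)) (-((k : ℝ) - 1)) (by ring) (by unfold qq; ring) j).1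

theorem RA_quot (k r : ℕ) (μ : ℝ) (hq : qq k r ≠ 0) (x y : ℂ)
    (hs : x + y = (((μ - ((r : ℝ) + k - 2)) / qq k r : ℝ) : ℂ))
    (hp : x * y = ((1 / qq k r : ℝ) : ℂ)) (j : ℕ) :
    (((Pj k r j).eval μ / qq k r ^ j : ℝ) : ℂ) = x ^ j + y ^ j ∧
    (((Pj k r (j + 1)).eval μ / qq k r ^ (j + 1) : ℝ) : ℂ) = x ^ (j + 1) + y ^ (j + 1) := by
  induction j with
  | zero =>
    refine ⟨?_, ?_⟩
    · rw [RA_eval_zero]; norm_num
    · rw [zero_add, RA_eval_one, pow_one, pow_one, pow_one, ← hs]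
  | succ j ih =>
    refine ⟨ih.2, ?_⟩
    have e : (Pj k r (j + 2)).eval μ / qq k r ^ (j + 2) =
        ((μ - ((r : ℝ) + k - 2)) / qq k r) * ((Pj k r (j + 1)).eval μ / qq k r ^ (j + 1)) -
          (1 / qq k r) * ((Pj k r j).eval μ / qq k r ^ j) := by
      rw [RA_eval_succ]
      field_simp
      ring
    rw [show j + 1 + 1 = j + 2 by ring, e, Complex.ofReal_sub, Complex.ofReal_mul,
      Complex.ofReal_mul, ih.1, ih.2, ← hs, ← hp]
    ring

/-- the two numbers `x = z / q`, `y = z' / q` -/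
theorem roots (k r : ℕ) (hk : 2 ≤ k) (hr : 3 ≤ r) (hkr : k ≤ r) (μ : ℝ) (h0 : 0 ≤ μ)
    (h1 : μ < (r : ℝ) * k) :
    ∃ x y : ℂ, x * y = ((1 / qq k r : ℝ) : ℂ) ∧
      (1 - x) * (1 - y) = ((((r : ℝ) * k - μ) / qq k r : ℝ) : ℂ) ∧
      (∀ j : ℕ, (((Pj k r j).eval μ / qq k r ^ j : ℝ) : ℂ) = x ^ j + y ^ j) ∧
      ((y = (starRingEnd ℂ) x ∧ ‖x‖ ^ 2 = 1 / qq k r) ∨
        (∃ a c : ℝ, x = (a : ℂ) ∧ y = (c : ℂ) ∧ 0 < c ∧ c ≤ a ∧ a < 1 ∧ c ^ 2 ≤ 1 / qq k r) ∨
        (∃ a c : ℝ, x = (a : ℂ) ∧ y = (c : ℂ) ∧ -1 ≤ a ∧ a ≤ c ∧ c < 0)) := by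
  have hk' : (2 : ℝ) ≤ k := by exact_mod_cast hk
  have hr' : (3 : ℝ) ≤ r := by exact_mod_cast hr
  have hqdef : qq k r = ((r : ℝ) - 1) * ((k : ℝ) - 1) := rfl
  have hq2 : 2 ≤ qq k r := by rw [hqdef]; nlinarith
  set q := qq k r with hqs
  have hq0 : 0 < q := by linarith
  set τ := μ - ((r : ℝ) + k - 2) with hτ
  have key : q + 1 - τ = (r : ℝ) * k - μ := by rw [hqdef, hτ]; ring
  have key2 : q + 1 + τ = ((r : ℝ) - 2) * ((k : ℝ) - 2) + μ := by rw [hqdef, hτ]; ring
  -- it is enough to give `x` and `y` with the right sum and product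
  have main : ∀ x y : ℂ, x + y = ((τ / q : ℝ) : ℂ) → x * y = ((1 / q : ℝ) : ℂ) →
      x * y = ((1 / q : ℝ) : ℂ) ∧ (1 - x) * (1 - y) = ((((r : ℝ) * k - μ) / q : ℝ) : ℂ) ∧
      (∀ j : ℕ, (((Pj k r j).eval μ / q ^ j : ℝ) : ℂ) = x ^ j + y ^ j) := by
    intro x y hs hp
    refine ⟨hp, ?_, fun j => (RA_quot k r μ hq0.ne' x y hs hp j).1⟩
    have e : (1 - x) * (1 - y) = 1 - (x + y) + x * y := by ring
    rw [e, hs, hp, ← key]
    have e2 : (q + 1 - τ) / q = 1 - τ / q + 1 / q := by field_simp; ring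
    rw [e2]
    push_cast
    ring
  rcases lt_or_ge (τ ^ 2 - 4 * q) 0 with hD | hD
  · -- complex roots
    set s := Real.sqrt (4 * q - τ ^ 2) with hs
    have hs2 : s ^ 2 = 4 * q - τ ^ 2 := Real.sq_sqrt (by linarith)
    set x : ℂ := ⟨τ / (2 * q), s / (2 * q)⟩ with hx
    have hsum : x + (starRingEnd ℂ) x = ((τ / q : ℝ) : ℂ) := by
      apply Complex.ext
      · simp only [Complex.add_re, Complex.conj_re, Complex.ofReal_re, hx]
        field_simp
        ring
      · simp only [Complex.add_im, Complex.conj_im, Complex.ofReal_im]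
        ring
    have hns : Complex.normSq x = 1 / q := by
      rw [Complex.normSq_apply, hx]
      show τ / (2 * q) * (τ / (2 * q)) + s / (2 * q) * (s / (2 * q)) = 1 / q
      have e : τ / (2 * q) * (τ / (2 * q)) + s / (2 * q) * (s / (2 * q)) =
          (τ ^ 2 + s ^ 2) / (4 * q ^ 2) := by
        field_simp
        ring
      rw [e, hs2]
      field_simp
      ring
    have hprod : x * (starRingEnd ℂ) x = ((1 / q : ℝ) : ℂ) := by
      rw [Complex.mul_conj, hns]
    obtain ⟨m1, m2, m3⟩ := main x ((starRingEnd ℂ) x) hsum hprod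
    refine ⟨x, (starRingEnd ℂ) x, m1, m2, m3, Or.inl ⟨rfl, ?_⟩⟩
    rw [← Complex.normSq_eq_norm_sq, hns]
  · -- real roots
    set s := Real.sqrt (τ ^ 2 - 4 * q) with hs
    have hs2 : s ^ 2 = τ ^ 2 - 4 * q := Real.sq_sqrt hD
    have hs0 : 0 ≤ s := Real.sqrt_nonneg _
    -- `A` the larger one, `C` the smaller one
    set A := (τ + s) / (2 * q) with hA
    set C := (τ - s) / (2 * q) with hC
    have hsum : A + C = τ / q := by rw [hA, hC]; field_simp; ring
    have hprod : A * C = 1 / q := by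
      have e : A * C = (τ ^ 2 - s ^ 2) / (4 * q ^ 2) := by
        rw [hA, hC]
        field_simp
        ring
      rw [e, hs2]
      field_simp
      ring
    have hCA : C ≤ A := by
      rw [hA, hC]
      apply div_le_div_of_nonneg_right _ (by linarith)
      linarith
    have h1q : 1 / q < 1 := by
      rw [div_lt_one hq0]
      linarith
    have h1q0 : 0 < 1 / q := by positivity
    rcases lt_or_ge 0 τ with hτ0 | hτ0
    · have hsum' : (A : ℂ) + (C : ℂ) = ((τ / q : ℝ) : ℂ) := by rw [← hsum]; push_cast; ring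
      have hprod' : (A : ℂ) * (C : ℂ) = ((1 / q : ℝ) : ℂ) := by rw [← hprod]; push_cast; ring
      obtain ⟨m1, m2, m3⟩ := main A C hsum' hprod'
      have hA0 : 0 < A := by rw [hA]; positivity
      have hC0 : 0 < C := by
        by_contra h
        have : A * C ≤ 0 := mul_nonpos_of_nonneg_of_nonpos hA0.le (not_lt.1 h)
        linarith
      have hpos : 0 < (1 - A) * (1 - C) := by
        have e : (1 - A) * (1 - C) = 1 - (A + C) + A * C := by ring
        rw [e, hsum, hprod]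
        have e2 : 1 - τ / q + 1 / q = (q + 1 - τ) / q := by field_simp; ring
        rw [e2, key]
        exact div_pos (by linarith) hq0
      have hA1 : A < 1 := by
        by_contra h
        have h' : 1 ≤ A := not_lt.1 h
        have h2 : 1 < C := by
          by_contra h3
          have h3' : C ≤ 1 := not_lt.1 h3
          have : (1 - A) * (1 - C) ≤ 0 :=
            mul_nonpos_of_nonpos_of_nonneg (by linarith) (by linarith)
          linarith
        nlinarith
      refine ⟨A, C, m1, m2, m3, Or.inr (Or.inl ⟨A, C, rfl, rfl, hC0, hCA, hA1, ?_⟩)⟩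
      have : C ^ 2 ≤ A * C := by nlinarith
      linarith
    · have hsum' : (C : ℂ) + (A : ℂ) = ((τ / q : ℝ) : ℂ) := by rw [← hsum]; push_cast; ring
      have hprod' : (C : ℂ) * (A : ℂ) = ((1 / q : ℝ) : ℂ) := by rw [← hprod]; push_cast; ring
      obtain ⟨m1, m2, m3⟩ := main C A hsum' hprod'
      have hC0 : C < 0 := by
        by_contra h
        have h' : 0 ≤ C := not_lt.1 h
        have hA' : 0 ≤ A := h'.trans hCA
        have h2 : τ / q ≤ 0 := div_nonpos_of_nonpos_of_nonneg hτ0 hq0.le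
        have h3 : C = 0 := by linarith
        rw [h3, mul_zero] at hprod
        linarith
      have hA0 : A < 0 := by
        by_contra h
        have h' : 0 ≤ A := not_lt.1 h
        have : A * C ≤ 0 := mul_nonpos_of_nonneg_of_nonpos h' hC0.le
        linarith
      have hA1 : -1 < A := by
        by_contra h
        have h' : A ≤ -1 := not_lt.1 h
        have h2 : C ≤ -1 := hCA.trans h'
        nlinarith
      have hpos : 0 ≤ (1 + C) * (1 + A) := by
        have e : (1 + C) * (1 + A) = 1 + (A + C) + A * C := by ring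
        rw [e, hsum, hprod]
        have e2 : 1 + τ / q + 1 / q = (q + 1 + τ) / q := by field_simp; ring
        rw [e2, key2]
        apply div_nonneg _ hq0.le
        have : 0 ≤ ((r : ℝ) - 2) * ((k : ℝ) - 2) := mul_nonneg (by linarith) (by linarith)
        linarith
      have hC1 : -1 ≤ C := by
        by_contra h
        have h' : C < -1 := not_le.1 h
        have : (1 + C) * (1 + A) < 0 := mul_neg_of_neg_of_pos (by linarith) (by linarith)
        linarith
      exact ⟨C, A, m1, m2, m3, Or.inr (Or.inr ⟨C, A, rfl, rfl, hC1, hCA, hA0⟩)⟩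

end LCD
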