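import Mathlib
import Pool.Agent.Lib_helper55.LCD.Defs
import Pool.Agent.Lib_helper55.LCD.RA

set_option autoImplicit false

namespace LCD

open Finset Matrix

variable {E V B : Type} [Fintype E] [DecidableEq E] [Fintype V] [DecidableEq V]
  [Fintype B] [DecidableEq B]

theorem ke_geo (x : ℝ) (n : ℕ) : (1 - x) * ∑ j ∈ Icc 1 n, x ^ j = x * (1 - x ^ n) := by
  induction n with
  | zero => simp
  | succ n ih =>
    rw [sum_Icc_succ_top (by omega), mul_add, ih]
    ring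

/-- the alternating geometric sum -/
theorem ke_alt {y : ℝ} (hy : 1 ≤ y) {n : ℕ} (hn : Odd n) :
    ∑ j ∈ Icc 1 n, (-(1 / y)) ^ j ≤ -(1 / (y + 1)) ∧
      -(2 / (y + 1)) ≤ ∑ j ∈ Icc 1 n, (-(1 / y)) ^ j := by
  have h := ke_geo (-(1 / y)) n
  set S := ∑ j ∈ Icc 1 n, (-(1 / y)) ^ j with hS
  have hy0 : 0 < y := by linarith
  rw [hn.neg_pow] at h
  have h1 : 0 ≤ (1 / y) ^ n := by positivity
  have h2 : (1 / y) ^ n ≤ 1 := by
    apply pow_le_one₀ (by positivity)
    rw [div_le_one hy0]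
    exact hy
  have h3 : (y + 1) * S = -(1 + (1 / y) ^ n) := by
    have h4 : y * ((1 - -(1 / y)) * S) = y * (-(1 / y) * (1 - -(1 / y) ^ n)) := by rw [h]
    have h5 : y * (1 / y) = 1 := by field_simp
    have h6 : y * ((1 - -(1 / y)) * S) = (y + y * (1 / y)) * S := by ring
    have h7 : y * (-(1 / y) * (1 - -(1 / y) ^ n)) = -(y * (1 / y)) * (1 + (1 / y) ^ n) := by ring
    rw [h6, h7, h5] at h4
    linarith
  have h4 : S = -(1 + (1 / y) ^ n) / (y + 1) := by
    rw [eq_div_iff (by positivity)]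
    linarith
  constructor
  · rw [h4, neg_div, neg_le_neg_iff]
    exact div_le_div_of_nonneg_right (by linarith) (by linarith)
  · rw [h4, neg_div, neg_le_neg_iff]
    exact div_le_div_of_nonneg_right (by linarith) (by linarith)

theorem ke_pos {q : ℝ} (hq : 1 < q) (n : ℕ) : ∑ j ∈ Icc 1 n, (1 / q) ^ j ≤ 1 / (q - 1) ∧
    0 ≤ ∑ j ∈ Icc 1 n, (1 / q) ^ j := by
  have h := ke_geo (1 / q) n
  have h0 : 0 ≤ ∑ j ∈ Icc 1 n, (1 / q) ^ j := sum_nonneg fun j _ => by positivity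
  set S := ∑ j ∈ Icc 1 n, (1 / q) ^ j with hS
  refine ⟨?_, h0⟩
  have h1 : 0 ≤ (1 / q) ^ n := by positivity
  rw [le_div_iff₀ (by linarith)]
  have h5 : q * (1 / q) = 1 := by field_simp
  have h4 : q * ((1 - (1 / q)) * S) = q * ((1 / q) * (1 - (1 / q) ^ n)) := by rw [h]
  have h6 : q * ((1 - (1 / q)) * S) = (q - q * (1 / q)) * S := by ring
  have h7 : q * ((1 / q) * (1 - (1 / q) ^ n)) = (q * (1 / q)) * (1 - (1 / q) ^ n) := by ring
  rw [h6, h7, h5] at h4
  linarith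

theorem ke_real {k r v b m q K n S1 S2 S3 : ℝ} (hk : 2 ≤ k) (hr : 3 ≤ r) (hkr : k ≤ r)
    (hv : 1 ≤ v) (hm : v * r = m) (hm' : b * k = m) (hq : q = (r - 1) * (k - 1))
    (h1 : S1 ≤ -(1 / r)) (h1' : -(2 / r) ≤ S1) (h2 : S2 ≤ 1 / (q - 1)) (h2' : 0 ≤ S2)
    (h3' : -(2 / k) ≤ S3)
    (hK : K = v - (b - v) * S1 - (m - v - b) * S2 - n - S2 + S3 + S1) :
    v * (r - 1) / r + 1 + (q - 1) / (r * k) - K ≤ n + 6 := by
  have hr0 : 0 < r := by linarith
  have hk0 : 0 < k := by linarith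
  have hq1 : 2 ≤ q := by
    rw [hq]
    nlinarith
  have hbv : v ≤ b := by
    by_contra hc
    rw [not_le] at hc
    nlinarith
  have hmvb : m - v - b = b * (q - 1) / r := by
    rw [eq_div_iff hr0.ne', hq, ← hm']
    have : v * r = b * k := by rw [hm, hm']
    linear_combination -this
  have e1 : (b - v) * S1 ≤ -((b - v) / r) := by
    have := mul_le_mul_of_nonneg_left h1 (sub_nonneg.2 hbv)
    refine this.trans (le_of_eq ?_)
    ring
  have e2 : (m - v - b) * S2 ≤ b / r := by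
    rw [hmvb]
    have h5 : 0 ≤ b * (q - 1) / r := by
      apply div_nonneg _ hr0.le
      apply mul_nonneg <;> linarith
    refine (mul_le_mul_of_nonneg_left h2 h5).trans (le_of_eq ?_)
    have : q - 1 ≠ 0 := by linarith
    field_simp
  have e3 : v * (r - 1) / r = v - v / r := by
    field_simp
  have e4 : (b - v) / r = b / r - v / r := by ring
  have e5 : (q - 1) / (r * k) ≤ 1 := by
    rw [div_le_one (by positivity), hq]
    nlinarith
  have e6 : S2 ≤ 1 := by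
    refine h2.trans ?_
    rw [div_le_one (by linarith)]
    linarith
  have e7 : 2 / r ≤ 1 := by
    rw [div_le_one hr0]
    linarith
  have e8 : 2 / k ≤ 1 := by
    rw [div_le_one hk0]
    linarith
  rw [hK, e3]
  linarith

theorem Kc_one (k r v b m n : ℕ) (hk : 2 ≤ k) (hr : 3 ≤ r) (hkr : k ≤ r) (hv : 1 ≤ v)
    (hm : v * r = m) (hm' : b * k = m) (hn : Odd n) :
    (v : ℝ) * ((r : ℝ) - 1) / r + 1 + (qq k r - 1) / ((r : ℝ) * k)
      - Kc k r v b m (fun _ => 1) n ≤ n + 6 := by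
  have hk' : (2 : ℝ) ≤ k := by exact_mod_cast hk
  have hr' : (3 : ℝ) ≤ r := by exact_mod_cast hr
  have hkr' : (k : ℝ) ≤ r := by exact_mod_cast hkr
  have hv' : (1 : ℝ) ≤ v := by exact_mod_cast hv
  have hmr : (v : ℝ) * r = m := by exact_mod_cast hm
  have hmr' : (b : ℝ) * k = m := by exact_mod_cast hm'
  have hR : (0 : ℝ) < (r : ℝ) - 1 := by linarith
  have hK : (0 : ℝ) < (k : ℝ) - 1 := by linarith
  have hq1 : 1 < qq k r := by
    unfold qq
    nlinarith
  have hq0 : 0 < qq k r := by linarith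
  obtain ⟨a1, a2⟩ := ke_alt (y := (r : ℝ) - 1) (by linarith) hn
  obtain ⟨a3, a4⟩ := ke_alt (y := (k : ℝ) - 1) (by linarith) hn
  obtain ⟨a5, a6⟩ := ke_pos hq1 n
  rw [sub_add_cancel] at a1 a2 a3 a4
  refine ke_real hk' hr' hkr' hv' hmr hmr' (q := qq k r) rfl a1 a2 a5 a6 a4 ?_
  unfold Kc
  have hterm : ∀ j ∈ Icc 1 n, (fun _ : ℕ => (1 : ℝ)) j * ((((b : ℝ) - v) * (-((k : ℝ) - 1)) ^ j +
      ((m : ℝ) - v - b) + (Pj k r j).eval ((r : ℝ) * k) - (Pj k r j).eval 0) / qq k r ^ j) =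
      (b - v) * (-(1 / ((r : ℝ) - 1))) ^ j + (m - v - b) * (1 / qq k r) ^ j + 1 +
        (1 / qq k r) ^ j - (-(1 / ((k : ℝ) - 1))) ^ j - (-(1 / ((r : ℝ) - 1))) ^ j := by
    intro j _
    rw [Pj_at_top, Pj_at_zero]
    have e1 : (-((k : ℝ) - 1)) ^ j / qq k r ^ j = (-(1 / ((r : ℝ) - 1))) ^ j := by
      rw [← div_pow]
      congr 1
      unfold qq
      field_simp
    have e2 : (-((r : ℝ) - 1)) ^ j / qq k r ^ j = (-(1 / ((k : ℝ) - 1))) ^ j := by
      rw [← div_pow]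
      congr 1
      unfold qq
      field_simp
    have e3 : 1 / qq k r ^ j = (1 / qq k r) ^ j := by
      rw [div_pow, one_pow]
    have e4 : qq k r ^ j / qq k r ^ j = 1 := div_self (by positivity)
    rw [← e1, ← e2, ← e3]
    have e5 : ∀ a c d e f g h : ℝ, 1 * ((a * c + d + (e + 1) - (f + c)) / g) =
        a * (c / g) + d * (1 / g) + e / g + 1 / g - f / g - c / g := by
      intro a c d e f g h
      ring
    rw [e5 _ _ _ _ _ _ 0, e4]
  rw [sum_congr rfl hterm]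
  simp only [sum_add_distrib, sum_sub_distrib, ← mul_sum, sum_const, Nat.card_Icc,
    Nat.add_sub_cancel, nsmul_eq_mul, mul_one]
  ring

end LCD
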