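import Mathlib
import Pool.Agent.Lib_helper55.LCD.Defs

set_option autoImplicit false

namespace LCD

open Finset Matrix

variable {E V B : Type} [Fintype E] [DecidableEq E] [Fintype V] [DecidableEq V]
  [Fintype B] [DecidableEq B]

theorem ta_pow {ι κ : Type} [Fintype ι] [DecidableEq ι] [Fintype κ] [DecidableEq κ]
    (W : Matrix ι κ ℝ) (Z : Matrix κ ι ℝ) (m : ℕ) :
    (W * Z) ^ (m + 1) = W * (Z * W) ^ m * Z := by
  induction m with
  | zero => rw [zero_add, pow_one, pow_zero, Matrix.mul_one]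
  | succ m ih =>
    rw [pow_succ, ih, pow_succ (Z * W) m]
    simp only [Matrix.mul_assoc]

theorem ta_tr {ι κ : Type} [Fintype ι] [DecidableEq ι] [Fintype κ] [DecidableEq κ]
    (W : Matrix ι κ ℝ) (Z : Matrix κ ι ℝ) (m : ℕ) :
    trace ((W * Z) ^ (m + 1)) = trace ((Z * W) ^ (m + 1)) := by
  rw [ta_pow, Matrix.trace_mul_comm, ← Matrix.mul_assoc, ← pow_succ']

theorem ta_bin {ι κ : Type} [Fintype ι] [DecidableEq ι] [Fintype κ] [DecidableEq κ]
    (W : Matrix ι κ ℝ) (Z : Matrix κ ι ℝ) (c : ℝ) (j : ℕ) :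
    trace ((c • (1 : Matrix ι ι ℝ) + W * Z) ^ j) = c ^ j * Fintype.card ι +
      ∑ m ∈ range j, c ^ (j - (m + 1)) * (j.choose (m + 1)) * trace ((W * Z) ^ (m + 1)) := by
  have hc : Commute (W * Z) (c • (1 : Matrix ι ι ℝ)) := by
    unfold Commute SemiconjBy
    rw [Matrix.mul_smul, Matrix.smul_mul, Matrix.mul_one, Matrix.one_mul]
  rw [add_comm, hc.add_pow, Matrix.trace_sum, sum_range_succ']
  have h1 : ∀ m : ℕ, trace ((W * Z) ^ m * (c • (1 : Matrix ι ι ℝ)) ^ (j - m) *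
      ((j.choose m : ℕ) : Matrix ι ι ℝ)) =
      c ^ (j - m) * (j.choose m) * trace ((W * Z) ^ m) := by
    intro m
    rw [← nsmul_eq_mul', smul_pow, one_pow, Matrix.mul_smul, Matrix.mul_one,
      ← Nat.cast_smul_eq_nsmul ℝ, Matrix.trace_smul, Matrix.trace_smul, smul_eq_mul,
      smul_eq_mul]
    ring
  rw [h1 0, pow_zero, Matrix.trace_one, Nat.sub_zero, Nat.choose_zero_right, Nat.cast_one,
    mul_one, add_comm]
  congr 1
  exact sum_congr rfl fun m _ => h1 (m + 1)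

theorem trace_pow_comm {ι κ : Type} [Fintype ι] [DecidableEq ι] [Fintype κ] [DecidableEq κ]
    (W : Matrix ι κ ℝ) (Z : Matrix κ ι ℝ) (c : ℝ) (j : ℕ) :
    trace ((c • (1 : Matrix ι ι ℝ) + W * Z) ^ j) - c ^ j * Fintype.card ι
      = trace ((c • (1 : Matrix κ κ ℝ) + Z * W) ^ j) - c ^ j * Fintype.card κ := by
  rw [ta_bin, ta_bin, add_sub_cancel_left, add_sub_cancel_left]
  exact sum_congr rfl fun m _ => by rw [ta_tr]

end LCD
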