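import Mathlib
import Pool.Agent.Lib_helper55.LCD.Defs

set_option autoImplicit false

namespace LCD

open Finset Matrix

variable {E V B : Type} [Fintype E] [DecidableEq E] [Fintype V] [DecidableEq V]
  [Fintype B] [DecidableEq B]

theorem tb_one (T : Matrix V V ℝ) (Y : Matrix (V ⊕ V) (V ⊕ V) ℝ) :
    toBlocks₁₁ (fromBlocks T 0 0 T * Y) = T * toBlocks₁₁ Y := by
  conv_lhs => rw [← fromBlocks_toBlocks Y, fromBlocks_multiply, toBlocks_fromBlocks₁₁]
  rw [Matrix.zero_mul, add_zero]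

theorem tb_two (T : Matrix V V ℝ) (Y : Matrix (V ⊕ V) (V ⊕ V) ℝ) :
    toBlocks₂₂ (fromBlocks T 0 0 T * Y) = T * toBlocks₂₂ Y := by
  conv_lhs => rw [← fromBlocks_toBlocks Y, fromBlocks_multiply, toBlocks_fromBlocks₂₂]
  rw [Matrix.zero_mul, zero_add]

theorem tb_trace (Y : Matrix (V ⊕ V) (V ⊕ V) ℝ) :
    trace Y = trace (toBlocks₁₁ Y + toBlocks₂₂ Y) := by
  rw [Matrix.trace_add]
  unfold trace
  rw [Fintype.sum_sum_type]
  rfl

theorem tb_sub (A B C D A' B' C' D' : Matrix V V ℝ) :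
    fromBlocks A B C D - fromBlocks A' B' C' D' =
      fromBlocks (A - A') (B - B') (C - C') (D - D') := by
  ext (i | i) (j | j) <;> rfl

/-- the block matrix -/
noncomputable def tb_X (k r : ℕ) (M : Matrix V V ℝ) : Matrix (V ⊕ V) (V ⊕ V) ℝ :=
  Matrix.fromBlocks ((-((r : ℝ) - 1)) • (1 : Matrix V V ℝ)) (-M)
        (((r : ℝ) - 1) • (1 : Matrix V V ℝ)) (M - ((k : ℝ) - 1) • (1 : Matrix V V ℝ))

theorem tb_sq (k r : ℕ) (M : Matrix V V ℝ) :
    tb_X k r M * tb_X k r M =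
      fromBlocks (M - ((r : ℝ) + k - 2) • (1 : Matrix V V ℝ)) 0 0
        (M - ((r : ℝ) + k - 2) • (1 : Matrix V V ℝ)) * tb_X k r M -
      (qq k r) • (1 : Matrix (V ⊕ V) (V ⊕ V) ℝ) := by
  unfold tb_X qq
  rw [fromBlocks_multiply, fromBlocks_multiply, ← fromBlocks_one, fromBlocks_smul,
    tb_sub]
  congr 1
  · simp only [Matrix.smul_mul, Matrix.mul_smul, Matrix.mul_one, Matrix.one_mul,
      Matrix.zero_mul, Matrix.sub_mul, Matrix.mul_sub, Matrix.neg_mul, Matrix.mul_neg]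
    module
  · simp only [Matrix.smul_mul, Matrix.mul_smul, Matrix.mul_one, Matrix.one_mul,
      Matrix.zero_mul, Matrix.sub_mul, Matrix.mul_sub, Matrix.neg_mul, Matrix.mul_neg]
    module
  · simp only [Matrix.smul_mul, Matrix.mul_smul, Matrix.mul_one, Matrix.one_mul,
      Matrix.zero_mul, Matrix.sub_mul, Matrix.mul_sub, Matrix.neg_mul, Matrix.mul_neg]
    module
  · simp only [Matrix.smul_mul, Matrix.mul_smul, Matrix.mul_one, Matrix.one_mul,
      Matrix.zero_mul, Matrix.sub_mul, Matrix.mul_sub, Matrix.neg_mul, Matrix.mul_neg]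
    module

theorem tb_rec (k r : ℕ) (M : Matrix V V ℝ) (j : ℕ) :
    tb_X k r M ^ (j + 2) =
      fromBlocks (M - ((r : ℝ) + k - 2) • (1 : Matrix V V ℝ)) 0 0
        (M - ((r : ℝ) + k - 2) • (1 : Matrix V V ℝ)) * tb_X k r M ^ (j + 1) -
      (qq k r) • tb_X k r M ^ j := by
  have h1 : tb_X k r M ^ (j + 2) = (tb_X k r M * tb_X k r M) * tb_X k r M ^ j := by
    rw [pow_succ', pow_succ', Matrix.mul_assoc]
  rw [h1, tb_sq, Matrix.sub_mul, Matrix.mul_assoc, ← pow_succ', Matrix.smul_mul, Matrix.one_mul]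

theorem tb_main (k r : ℕ) (M : Matrix V V ℝ) (j : ℕ) :
    toBlocks₁₁ (tb_X k r M ^ j) + toBlocks₂₂ (tb_X k r M ^ j) =
      Polynomial.aeval M (Pj k r j) ∧
    toBlocks₁₁ (tb_X k r M ^ (j + 1)) + toBlocks₂₂ (tb_X k r M ^ (j + 1)) =
      Polynomial.aeval M (Pj k r (j + 1)) := by
  induction j with
  | zero =>
    constructor
    · have h1 : Pj k r 0 = 2 := rfl
      rw [pow_zero, h1, ← fromBlocks_one, toBlocks_fromBlocks₁₁, toBlocks_fromBlocks₂₂, map_ofNat]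
      exact one_add_one_eq_two
    · have h1 : Pj k r (0 + 1) = Polynomial.X - Polynomial.C ((r : ℝ) + k - 2) := rfl
      rw [zero_add, pow_one, h1, map_sub, Polynomial.aeval_X, Polynomial.aeval_C,
        Algebra.algebraMap_eq_smul_one]
      unfold tb_X
      rw [toBlocks_fromBlocks₁₁, toBlocks_fromBlocks₂₂]
      module
  | succ j ih =>
    refine ⟨ih.2, ?_⟩
    have h1 : Pj k r (j + 1 + 1) = (Polynomial.X - Polynomial.C ((r : ℝ) + k - 2)) *
      Pj k r (j + 1) - Polynomial.C (qq k r) * Pj k r j := rfl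
    have h2 : tb_X k r M ^ (j + 1 + 1) =
      fromBlocks (M - ((r : ℝ) + k - 2) • (1 : Matrix V V ℝ)) 0 0
        (M - ((r : ℝ) + k - 2) • (1 : Matrix V V ℝ)) * tb_X k r M ^ (j + 1) -
      (qq k r) • tb_X k r M ^ j := tb_rec k r M j
    have h3 : ∀ Y Z : Matrix (V ⊕ V) (V ⊕ V) ℝ, toBlocks₁₁ (Y - Z) =
      toBlocks₁₁ Y - toBlocks₁₁ Z := fun _ _ => rfl
    have h4 : ∀ Y Z : Matrix (V ⊕ V) (V ⊕ V) ℝ, toBlocks₂₂ (Y - Z) =
      toBlocks₂₂ Y - toBlocks₂₂ Z := fun _ _ => rfl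
    have h5 : ∀ (a : ℝ) (Y : Matrix (V ⊕ V) (V ⊕ V) ℝ), toBlocks₁₁ (a • Y) =
      a • toBlocks₁₁ Y := fun _ _ => rfl
    have h6 : ∀ (a : ℝ) (Y : Matrix (V ⊕ V) (V ⊕ V) ℝ), toBlocks₂₂ (a • Y) =
      a • toBlocks₂₂ Y := fun _ _ => rfl
    rw [h1, h2, h3, h4, tb_one, tb_two, h5, h6, map_sub, map_mul, map_mul, map_sub,
      Polynomial.aeval_X, Polynomial.aeval_C, Polynomial.aeval_C, ← ih.1, ← ih.2,
      Algebra.algebraMap_eq_smul_one, Algebra.algebraMap_eq_smul_one, Matrix.mul_add,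
      Matrix.smul_mul, Matrix.one_mul, smul_add]
    abel

/-- a `2 × 2` block matrix with commuting blocks, trace `M - (r + k - 2)` and determinant `q` -/
theorem trace_block (k r : ℕ) (M : Matrix V V ℝ) (j : ℕ) :
    trace ((Matrix.fromBlocks ((-((r : ℝ) - 1)) • (1 : Matrix V V ℝ)) (-M)
        (((r : ℝ) - 1) • (1 : Matrix V V ℝ)) (M - ((k : ℝ) - 1) • (1 : Matrix V V ℝ))) ^ j)
      = trace (Polynomial.aeval M (Pj k r j)) := by
  have h1 := tb_trace (tb_X k r M ^ j)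
  rw [(tb_main k r M j).1] at h1
  exact h1

end LCD
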