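import Mathlib
import Pool.Agent.Lib_helper55.LCD.Defs
import Pool.Agent.Lib_helper55.LCD.TA
import Pool.Agent.Lib_helper55.LCD.TB

set_option autoImplicit false

namespace LCD

open Finset Matrix

variable {E V B : Type} [Fintype E] [DecidableEq E] [Fintype V] [DecidableEq V]
  [Fintype B] [DecidableEq B]

theorem tc_self {F W : Type} [Fintype F] [DecidableEq F] [Fintype W] [DecidableEq W]
    (r : ℕ) (s : F → W) (hs : Fib s r) :
    ind s * (ind s)ᵀ = (r : ℝ) • (1 : Matrix W W ℝ) := by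
  ext i j
  rw [Matrix.mul_apply, Matrix.smul_apply, Matrix.one_apply]
  simp only [ind, Matrix.transpose_apply, ite_mul, one_mul, zero_mul]
  by_cases h : i = j
  · subst h
    rw [if_pos rfl, smul_eq_mul, mul_one, ← hs i, Finset.card_filter]
    push_cast
    refine Finset.sum_congr rfl (fun e _ => ?_)
    split_ifs <;> rfl
  · rw [if_neg h, smul_zero]
    refine Finset.sum_eq_zero (fun e _ => ?_)
    by_cases h1 : s e = i
    · rw [if_pos h1, if_neg (by rw [h1]; exact h)]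
    · rw [if_neg h1]

theorem tc_inc (s : E → V) (t : E → B) : ind s * (ind t)ᵀ = inc s t := by
  ext i j
  rw [Matrix.mul_apply]
  unfold inc
  simp only [ind, Matrix.transpose_apply]
  rw [Finset.card_filter]
  push_cast
  refine Finset.sum_congr rfl (fun e _ => ?_)
  by_cases h1 : s e = i <;> by_cases h2 : t e = j <;> simp [h1, h2]

theorem tc_adj {F W : Type} [Fintype F] [DecidableEq F] [Fintype W] [DecidableEq W]
    (s : F → W) : adj s = (ind s)ᵀ * ind s - 1 := by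
  ext e f
  rw [Matrix.sub_apply, Matrix.mul_apply, Matrix.one_apply]
  simp only [ind, Matrix.transpose_apply, adj, ite_mul, one_mul, zero_mul]
  rw [Finset.sum_ite_eq, if_pos (Finset.mem_univ _)]
  by_cases h : e = f
  · subst h
    simp
  · by_cases h1 : s e = s f
    · rw [if_pos ⟨h1, h⟩, if_pos h1.symm, if_neg h, sub_zero]
    · rw [if_neg (fun h2 => h1 h2.1), if_neg (fun h2 => h1 h2.symm), if_neg h, sub_zero]

/-- traces of the nonbacktracking operator -/
theorem trace_nb (k r : ℕ) (s : E → V) (t : E → B) (hs : Fib s r) (ht : Fib t k) (j : ℕ) :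
    trace ((adj t * adj s) ^ j) = trace (Polynomial.aeval (MM s t) (Pj k r j))
      + ((Fintype.card B : ℝ) - Fintype.card V) * (-((k : ℝ) - 1)) ^ j
      + ((Fintype.card E : ℝ) - Fintype.card V - Fintype.card B) := by
  have hA := tc_self r s hs
  have hC := tc_self k t ht
  have hN := tc_inc s t
  have hNt : ind t * (ind s)ᵀ = (inc s t)ᵀ := by
    rw [← hN, Matrix.transpose_mul, Matrix.transpose_transpose]
  set A := ind s
  set C := ind t
  set N := inc s t
  set W : Matrix E (V ⊕ B) ℝ := Matrix.fromCols Aᵀ Cᵀ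
  set Z : Matrix (V ⊕ B) E ℝ := Matrix.fromRows (-A) (Nᵀ * A - C)
  have h1 : adj t * adj s = (1 : ℝ) • (1 : Matrix E E ℝ) + W * Z := by
    rw [tc_adj s, tc_adj t, Matrix.fromCols_mul_fromRows, ← hNt, one_smul]
    simp only [Matrix.mul_sub, Matrix.sub_mul, Matrix.mul_one, Matrix.one_mul, Matrix.mul_neg,
      Matrix.mul_assoc]
    abel
  have h2 : (1 : ℝ) • (1 : Matrix (V ⊕ B) (V ⊕ B) ℝ) + Z * W =
      Matrix.fromBlocks ((-((r : ℝ) - 1)) • (1 : Matrix V V ℝ)) (-N)
        (((r : ℝ) - 1) • Nᵀ) (Nᵀ * N - ((k : ℝ) - 1) • (1 : Matrix B B ℝ)) := by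
    rw [Matrix.fromRows_mul_fromCols, one_smul, ← Matrix.fromBlocks_one,
      Matrix.fromBlocks_add]
    have e1 : (1 : Matrix V V ℝ) + -A * Aᵀ = (-((r : ℝ) - 1)) • (1 : Matrix V V ℝ) := by
      rw [Matrix.neg_mul, hA]
      module
    have e2 : (0 : Matrix V B ℝ) + -A * Cᵀ = -N := by
      rw [Matrix.neg_mul, hN, zero_add]
    have e3 : (0 : Matrix B V ℝ) + (Nᵀ * A - C) * Aᵀ = ((r : ℝ) - 1) • Nᵀ := by
      rw [Matrix.sub_mul, Matrix.mul_assoc, hA, hNt, zero_add, Matrix.mul_smul, Matrix.mul_one]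
      module
    have e4 : (1 : Matrix B B ℝ) + (Nᵀ * A - C) * Cᵀ =
        Nᵀ * N - ((k : ℝ) - 1) • (1 : Matrix B B ℝ) := by
      rw [Matrix.sub_mul, Matrix.mul_assoc, hC, hN]
      module
    rw [e1, e2, e3, e4]
  set U : Matrix (V ⊕ B) (V ⊕ V) ℝ := Matrix.fromBlocks 1 0 0 Nᵀ
  set Y : Matrix (V ⊕ V) (V ⊕ B) ℝ := Matrix.fromBlocks (((k : ℝ) - r) • (1 : Matrix V V ℝ)) (-N)
    (((r : ℝ) - 1) • (1 : Matrix V V ℝ)) N
  have h3 : Matrix.fromBlocks ((-((r : ℝ) - 1)) • (1 : Matrix V V ℝ)) (-N)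
        (((r : ℝ) - 1) • Nᵀ) (Nᵀ * N - ((k : ℝ) - 1) • (1 : Matrix B B ℝ)) =
      (-((k : ℝ) - 1)) • (1 : Matrix (V ⊕ B) (V ⊕ B) ℝ) + U * Y := by
    rw [Matrix.fromBlocks_multiply, ← Matrix.fromBlocks_one, Matrix.fromBlocks_smul,
      Matrix.fromBlocks_add]
    simp only [Matrix.one_mul, Matrix.zero_mul, add_zero, zero_add, Matrix.mul_smul,
      Matrix.mul_one, smul_zero]
    congr 1
    · module
    · module
  have h4 : (-((k : ℝ) - 1)) • (1 : Matrix (V ⊕ V) (V ⊕ V) ℝ) + Y * U =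
      Matrix.fromBlocks ((-((r : ℝ) - 1)) • (1 : Matrix V V ℝ)) (-(MM s t))
        (((r : ℝ) - 1) • (1 : Matrix V V ℝ)) (MM s t - ((k : ℝ) - 1) • (1 : Matrix V V ℝ)) := by
    have hM : MM s t = N * Nᵀ := rfl
    rw [Matrix.fromBlocks_multiply, ← Matrix.fromBlocks_one, Matrix.fromBlocks_smul,
      Matrix.fromBlocks_add, hM]
    simp only [Matrix.mul_one, Matrix.mul_zero, add_zero, zero_add, smul_zero, Matrix.neg_mul]
    congr 1
    · module
    · module
  have t1 := trace_pow_comm W Z 1 j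
  have t2 := trace_pow_comm U Y (-((k : ℝ) - 1)) j
  have t3 := trace_block k r (MM s t) j
  rw [← h1, h2, h3] at t1
  rw [h4, t3] at t2
  rw [Fintype.card_sum] at t1 t2
  rw [Fintype.card_sum] at t2
  push_cast at t1 t2
  rw [one_pow] at t1
  linarith

end LCD
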