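import Mathlib
import Pool.Agent.Lib_helper55.LCD.Defs
import Pool.Agent.Lib_helper55.LCD.AA
import Pool.Agent.Lib_helper55.LCD.TC
import Pool.Agent.Lib_helper55.LCD.DF

set_option autoImplicit false

namespace LCD

open Finset Matrix

variable {E V B : Type} [Fintype E] [DecidableEq E] [Fintype V] [DecidableEq V]
  [Fintype B] [DecidableEq B]

/-- the energy identity -/
theorem energy_id (k r : ℕ) (hk : 2 ≤ k) (hr : 2 ≤ r) (s : E → V) (t : E → B) (hs : Fib s r)
    (ht : Fib t k) (hV : 0 < Fintype.card V) (ν : V → ℝ)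
    (h1 : ∀ p : Polynomial ℝ, trace (Polynomial.aeval (M0 k r s t) p) = ∑ i, p.eval (ν i))
    (h2 : En k r s t = ∑ i, 1 / ((r : ℝ) * k - ν i)) (c : ℕ → ℝ) (n : ℕ) :
    (qq k r - 1) * En k r s t
      = Kc k r (Fintype.card V) (Fintype.card B) (Fintype.card E) c n
        + ∑ j ∈ Icc 1 n, c j * aa k r s t j + ∑ i, Rem k r c n (ν i) := by
  have h3 : ∀ j, aa k r s t j = (∑ i, (Pj k r j).eval (ν i)) / qq k r ^ j +
      (((Fintype.card B : ℝ) - Fintype.card V) * (-((k : ℝ) - 1)) ^ j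
        + ((Fintype.card E : ℝ) - Fintype.card V - Fintype.card B)
        + (Pj k r j).eval ((r : ℝ) * k) - (Pj k r j).eval 0) / qq k r ^ j := by
    intro j
    rw [aa_eq, trace_nb k r s t hs ht j, trace_defl k r s t hs ht hV, h1, ← add_div]
    congr 1
    ring
  have h4 : ∑ i, Rem k r c n (ν i) = (qq k r - 1) * En k r s t - Fintype.card V -
      ∑ j ∈ Icc 1 n, c j * ((∑ i, (Pj k r j).eval (ν i)) / qq k r ^ j) := by
    unfold Rem
    rw [Finset.sum_sub_distrib, Finset.sum_sub_distrib, h2, Finset.mul_sum, Finset.sum_comm]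
    congr 1
    · congr 1
      · exact Finset.sum_congr rfl fun i _ => by ring
      · simp
    · refine Finset.sum_congr rfl fun j _ => ?_
      rw [← Finset.mul_sum, Finset.sum_div]
  have h5 : ∑ j ∈ Icc 1 n, c j * aa k r s t j =
      ∑ j ∈ Icc 1 n, c j * ((∑ i, (Pj k r j).eval (ν i)) / qq k r ^ j) +
      ∑ j ∈ Icc 1 n, c j * ((((Fintype.card B : ℝ) - Fintype.card V) * (-((k : ℝ) - 1)) ^ j
        + ((Fintype.card E : ℝ) - Fintype.card V - Fintype.card B)
        + (Pj k r j).eval ((r : ℝ) * k) - (Pj k r j).eval 0) / qq k r ^ j) := by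
    rw [← Finset.sum_add_distrib]
    refine Finset.sum_congr rfl fun j _ => ?_
    rw [h3 j]
    ring
  rw [h4, h5]
  unfold Kc
  ring

end LCD
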