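import Mathlib
import Pool.Agent.Lib_helper55.LCD.Defs

set_option autoImplicit false

namespace LCD

open Finset Matrix

variable {E V B : Type} [Fintype E] [DecidableEq E] [Fintype V] [DecidableEq V]
  [Fintype B] [DecidableEq B]

theorem rb_sum (n : ℕ) : ∑ i ∈ range (n + 1), ((n.choose i : ℝ) / 2 ^ n) = 1 := by
  rw [← Finset.sum_div]
  have h : ∑ i ∈ range (n + 1), ((n.choose i : ℕ) : ℝ) = 2 ^ n := by
    rw [← Nat.cast_sum, Nat.sum_range_choose]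
    push_cast
    ring
  rw [h, div_self (pow_ne_zero _ two_ne_zero)]

theorem bc_nonneg (n j : ℕ) : 0 ≤ bc n j := by
  unfold bc
  apply Finset.sum_nonneg
  intro i _
  split_ifs
  · positivity
  · exact le_refl 0

theorem bc_le_one (n j : ℕ) : bc n j ≤ 1 := by
  rw [← rb_sum n]
  unfold bc
  apply Finset.sum_le_sum
  intro i _
  split_ifs
  · exact le_refl _
  · positivity

theorem bc_one (n j : ℕ) (h : j ≤ n) : bc n j = 1 := by
  rw [← rb_sum n]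
  unfold bc
  apply Finset.sum_congr rfl
  intro i _
  rw [if_pos (by omega)]

theorem rb_ne (k r : ℕ) (hq : 1 < qq k r) (μ : ℝ) (h1 : μ < (r : ℝ) * k) (x y : ℂ)
    (hT : (1 - x) * (1 - y) = ((((r : ℝ) * k - μ) / qq k r : ℝ) : ℂ)) :
    1 - x ≠ 0 ∧ 1 - y ≠ 0 := by
  have hD : 0 < ((r : ℝ) * k - μ) / qq k r := div_pos (by linarith) (by linarith)
  have h : (1 - x) * (1 - y) ≠ 0 := by
    rw [hT]
    exact_mod_cast hD.ne'
  exact ⟨left_ne_zero_of_mul h, right_ne_zero_of_mul h⟩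

theorem rb_gen (k r n : ℕ) (c : ℕ → ℝ) (hq : 1 < qq k r) (μ : ℝ) (h1 : μ < (r : ℝ) * k) (x y : ℂ)
    (hxy : x * y = ((1 / qq k r : ℝ) : ℂ))
    (hT : (1 - x) * (1 - y) = ((((r : ℝ) * k - μ) / qq k r : ℝ) : ℂ))
    (hP : ∀ j : ℕ, (((Pj k r j).eval μ / qq k r ^ j : ℝ) : ℂ) = x ^ j + y ^ j) :
    ((Rem k r c n μ : ℝ) : ℂ) =
      (1 / (1 - x) - 1 - ∑ j ∈ Icc 1 n, (c j : ℂ) * x ^ j) +
        (1 / (1 - y) - 1 - ∑ j ∈ Icc 1 n, (c j : ℂ) * y ^ j) := by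
  obtain ⟨hx, hy⟩ := rb_ne k r hq μ h1 x y hT
  have hq0 : qq k r ≠ 0 := by linarith
  have hD0 : (r : ℝ) * k - μ ≠ 0 := by
    have : 0 < (r : ℝ) * k - μ := by linarith
    exact this.ne'
  have e1 : (qq k r - 1) / ((r : ℝ) * k - μ) =
      (1 - 1 / qq k r) / (((r : ℝ) * k - μ) / qq k r) := by
    field_simp
  have e2 : (((qq k r - 1) / ((r : ℝ) * k - μ) : ℝ) : ℂ) = 1 / (1 - x) + 1 / (1 - y) - 1 := by
    rw [e1, Complex.ofReal_div, ← hT, Complex.ofReal_sub, Complex.ofReal_one, ← hxy]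
    field_simp
    ring
  have e3 : ((∑ j ∈ Icc 1 n, c j * ((Pj k r j).eval μ / qq k r ^ j) : ℝ) : ℂ) =
      ∑ j ∈ Icc 1 n, (c j : ℂ) * x ^ j + ∑ j ∈ Icc 1 n, (c j : ℂ) * y ^ j := by
    rw [Complex.ofReal_sum, ← Finset.sum_add_distrib]
    apply Finset.sum_congr rfl
    intro j _
    rw [Complex.ofReal_mul, hP j]
    ring
  unfold Rem
  rw [Complex.ofReal_sub, Complex.ofReal_sub, e2, e3, Complex.ofReal_one]
  ring

theorem rb_geom (x : ℂ) (hx : 1 - x ≠ 0) (n : ℕ) :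
    1 / (1 - x) - 1 - ∑ j ∈ Icc 1 n, x ^ j = x ^ (n + 1) / (1 - x) := by
  induction n with
  | zero =>
    rw [show Icc 1 0 = (∅ : Finset ℕ) from rfl, Finset.sum_empty]
    field_simp
    ring
  | succ n ih =>
    rw [Finset.sum_Icc_succ_top (by omega)]
    have e : 1 / (1 - x) - 1 - (∑ j ∈ Icc 1 n, x ^ j + x ^ (n + 1)) =
        (1 / (1 - x) - 1 - ∑ j ∈ Icc 1 n, x ^ j) - x ^ (n + 1) := by ring
    rw [e, ih]
    field_simp
    ring

theorem rem_one_eq (k r n : ℕ) (hq : 1 < qq k r) (μ : ℝ) (h1 : μ < (r : ℝ) * k) (x y : ℂ)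
    (hxy : x * y = ((1 / qq k r : ℝ) : ℂ))
    (hT : (1 - x) * (1 - y) = ((((r : ℝ) * k - μ) / qq k r : ℝ) : ℂ))
    (hP : ∀ j : ℕ, (((Pj k r j).eval μ / qq k r ^ j : ℝ) : ℂ) = x ^ j + y ^ j) :
    ((Rem k r (fun _ => 1) n μ : ℝ) : ℂ) = x ^ (n + 1) / (1 - x) + y ^ (n + 1) / (1 - y) := by
  obtain ⟨hx, hy⟩ := rb_ne k r hq μ h1 x y hT
  rw [rb_gen k r n (fun _ => 1) hq μ h1 x y hxy hT hP, ← rb_geom x hx n, ← rb_geom y hy n]
  simp only [Complex.ofReal_one, one_mul]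

theorem rb_bin (x : ℂ) (hx : 1 - x ≠ 0) (n : ℕ) :
    1 / (1 - x) - 1 - ∑ j ∈ Icc 1 (2 * n), ((bc n j : ℝ) : ℂ) * x ^ j =
      x ^ (n + 1) * ((1 + x) / 2) ^ n / (1 - x) := by
  have hs : ∑ i ∈ range (n + 1), ((n.choose i : ℂ) / 2 ^ n) = 1 := by
    have h := rb_sum n
    have h2 : ((∑ i ∈ range (n + 1), ((n.choose i : ℝ) / 2 ^ n) : ℝ) : ℂ) = ((1 : ℝ) : ℂ) := by
      rw [h]
    push_cast at h2
    exact h2
  have e1 : ∑ j ∈ Icc 1 (2 * n), ((bc n j : ℝ) : ℂ) * x ^ j =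
      ∑ i ∈ range (n + 1), ((n.choose i : ℂ) / 2 ^ n) * ∑ j ∈ Icc 1 (n + i), x ^ j := by
    have e2 : ∀ j ∈ Icc 1 (2 * n), ((bc n j : ℝ) : ℂ) * x ^ j =
        ∑ i ∈ range (n + 1), (if j ≤ n + i then ((n.choose i : ℂ) / 2 ^ n) * x ^ j else 0) := by
      intro j _
      unfold bc
      rw [Complex.ofReal_sum, Finset.sum_mul]
      apply Finset.sum_congr rfl
      intro i _
      split_ifs
      · push_cast
        ring
      · simp
    rw [Finset.sum_congr rfl e2, Finset.sum_comm]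
    apply Finset.sum_congr rfl
    intro i hi
    rw [Finset.mem_range] at hi
    rw [← Finset.sum_filter, Finset.mul_sum]
    apply Finset.sum_congr _ (fun j _ => rfl)
    ext j
    rw [Finset.mem_filter, Finset.mem_Icc, Finset.mem_Icc]
    omega
  have e3 : 1 / (1 - x) - 1 = ∑ i ∈ range (n + 1), ((n.choose i : ℂ) / 2 ^ n) *
      (1 / (1 - x) - 1) := by
    rw [← Finset.sum_mul, hs, one_mul]
  rw [e1, e3, ← Finset.sum_sub_distrib]
  have e4 : ∀ i ∈ range (n + 1), ((n.choose i : ℂ) / 2 ^ n) * (1 / (1 - x) - 1) -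
      ((n.choose i : ℂ) / 2 ^ n) * ∑ j ∈ Icc 1 (n + i), x ^ j =
      x ^ (n + 1) / (2 ^ n * (1 - x)) * (x ^ i * 1 ^ (n - i) * (n.choose i : ℂ)) := by
    intro i _
    rw [← mul_sub, rb_geom x hx (n + i), one_pow, show n + i + 1 = (n + 1) + i by ring, pow_add]
    field_simp
  rw [Finset.sum_congr rfl e4, ← Finset.mul_sum, ← add_pow, div_pow, add_comm x 1]
  field_simp

theorem rem_bc_eq (k r n : ℕ) (hq : 1 < qq k r) (μ : ℝ) (h1 : μ < (r : ℝ) * k) (x y : ℂ)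
    (hxy : x * y = ((1 / qq k r : ℝ) : ℂ))
    (hT : (1 - x) * (1 - y) = ((((r : ℝ) * k - μ) / qq k r : ℝ) : ℂ))
    (hP : ∀ j : ℕ, (((Pj k r j).eval μ / qq k r ^ j : ℝ) : ℂ) = x ^ j + y ^ j) :
    ((Rem k r (bc n) (2 * n) μ : ℝ) : ℂ)
      = x ^ (n + 1) * ((1 + x) / 2) ^ n / (1 - x) + y ^ (n + 1) * ((1 + y) / 2) ^ n / (1 - y) := by
  obtain ⟨hx, hy⟩ := rb_ne k r hq μ h1 x y hT
  rw [rb_gen k r (2 * n) (bc n) hq μ h1 x y hxy hT hP, rb_bin x hx n, rb_bin y hy n]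

end LCD
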