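import Mathlib
import Pool.Agent.Lib_helper55.LCD.Defs
import Pool.Agent.Lib_helper55.LCD.RA
import Pool.Agent.Lib_helper55.LCD.RB

set_option autoImplicit false

namespace LCD

open Finset Matrix

variable {E V B : Type} [Fintype E] [DecidableEq E] [Fintype V] [DecidableEq V]
  [Fintype B] [DecidableEq B]

theorem rc_q (k r : ℕ) (hk : 2 ≤ k) (hr : 3 ≤ r) : (2 : ℝ) ≤ qq k r := by
  unfold qq
  have h1 : (2 : ℝ) ≤ k := by exact_mod_cast hk
  have h2 : (3 : ℝ) ≤ r := by exact_mod_cast hr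
  nlinarith

theorem rc_small (q t : ℝ) (hq : 2 ≤ q) (h : t ^ 2 ≤ 1 / q) : t ≤ 0.7072 := by
  have h1 : 1 / q ≤ 1 / 2 := one_div_le_one_div_of_le (by norm_num) hq
  by_contra h2
  have h3 : (0.7072 : ℝ) < t := not_le.1 h2
  nlinarith

theorem rc_norm (q : ℝ) (hq : 2 ≤ q) (x : ℂ) (h : ‖x‖ ^ 2 = 1 / q) : 0.2928 ≤ ‖1 - x‖ := by
  have h1 := rc_small q ‖x‖ hq h.le
  have h2 : ‖(1 : ℂ)‖ - ‖x‖ ≤ ‖1 - x‖ := norm_sub_norm_le 1 x
  rw [norm_one] at h2
  linarith

theorem rc_term (q : ℝ) (hq : 2 ≤ q) (n : ℕ) (hn : Odd n) (x : ℂ) (h : ‖x‖ ^ 2 = 1 / q) :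
    ‖x ^ (n + 1) / (1 - x)‖ ≤ 4 / Real.sqrt q ^ (n + 1) := by
  have h1 := rc_norm q hq x h
  have hq0 : 0 < q := by linarith
  obtain ⟨j, hj⟩ := hn
  have e1 : n + 1 = 2 * (j + 1) := by omega
  have e2 : ‖x‖ ^ (n + 1) = 1 / Real.sqrt q ^ (n + 1) := by
    rw [e1, pow_mul, pow_mul, h, Real.sq_sqrt hq0.le, _root_.one_div_pow]
  rw [norm_div, norm_pow, e2]
  have hs : 0 < Real.sqrt q ^ (n + 1) := pow_pos (Real.sqrt_pos.2 hq0) _
  have h0 : 0 < ‖1 - x‖ := by linarith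
  rw [div_div, div_le_div_iff₀ (mul_pos hs h0) hs]
  nlinarith

/-- lower bound for the remainder, odd cutoff -/
theorem rem_one_lower (k r n : ℕ) (hk : 2 ≤ k) (hr : 3 ≤ r) (hkr : k ≤ r) (hn : Odd n) (μ : ℝ)
    (h0 : 0 ≤ μ) (h1 : μ < (r : ℝ) * k) :
    -(8 / Real.sqrt (qq k r) ^ (n + 1)) ≤ Rem k r (fun _ => 1) n μ := by
  have hq := rc_q k r hk hr
  have hq0 : 0 < qq k r := by linarith
  have hs : 0 < Real.sqrt (qq k r) ^ (n + 1) := pow_pos (Real.sqrt_pos.2 hq0) _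
  have hs8 : 0 < 8 / Real.sqrt (qq k r) ^ (n + 1) := div_pos (by norm_num) hs
  have hev : Even (n + 1) := hn.add_one
  obtain ⟨x, y, hxy, hT, hP, hc⟩ := roots k r hk hr hkr μ h0 h1
  have hR := rem_one_eq k r n (by linarith) μ h1 x y hxy hT hP
  rcases hc with ⟨hy, hx⟩ | ⟨a, c, hx, hy, hc0, hca, ha1, hc2⟩ | ⟨a, c, hx, hy, ha, hac, hc0⟩
  · have hyn : ‖y‖ ^ 2 = 1 / qq k r := by
      rw [hy, RCLike.norm_conj]
      exact hx
    have b1 := rc_term _ hq n hn x hx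
    have b2 := rc_term _ hq n hn y hyn
    have b3 : |Rem k r (fun _ => 1) n μ| ≤ 8 / Real.sqrt (qq k r) ^ (n + 1) := by
      have e : |Rem k r (fun _ => 1) n μ| = ‖((Rem k r (fun _ => 1) n μ : ℝ) : ℂ)‖ := by
        rw [Complex.norm_real, Real.norm_eq_abs]
      rw [e, hR]
      refine (norm_add_le _ _).trans ?_
      have e8 : 8 / Real.sqrt (qq k r) ^ (n + 1) =
        4 / Real.sqrt (qq k r) ^ (n + 1) + 4 / Real.sqrt (qq k r) ^ (n + 1) := by ring
      rw [e8]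
      exact add_le_add b1 b2
    have := (abs_le.1 b3).1
    linarith
  · rw [hx, hy] at hR
    have hR' : Rem k r (fun _ => 1) n μ = a ^ (n + 1) / (1 - a) + c ^ (n + 1) / (1 - c) := by
      exact_mod_cast hR
    rw [hR']
    have t1 : 0 ≤ a ^ (n + 1) / (1 - a) := div_nonneg (hev.pow_nonneg a) (by linarith)
    have t2 : 0 ≤ c ^ (n + 1) / (1 - c) := div_nonneg (hev.pow_nonneg c) (by linarith)
    linarith
  · rw [hx, hy] at hR
    have hR' : Rem k r (fun _ => 1) n μ = a ^ (n + 1) / (1 - a) + c ^ (n + 1) / (1 - c) := by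
      exact_mod_cast hR
    rw [hR']
    have t1 : 0 ≤ a ^ (n + 1) / (1 - a) := div_nonneg (hev.pow_nonneg a) (by linarith)
    have t2 : 0 ≤ c ^ (n + 1) / (1 - c) := div_nonneg (hev.pow_nonneg c) (by linarith)
    linarith

/-- a bounded remainder gives a gap -/
theorem rem_one_gap (k r n : ℕ) (hk : 2 ≤ k) (hr : 3 ≤ r) (hkr : k ≤ r) (hn : Odd n) (μ : ℝ)
    (h0 : 0 ≤ μ) (h1 : μ < (r : ℝ) * k) (h : Rem k r (fun _ => 1) n μ ≤ n + 7) :
    qq k r / (14 * (n + 8)) ≤ (r : ℝ) * k - μ := by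
  have hq := rc_q k r hk hr
  have hq0 : 0 < qq k r := by linarith
  have hev : Even (n + 1) := hn.add_one
  have hn1 : (1 : ℝ) ≤ n := by
    have : 1 ≤ n := hn.pos
    exact_mod_cast this
  obtain ⟨x, y, hxy, hT, hP, hc⟩ := roots k r hk hr hkr μ h0 h1
  have hR := rem_one_eq k r n (by linarith) μ h1 x y hxy hT hP
  have hD0 : 0 < ((r : ℝ) * k - μ) / qq k r := div_pos (by linarith) hq0
  have hn8 : (0 : ℝ) < 14 * (n + 8) := by positivity
  have key : 1 / (14 * ((n : ℝ) + 8)) ≤ ((r : ℝ) * k - μ) / qq k r := by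
    rcases hc with ⟨hy, hx⟩ | ⟨a, c, hx, hy, hc0, hca, ha1, hc2⟩ | ⟨a, c, hx, hy, ha, hac, hc0⟩
    · have hyn : ‖y‖ ^ 2 = 1 / qq k r := by
        rw [hy, RCLike.norm_conj]
        exact hx
      have b1 := rc_norm _ hq x hx
      have b2 := rc_norm _ hq y hyn
      have e : ((r : ℝ) * k - μ) / qq k r = ‖1 - x‖ * ‖1 - y‖ := by
        rw [← norm_mul, hT, Complex.norm_real, Real.norm_eq_abs, abs_of_pos hD0]
      rw [e]
      have b3 : (0.2928 : ℝ) * 0.2928 ≤ ‖1 - x‖ * ‖1 - y‖ :=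
        mul_le_mul b1 b2 (by norm_num) (norm_nonneg _)
      have b4 : 1 / (14 * ((n : ℝ) + 8)) ≤ 0.2928 * 0.2928 := by
        rw [div_le_iff₀ hn8]
        nlinarith
      linarith
    · rw [hx, hy] at hR hT
      have hR' : Rem k r (fun _ => 1) n μ = a ^ (n + 1) / (1 - a) + c ^ (n + 1) / (1 - c) := by
        exact_mod_cast hR
      have hT' : (1 - a) * (1 - c) = ((r : ℝ) * k - μ) / qq k r := by exact_mod_cast hT
      rw [← hT']
      have t2 : 0 ≤ c ^ (n + 1) / (1 - c) := div_nonneg (hev.pow_nonneg c) (by linarith)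
      have hc7 := rc_small _ c hq hc2
      have ha4 : 1 / (4 * ((n : ℝ) + 8)) ≤ 1 - a := by
        by_contra hlt
        have hlt' : 1 - a < 1 / (4 * ((n : ℝ) + 8)) := not_le.1 hlt
        have h4 : (0 : ℝ) < 4 * (n + 8) := by positivity
        have hlt2 : (1 - a) * (4 * (n + 8)) < 1 := (lt_div_iff₀ h4).1 hlt'
        have hber : 1 + ((n + 1 : ℕ) : ℝ) * (a - 1) ≤ (1 + (a - 1)) ^ (n + 1) :=
          one_add_mul_le_pow (by linarith) (n + 1)
        have hber' : 3 / 4 ≤ a ^ (n + 1) := by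
          have e : 1 + (a - 1) = a := by ring
          rw [e] at hber
          push_cast at hber
          have : (1 - a) * (n + 1) ≤ 1 / 4 := by nlinarith
          nlinarith
        have ha0 : 0 < 1 - a := by linarith
        have hbig : (n : ℝ) + 7 < a ^ (n + 1) / (1 - a) := by
          rw [lt_div_iff₀ ha0]
          nlinarith
        linarith
      calc 1 / (14 * ((n : ℝ) + 8)) ≤ 1 / (4 * ((n : ℝ) + 8)) * 0.2928 := by
            rw [div_mul_eq_mul_div, div_le_div_iff₀ hn8 (by positivity)]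
            nlinarith
        _ ≤ (1 - a) * (1 - c) :=
            mul_le_mul ha4 (by linarith) (by norm_num) (by linarith)
    · rw [hx, hy] at hT
      have hT' : (1 - a) * (1 - c) = ((r : ℝ) * k - μ) / qq k r := by exact_mod_cast hT
      rw [← hT']
      have h2 : (1 : ℝ) ≤ (1 - a) * (1 - c) := by nlinarith
      have h3 : 1 / (14 * ((n : ℝ) + 8)) ≤ 1 := by
        rw [div_le_iff₀ hn8]
        linarith
      linarith
  calc qq k r / (14 * (n + 8)) = qq k r * (1 / (14 * ((n : ℝ) + 8))) := by ring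
    _ ≤ qq k r * (((r : ℝ) * k - μ) / qq k r) := mul_le_mul_of_nonneg_left key hq0.le
    _ = (r : ℝ) * k - μ := by field_simp

end LCD
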