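import Mathlib
import Pool.Agent.Lib_helper55.LCD.Defs
import Pool.Agent.Lib_helper55.LCD.DF

set_option autoImplicit false

namespace LCD

open Finset Matrix

variable {E V B : Type} [Fintype E] [DecidableEq E] [Fintype V] [DecidableEq V]
  [Fintype B] [DecidableEq B]

theorem sp_diag (M : Matrix V V ℝ) (hM : Mᵀ = M) : ∃ (U : Matrix V V ℝ) (ν : V → ℝ),
    U * Uᵀ = 1 ∧ Uᵀ * U = 1 ∧ M = U * diagonal ν * Uᵀ := by
  have hH : M.IsHermitian := by
    show Mᴴ = M
    rw [conjTranspose_eq_transpose_of_trivial, hM]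
  refine ⟨(hH.eigenvectorUnitary : Matrix V V ℝ), hH.eigenvalues, ?_, ?_, ?_⟩
  · have h := Unitary.coe_mul_star_self hH.eigenvectorUnitary
    rwa [Unitary.coe_star, star_eq_conjTranspose, conjTranspose_eq_transpose_of_trivial] at h
  · have h := Unitary.coe_star_mul_self hH.eigenvectorUnitary
    rwa [star_eq_conjTranspose, conjTranspose_eq_transpose_of_trivial] at h
  · have h := hH.spectral_theorem
    rw [Unitary.conjStarAlgAut_apply, star_eq_conjTranspose,
      conjTranspose_eq_transpose_of_trivial] at h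
    exact h

theorem sp_quad (U : Matrix V V ℝ) (d x : V → ℝ) :
    x ⬝ᵥ ((U * diagonal d * Uᵀ) *ᵥ x) = ∑ i, d i * (Uᵀ *ᵥ x) i ^ 2 := by
  rw [← mulVec_mulVec, ← mulVec_mulVec, dotProduct_mulVec, ← mulVec_transpose]
  unfold dotProduct
  refine Finset.sum_congr rfl fun i _ => ?_
  rw [mulVec_diagonal]
  ring

theorem sp_self (U : Matrix V V ℝ) (h1 : U * Uᵀ = 1) (x : V → ℝ) :
    x ⬝ᵥ x = ∑ i, (Uᵀ *ᵥ x) i ^ 2 := by
  have h := sp_quad U (fun _ => 1) x
  rw [show (diagonal fun _ : V => (1 : ℝ)) = 1 from diagonal_one, mul_one, h1, one_mulVec] at h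
  rw [h]
  exact Finset.sum_congr rfl fun i _ => one_mul _

theorem sp_single (U : Matrix V V ℝ) (h2 : Uᵀ * U = 1) (i : V) :
    Uᵀ *ᵥ (U *ᵥ Pi.single i 1) = Pi.single i 1 := by
  rw [mulVec_mulVec, h2, one_mulVec]

theorem sp_sum (d : V → ℝ) (i : V) : ∑ j, d j * (Pi.single i (1 : ℝ) : V → ℝ) j ^ 2 = d i := by
  rw [Finset.sum_eq_single i]
  · rw [Pi.single_eq_same]
    ring
  · intro j _ hj
    rw [Pi.single_eq_of_ne hj]
    ring
  · intro h
    exact absurd (Finset.mem_univ i) h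

theorem sp_pow (U : Matrix V V ℝ) (ν : V → ℝ) (h1 : U * Uᵀ = 1) (h2 : Uᵀ * U = 1) (n : ℕ) :
    (U * diagonal ν * Uᵀ) ^ n = U * diagonal (fun i => ν i ^ n) * Uᵀ := by
  induction n with
  | zero =>
    simp only [pow_zero]
    rw [show (diagonal fun _ : V => (1 : ℝ)) = 1 from diagonal_one, mul_one, h1]
  | succ n ih =>
    rw [pow_succ, ih]
    have h3 : U * diagonal (fun i => ν i ^ n) * Uᵀ * (U * diagonal ν * Uᵀ) =
        U * (diagonal (fun i => ν i ^ n) * ((Uᵀ * U) * diagonal ν)) * Uᵀ := by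
      simp only [Matrix.mul_assoc]
    rw [h3, h2, Matrix.one_mul, diagonal_mul_diagonal]
    rfl

theorem sp_aeval (U : Matrix V V ℝ) (ν : V → ℝ) (h1 : U * Uᵀ = 1) (h2 : Uᵀ * U = 1)
    (p : Polynomial ℝ) : Polynomial.aeval (U * diagonal ν * Uᵀ) p =
      U * diagonal (fun i => p.eval (ν i)) * Uᵀ := by
  induction p using Polynomial.induction_on' with
  | add p q hp hq =>
    rw [map_add, hp, hq, ← add_mul, ← mul_add, diagonal_add]
    congr 3
    funext i
    rw [Polynomial.eval_add]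
  | monomial n a =>
    rw [Polynomial.aeval_monomial, sp_pow U ν h1 h2, Algebra.algebraMap_eq_smul_one, smul_mul_assoc,
      one_mul, ← smul_mul_assoc, ← mul_smul_comm]
    congr 2
    ext i j
    rw [Matrix.smul_apply, diagonal_apply, diagonal_apply]
    split_ifs
    · rw [Polynomial.eval_monomial, smul_eq_mul]
    · rw [smul_zero]

theorem sp_trace (U : Matrix V V ℝ) (d : V → ℝ) (h2 : Uᵀ * U = 1) :
    trace (U * diagonal d * Uᵀ) = ∑ i, d i := by
  rw [trace_mul_comm, ← mul_assoc, h2, one_mul, trace_diagonal]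

theorem sp_det (U : Matrix V V ℝ) (d : V → ℝ) (h1 : U * Uᵀ = 1) :
    (U * diagonal d * Uᵀ).det = ∏ i, d i := by
  have h : U.det * Uᵀ.det = 1 := by rw [← det_mul, h1, det_one]
  rw [det_mul, det_mul, det_diagonal]
  linear_combination (∏ i, d i) * h

theorem sp_inv (U : Matrix V V ℝ) (d : V → ℝ) (h1 : U * Uᵀ = 1) (h2 : Uᵀ * U = 1)
    (hd : ∀ i, d i ≠ 0) :
    (U * diagonal d * Uᵀ)⁻¹ = U * diagonal (fun i => 1 / d i) * Uᵀ := by
  apply inv_eq_right_inv
  have h3 : U * diagonal d * Uᵀ * (U * diagonal (fun i => 1 / d i) * Uᵀ) =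
      U * (diagonal d * ((Uᵀ * U) * diagonal (fun i => 1 / d i))) * Uᵀ := by
    simp only [Matrix.mul_assoc]
  rw [h3, h2, Matrix.one_mul, diagonal_mul_diagonal]
  have h4 : (diagonal fun i => d i * (1 / d i)) = (1 : Matrix V V ℝ) := by
    rw [← diagonal_one]
    congr 1
    funext i
    exact mul_one_div_cancel (hd i)
  rw [h4, mul_one, h1]

/-- the eigenvalues of `M0` -/
theorem spec (k r : ℕ) (s : E → V) (t : E → B) (hs : Fib s r) (ht : Fib t k) :
    ∃ ν : V → ℝ, (∀ i, 0 ≤ ν i) ∧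
      (∀ p : Polynomial ℝ, trace (Polynomial.aeval (M0 k r s t) p) = ∑ i, p.eval (ν i)) ∧
      (∀ δ : ℝ, Gap k r s t δ ↔ ∀ i, ν i ≤ (r : ℝ) * k - δ) ∧
      (Rs k r s t).det = ∏ i, ((r : ℝ) * k - ν i) ∧
      ((∀ i, ν i < (r : ℝ) * k) → En k r s t = ∑ i, 1 / ((r : ℝ) * k - ν i)) := by
  obtain ⟨U, ν, h1, h2, h3⟩ := sp_diag (M0 k r s t) (M0_symm k r s t)
  have hR : Rs k r s t = U * diagonal (fun i => (r : ℝ) * k - ν i) * Uᵀ := by
    have e1 : ((r : ℝ) * k) • (1 : Matrix V V ℝ) = U * diagonal (fun _ => (r : ℝ) * k) * Uᵀ := by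
      have e2 : (diagonal fun _ : V => (r : ℝ) * k) = ((r : ℝ) * k) • (1 : Matrix V V ℝ) := by
        rw [smul_one_eq_diagonal]
      rw [e2, mul_smul_comm, mul_one, smul_mul_assoc, h1]
    unfold Rs
    rw [e1]
    conv_lhs => rw [h3]
    rw [← sub_mul, ← mul_sub, diagonal_sub]
  refine ⟨ν, ?_, ?_, ?_, ?_, ?_⟩
  · intro i
    have h4 := M0_psd k r s t hs ht (U *ᵥ Pi.single i 1)
    rw [h3, sp_quad, sp_single U h2, sp_sum] at h4
    exact h4
  · intro p
    conv_lhs => rw [h3]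
    rw [sp_aeval U ν h1 h2, sp_trace U _ h2]
  · intro δ
    unfold Gap
    rw [hR]
    constructor
    · intro h i
      have h4 := h (U *ᵥ Pi.single i 1)
      rw [sp_self U h1, sp_quad, sp_single U h2, sp_sum] at h4
      have h5 := sp_sum (fun _ : V => (1 : ℝ)) i
      simp only [one_mul] at h5
      rw [h5] at h4
      linarith
    · intro h x
      rw [sp_self U h1, sp_quad, Finset.mul_sum]
      refine Finset.sum_le_sum fun i _ => ?_
      have h4 := h i
      exact mul_le_mul_of_nonneg_right (by linarith) (sq_nonneg _)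
  · rw [hR, sp_det U _ h1]
  · intro h
    unfold En
    rw [hR, sp_inv U _ h1 h2 (fun i => (sub_pos.2 (h i)).ne'), sp_trace U _ h2]

end LCD
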