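import Mathlib
import Pool.Agent.Lib_helper55.LCD.Defs
import Pool.Agent.Lib_helper55.LCD.SP
import Pool.Agent.Lib_helper55.LCD.KI
import Pool.Agent.Lib_helper55.LCD.RC
import Pool.Agent.Lib_helper55.LCD.KE
import Pool.Agent.Lib_helper55.LCD.QF
import Pool.Agent.Lib_helper55.LCD.AA

set_option autoImplicit false

namespace LCD

open Finset Matrix

variable {E V B : Type} [Fintype E] [DecidableEq E] [Fintype V] [DecidableEq V]
  [Fintype B] [DecidableEq B]

theorem ga_card {F W : Type} [Fintype F] [DecidableEq F] [Fintype W] [DecidableEq W]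
    (r : ℕ) (s : F → W) (hs : Fib s r) : Fintype.card W * r = Fintype.card F := by
  have h := Finset.card_eq_sum_card_fiberwise (f := s) (s := (univ : Finset F))
    (t := (univ : Finset W)) (fun x _ => by simp)
  rw [Finset.card_univ] at h
  rw [h, Finset.sum_congr rfl (fun i _ => hs i), Finset.sum_const, Finset.card_univ,
    smul_eq_mul]

/-- few short closed walks and a spectral gap from the energy -/
theorem apriori (k r n : ℕ) (hk : 2 ≤ k) (hr : 3 ≤ r) (hkr : k ≤ r) (s : E → V) (t : E → B)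
    (hs : Fib s r) (ht : Fib t k) (hV : 0 < Fintype.card V) (hn : Odd n)
    (hbig : 8 * (Fintype.card V : ℝ) ≤ Real.sqrt (qq k r) ^ (n + 1))
    (hdet : 0 < (Rs k r s t).det)
    (hE : (qq k r - 1) * (En k r s t - 1 / ((r : ℝ) * k))
      ≤ (Fintype.card V : ℝ) * ((r : ℝ) - 1) / r + 1) :
    ∑ j ∈ Icc 1 n, aa k r s t j ≤ n + 7 ∧ Gap k r s t (qq k r / (14 * (n + 8))) := by
  obtain ⟨ν, hν0, htr, hgap, hdetν, hEn⟩ := spec k r s t hs ht
  have hle : ∀ i, ν i ≤ (r : ℝ) * k := by
    intro i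
    have h := (hgap 0).1 (gap_zero k r (by omega) s t hs ht) i
    linarith
  have hlt : ∀ i, ν i < (r : ℝ) * k := by
    intro i
    refine lt_of_le_of_ne (hle i) ?_
    intro h
    have h2 : ∏ i, ((r : ℝ) * k - ν i) = 0 :=
      Finset.prod_eq_zero (Finset.mem_univ i) (by rw [h, sub_self])
    rw [hdetν, h2] at hdet
    exact lt_irrefl _ hdet
  have hid := energy_id k r hk (by omega) s t hs ht hV ν htr (hEn hlt) (fun _ => 1) n
  simp only [one_mul] at hid
  have hK := Kc_one k r (Fintype.card V) (Fintype.card B) (Fintype.card E) n hk hr hkr hV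
    (ga_card r s hs) (ga_card k t ht) hn
  have hq : (0 : ℝ) < qq k r := by
    unfold qq
    have h1 : (2 : ℝ) ≤ k := by exact_mod_cast hk
    have h2 : (3 : ℝ) ≤ r := by exact_mod_cast hr
    exact mul_pos (by linarith) (by linarith)
  have hs0 : 0 < Real.sqrt (qq k r) ^ (n + 1) := pow_pos (Real.sqrt_pos.2 hq) _
  have hlow : ∀ i, -(8 / Real.sqrt (qq k r) ^ (n + 1)) ≤ Rem k r (fun _ => 1) n (ν i) :=
    fun i => rem_one_lower k r n hk hr hkr hn (ν i) (hν0 i) (hlt i)
  have hv8 : (Fintype.card V : ℝ) * (8 / Real.sqrt (qq k r) ^ (n + 1)) ≤ 1 := by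
    rw [mul_div_assoc', div_le_one hs0]
    linarith
  have hε : 0 ≤ 8 / Real.sqrt (qq k r) ^ (n + 1) := by positivity
  have hsum : -(1 : ℝ) ≤ ∑ i, Rem k r (fun _ => 1) n (ν i) := by
    have h1 := Finset.sum_le_sum (fun i (_ : i ∈ (Finset.univ : Finset V)) => hlow i)
    rw [Finset.sum_const, Finset.card_univ, nsmul_eq_mul] at h1
    linarith
  have hexp : (qq k r - 1) * (En k r s t - 1 / ((r : ℝ) * k)) =
      (qq k r - 1) * En k r s t - (qq k r - 1) / ((r : ℝ) * k) := by ring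
  rw [hexp] at hE
  have haa : 0 ≤ ∑ j ∈ Icc 1 n, aa k r s t j :=
    Finset.sum_nonneg (fun j _ => aa_nonneg k r hk (by omega) s t j)
  refine ⟨by linarith, ?_⟩
  refine (hgap _).2 (fun i => ?_)
  have hsum' : -(1 : ℝ) ≤ ∑ i' ∈ Finset.univ.erase i, Rem k r (fun _ => 1) n (ν i') := by
    have h1 := Finset.sum_le_sum (fun i' (_ : i' ∈ (Finset.univ : Finset V).erase i) => hlow i')
    rw [Finset.sum_const, Finset.card_erase_of_mem (Finset.mem_univ i), Finset.card_univ,
      nsmul_eq_mul] at h1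
    have h2 : ((Fintype.card V - 1 : ℕ) : ℝ) ≤ Fintype.card V := by
      exact_mod_cast Nat.sub_le _ _
    have h3 : ((Fintype.card V - 1 : ℕ) : ℝ) * (8 / Real.sqrt (qq k r) ^ (n + 1)) ≤
        (Fintype.card V : ℝ) * (8 / Real.sqrt (qq k r) ^ (n + 1)) :=
      mul_le_mul_of_nonneg_right h2 hε
    linarith
  have hsplit := Finset.add_sum_erase Finset.univ (fun i' => Rem k r (fun _ => 1) n (ν i'))
    (Finset.mem_univ i)
  have hR : Rem k r (fun _ => 1) n (ν i) ≤ n + 7 := by linarith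
  have h := rem_one_gap k r n hk hr hkr hn (ν i) (hν0 i) (hlt i) hR
  linarith

end LCD
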