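import Mathlib
import Pool.Agent.Lib_helper55.LCD.Defs

set_option autoImplicit false

namespace LCD

open Finset Matrix

variable {E V B : Type} [Fintype E] [DecidableEq E] [Fintype V] [DecidableEq V]
  [Fintype B] [DecidableEq B]

theorem hb_mul_nonneg {X Y : Matrix E E ℝ} (hX : ∀ g h, 0 ≤ X g h) (hY : ∀ g h, 0 ≤ Y g h) (g h : E) :
    0 ≤ (X * Y) g h := by
  rw [Matrix.mul_apply]
  exact Finset.sum_nonneg fun i _ => mul_nonneg (hX _ _) (hY _ _)

theorem hb_mul_le {X X' Y Y' : Matrix E E ℝ} (hX : ∀ g h, X g h ≤ X' g h)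
    (hY0 : ∀ g h, 0 ≤ Y g h) (hY : ∀ g h, Y g h ≤ Y' g h) (hX0 : ∀ g h, 0 ≤ X' g h) (g h : E) :
    (X * Y) g h ≤ (X' * Y') g h := by
  rw [Matrix.mul_apply, Matrix.mul_apply]
  exact Finset.sum_le_sum fun i _ => mul_le_mul (hX _ _) (hY _ _) (hY0 _ _) (hX0 _ _)

theorem hb_pow_nonneg {X : Matrix E E ℝ} (hX : ∀ g h, 0 ≤ X g h) (n : ℕ) (g h : E) :
    0 ≤ (X ^ n) g h := by
  induction n generalizing g h with
  | zero =>
    rw [pow_zero, Matrix.one_apply]
    split_ifs <;> norm_num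
  | succ n ih =>
    rw [pow_succ]
    exact hb_mul_nonneg ih hX g h

theorem hb_pow_le {X X' : Matrix E E ℝ} (hX0 : ∀ g h, 0 ≤ X g h) (hX : ∀ g h, X g h ≤ X' g h)
    (n : ℕ) (g h : E) : (X ^ n) g h ≤ (X' ^ n) g h := by
  induction n generalizing g h with
  | zero => exact le_of_eq (by rw [pow_zero, pow_zero])
  | succ n ih =>
    rw [pow_succ, pow_succ]
    exact hb_mul_le ih hX0 hX (hb_pow_nonneg (fun a b => (hX0 a b).trans (hX a b)) n) g h

theorem hb_trace_le {X Y : Matrix E E ℝ} (h : ∀ g h, X g h ≤ Y g h) : trace X ≤ trace Y := by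
  unfold Matrix.trace
  exact Finset.sum_le_sum fun i _ => h _ _

/-- the diagonal matrix of `{e, f}` -/
def hb_D (e f : E) : Matrix E E ℝ := Matrix.diagonal fun g => if g = e ∨ g = f then 1 else 0

theorem hb_D_nonneg (e f g h : E) : 0 ≤ hb_D e f g h := by
  unfold hb_D
  rw [Matrix.diagonal_apply]
  split_ifs <;> norm_num

theorem hb_trace_D (e f : E) {X : Matrix E E ℝ} (hX : ∀ g h, 0 ≤ X g h) :
    trace (hb_D e f * X) ≤ X e e + X f f := by
  unfold hb_D
  have h1 : trace (Matrix.diagonal (fun g => if g = e ∨ g = f then (1 : ℝ) else 0) * X) =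
      ∑ g, (if g = e ∨ g = f then (1 : ℝ) else 0) * X g g := by
    unfold Matrix.trace
    refine Finset.sum_congr rfl fun g _ => ?_
    rw [Matrix.diag_apply, Matrix.diagonal_mul]
  rw [h1]
  have h2 : X e e + X f f = ∑ g, ((if g = e then X g g else 0) + if g = f then X g g else 0) := by
    rw [Finset.sum_add_distrib, Finset.sum_ite_eq' Finset.univ e, Finset.sum_ite_eq' Finset.univ f,
      if_pos (Finset.mem_univ _), if_pos (Finset.mem_univ _)]
  rw [h2]
  refine Finset.sum_le_sum fun g _ => ?_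
  have h3 := hX g g
  by_cases h4 : g = e
  · rw [if_pos (Or.inl h4), if_pos h4, one_mul]
    split_ifs <;> linarith
  · by_cases h5 : g = f
    · rw [if_pos (Or.inr h5), if_neg h4, if_pos h5, one_mul, zero_add]
    · rw [if_neg (by rintro (h6 | h6); exacts [h4 h6, h5 h6]), if_neg h4, if_neg h5, zero_mul,
        add_zero]

theorem hb_kil_nonneg (e f : E) {X : Matrix E E ℝ} (hX : ∀ g h, 0 ≤ X g h) (g h : E) :
    0 ≤ kil e f X g h := by
  unfold kil
  split_ifs
  · exact le_rfl
  · exact hX g h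

theorem hb_kil_le (e f : E) {X : Matrix E E ℝ} (hX : ∀ g h, 0 ≤ X g h) (g h : E) :
    kil e f X g h ≤ X g h := by
  unfold kil
  split_ifs
  · exact hX g h
  · exact le_rfl

theorem hb_sub_kil (e f : E) {X : Matrix E E ℝ} (hX : ∀ g h, 0 ≤ X g h) (g h : E) :
    X g h ≤ (kil e f X + (hb_D e f * X + X * hb_D e f)) g h := by
  rw [Matrix.add_apply, Matrix.add_apply]
  unfold hb_D kil
  rw [Matrix.diagonal_mul, Matrix.mul_diagonal]
  have h1 := hX g h
  by_cases h2 : g = e ∨ g = f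
  · rw [if_pos h2, if_pos (by rcases h2 with h2 | h2; exacts [Or.inl h2, Or.inr (Or.inl h2)])]
    split_ifs <;> linarith
  · by_cases h3 : h = e ∨ h = f
    · rw [if_neg h2, if_pos h3, if_pos (Or.inr (Or.inr h3))]
      linarith
    · rw [if_neg h2, if_neg h3, if_neg]
      · linarith
      · rintro (h4 | h4 | h4)
        · exact h2 (Or.inl h4)
        · exact h2 (Or.inr h4)
        · exact h3 h4

/-- one step of the telescoping sum -/
theorem hb_step (e f : E) {A C : Matrix E E ℝ} (hA : ∀ g h, 0 ≤ A g h) (hC : ∀ g h, 0 ≤ C g h)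
    (hAs : Aᵀ = A) (hCs : Cᵀ = C) (n m j : ℕ) (hj : n + m + 1 = j) :
    trace ((kil e f A * kil e f C) ^ n * (A * C) * (A * C) ^ m) -
      trace ((kil e f A * kil e f C) ^ n * (kil e f A * kil e f C) * (A * C) ^ m) ≤
      4 * (((A * C) ^ j) e e + ((A * C) ^ j) f f) := by
  set D := hb_D e f with hD
  set M := A * C with hM
  set M' := kil e f A * kil e f C with hM'
  have hD0 : ∀ g h, 0 ≤ D g h := hb_D_nonneg e f
  have hkA := hb_kil_nonneg e f hA
  have hkC := hb_kil_nonneg e f hC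
  have hM0 : ∀ g h, 0 ≤ M g h := hb_mul_nonneg hA hC
  have hM'0 : ∀ g h, 0 ≤ M' g h := hb_mul_nonneg hkA hkC
  have hM'M : ∀ g h, M' g h ≤ M g h := hb_mul_le (hb_kil_le e f hA) hkC (hb_kil_le e f hC) hA
  -- the difference
  have h1 : ∀ g h, M g h ≤ (M' + (D * M + (2 : ℝ) • (A * D * C) + M * D)) g h := by
    intro g h
    have a1 : ∀ g h, (A * C) g h ≤ ((kil e f A + (D * A + A * D)) * C) g h :=
      hb_mul_le (hb_sub_kil e f hA) hC (fun _ _ => le_rfl) (fun a b => by
        have x1 := hkA a b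
        have x2 := hb_mul_nonneg hD0 hA a b
        have x3 := hb_mul_nonneg hA hD0 a b
        rw [Matrix.add_apply, Matrix.add_apply]
        linarith)
    have a2 : ∀ g h, (kil e f A * C) g h ≤ (kil e f A * (kil e f C + (D * C + C * D))) g h :=
      hb_mul_le (fun _ _ => le_rfl) hC (hb_sub_kil e f hC) hkA
    have a3 : ∀ g h, (kil e f A * (D * C + C * D)) g h ≤ (A * (D * C + C * D)) g h :=
      hb_mul_le (hb_kil_le e f hA) (fun a b => by
        have x2 := hb_mul_nonneg hD0 hC a b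
        have x3 := hb_mul_nonneg hC hD0 a b
        rw [Matrix.add_apply]
        linarith) (fun _ _ => le_rfl) hA
    have b1 := a1 g h
    have b2 := a2 g h
    have b3 := a3 g h
    rw [Matrix.add_mul, Matrix.add_apply] at b1
    rw [Matrix.mul_add, Matrix.add_apply] at b2
    have e1 : (D * A + A * D) * C = D * (A * C) + A * D * C := by
      rw [Matrix.add_mul, Matrix.mul_assoc D]
    have e2 : A * (D * C + C * D) = A * D * C + A * C * D := by
      rw [Matrix.mul_add, ← Matrix.mul_assoc, ← Matrix.mul_assoc]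
    rw [e1, Matrix.add_apply] at b1
    rw [e2, Matrix.add_apply] at b3
    rw [Matrix.add_apply, Matrix.add_apply, Matrix.add_apply, Matrix.smul_apply, smul_eq_mul]
    linarith
  -- multiply
  have hW0 : ∀ g h, 0 ≤ (D * M + (2 : ℝ) • (A * D * C) + M * D) g h := by
    intro g h
    have x1 := hb_mul_nonneg hD0 hM0 g h
    have x2 := hb_mul_nonneg (hb_mul_nonneg hA hD0) hC g h
    have x3 := hb_mul_nonneg hM0 hD0 g h
    rw [Matrix.add_apply, Matrix.add_apply, Matrix.smul_apply, smul_eq_mul]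
    linarith
  have h2 : trace (M' ^ n * M * M ^ m) ≤
      trace (M' ^ n * (M' + (D * M + (2 : ℝ) • (A * D * C) + M * D)) * M ^ m) := by
    apply hb_trace_le
    refine hb_mul_le ?_ (hb_pow_nonneg hM0 m) (fun _ _ => le_rfl) ?_
    · exact hb_mul_le (fun _ _ => le_rfl) hM0 h1 (hb_pow_nonneg hM'0 n)
    · refine hb_mul_nonneg (hb_pow_nonneg hM'0 n) fun g h => ?_
      have x1 := hM'0 g h
      have x2 := hW0 g h
      rw [Matrix.add_apply]
      linarith
  have h3 : trace (M' ^ n * (D * M + (2 : ℝ) • (A * D * C) + M * D) * M ^ m) ≤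
      trace (M ^ n * (D * M + (2 : ℝ) • (A * D * C) + M * D) * M ^ m) := by
    apply hb_trace_le
    refine hb_mul_le ?_ (hb_pow_nonneg hM0 m) (fun _ _ => le_rfl) ?_
    · exact hb_mul_le (hb_pow_le hM'0 hM'M n) hW0 (fun _ _ => le_rfl) (hb_pow_nonneg hM0 n)
    · exact hb_mul_nonneg (hb_pow_nonneg hM0 n) hW0
  rw [Matrix.mul_add, Matrix.add_mul, Matrix.trace_add] at h2
  -- the traces
  have t1 : trace (M ^ n * (D * M) * M ^ m) = trace (D * M ^ j) := by
    rw [Matrix.mul_assoc, Matrix.trace_mul_comm, Matrix.mul_assoc D, Matrix.mul_assoc D,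
      ← pow_succ', ← pow_add]
    congr 3
    omega
  have t3 : trace (M ^ n * (M * D) * M ^ m) = trace (D * M ^ j) := by
    rw [← Matrix.mul_assoc, Matrix.mul_assoc (M ^ n * M) D, Matrix.trace_mul_comm,
      Matrix.mul_assoc D, ← pow_succ, ← pow_add]
    congr 3
    omega
  have hCM : ∀ i, C * M ^ i = (C * A) ^ i * C := by
    intro i
    induction i with
    | zero => rw [pow_zero, pow_zero, Matrix.mul_one, Matrix.one_mul]
    | succ i ih =>
      rw [pow_succ, ← Matrix.mul_assoc, ih, hM, pow_succ]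
      simp only [Matrix.mul_assoc]
  have t2 : trace (M ^ n * (A * D * C) * M ^ m) = trace (D * (C * A) ^ j) := by
    have e1 : M ^ n * (A * D * C) * M ^ m = (M ^ n * A) * (D * (C * M ^ m)) := by
      simp only [Matrix.mul_assoc]
    rw [e1, Matrix.trace_mul_comm, Matrix.mul_assoc D, hCM]
    congr 2
    have e2 : (C * A) ^ m * C * (M ^ n * A) = (C * A) ^ m * ((C * M ^ n) * A) := by
      simp only [Matrix.mul_assoc]
    rw [e2, hCM, Matrix.mul_assoc, ← pow_succ, ← pow_add]
    congr 1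
    omega
  have hT : ((C * A) ^ j)ᵀ = M ^ j := by
    rw [Matrix.transpose_pow, Matrix.transpose_mul, hAs, hCs]
  have hTe : ∀ g, ((C * A) ^ j) g g = (M ^ j) g g := by
    intro g
    rw [← hT, Matrix.transpose_apply]
  have s1 := hb_trace_D e f (hb_pow_nonneg hM0 j)
  have s2 := hb_trace_D e f (hb_pow_nonneg (hb_mul_nonneg hC hA) j)
  rw [hTe, hTe] at s2
  have h4 : trace (M ^ n * (D * M + (2 : ℝ) • (A * D * C) + M * D) * M ^ m) =
      trace (D * M ^ j) + 2 * trace (D * (C * A) ^ j) + trace (D * M ^ j) := by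
    rw [Matrix.mul_add, Matrix.mul_add, Matrix.add_mul, Matrix.add_mul, Matrix.trace_add,
      Matrix.trace_add, t1, t3, Matrix.mul_smul, Matrix.smul_mul, Matrix.trace_smul, t2, smul_eq_mul]
  linarith

theorem hb_tel (e f : E) {A C : Matrix E E ℝ} (hA : ∀ g h, 0 ≤ A g h) (hC : ∀ g h, 0 ≤ C g h)
    (hAs : Aᵀ = A) (hCs : Cᵀ = C) (j n m : ℕ) (hj : n + m = j) :
    trace ((A * C) ^ n * (A * C) ^ m) - trace ((kil e f A * kil e f C) ^ n * (A * C) ^ m) ≤
      4 * n * (((A * C) ^ j) e e + ((A * C) ^ j) f f) := by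
  induction n generalizing m with
  | zero =>
    rw [pow_zero, pow_zero, sub_self]
    simp
  | succ n ih =>
    have h1 := ih (m + 1) (by omega)
    have h2 := hb_step e f hA hC hAs hCs n m j (by omega)
    have e1 : (A * C) ^ n * (A * C) ^ (m + 1) = (A * C) ^ (n + 1) * (A * C) ^ m := by
      rw [← pow_add, ← pow_add]
      congr 1
      omega
    have e2 : (kil e f A * kil e f C) ^ n * (A * C) ^ (m + 1) =
        (kil e f A * kil e f C) ^ n * (A * C) * (A * C) ^ m := by
      rw [pow_succ' (A * C) m, Matrix.mul_assoc ((kil e f A * kil e f C) ^ n)]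
    have e3 : (kil e f A * kil e f C) ^ n * (kil e f A * kil e f C) =
        (kil e f A * kil e f C) ^ (n + 1) := (pow_succ _ n).symm
    rw [e1, e2] at h1
    rw [e3] at h2
    push_cast
    linarith

theorem hb_adj_symm (t : E → B) : (adj t)ᵀ = adj t := by
  ext g h
  rw [Matrix.transpose_apply]
  unfold adj
  by_cases h1 : t g = t h ∧ g ≠ h
  · rw [if_pos h1, if_pos ⟨h1.1.symm, h1.2.symm⟩]
  · rw [if_neg h1, if_neg fun h2 => h1 ⟨h2.1.symm, h2.2.symm⟩]

theorem hb_sto_symm (k : ℕ) (t : E → B) : (sto k t)ᵀ = sto k t := by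
  unfold sto
  rw [Matrix.transpose_smul, hb_adj_symm]

theorem hb_sto_nonneg (k : ℕ) (hk : 2 ≤ k) (t : E → B) (g h : E) : 0 ≤ sto k t g h := by
  unfold sto
  rw [Matrix.smul_apply, smul_eq_mul]
  have h1 : (2 : ℝ) ≤ k := by exact_mod_cast hk
  refine mul_nonneg (inv_nonneg.2 (by linarith)) ?_
  unfold adj
  split_ifs <;> norm_num

theorem hb_kil_sw (k : ℕ) (t : E → B) (e f : E) :
    kil e f (sto k (sw t e f)) = kil e f (sto k t) := by
  ext g h
  unfold kil
  by_cases h1 : g = e ∨ g = f ∨ h = e ∨ h = f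
  · rw [if_pos h1, if_pos h1]
  · rw [if_neg h1, if_neg h1]
    push Not at h1
    obtain ⟨h2, h3, h4, h5⟩ := h1
    unfold sto
    rw [Matrix.smul_apply, Matrix.smul_apply]
    congr 1
    unfold adj sw
    rw [Function.comp_apply, Function.comp_apply, Equiv.swap_apply_of_ne_of_ne h2 h3,
      Equiv.swap_apply_of_ne_of_ne h4 h5]

/-- closed walks through `e` or `f` -/
theorem noise (k r : ℕ) (hk : 2 ≤ k) (hr : 2 ≤ r) (s : E → V) (t : E → B) (e f : E) (j : ℕ) :
    aa k r s (sw t e f) j - trace ((kil e f (sto k t) * kil e f (sto r s)) ^ j)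
      ≤ 4 * j * ((nb k r s (sw t e f) ^ j) e e + (nb k r s (sw t e f) ^ j) f f) := by
  have h := hb_tel e f (hb_sto_nonneg k hk (sw t e f)) (hb_sto_nonneg r hr s)
    (hb_sto_symm k _) (hb_sto_symm r s) j j 0 rfl
  rw [pow_zero, Matrix.mul_one, Matrix.mul_one, hb_kil_sw] at h
  exact h

end LCD
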