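import Mathlib
import Pool.Agent.Lib_helper55.LCD.Defs
import Pool.Agent.Lib_helper55.LCD.AA

set_option autoImplicit false
set_option linter.unusedSectionVars false

namespace LCD

open Finset Matrix

variable {E V B : Type} [Fintype E] [DecidableEq E] [Fintype V] [DecidableEq V]
  [Fintype B] [DecidableEq B]

/-- products of nonnegative matrices are monotone -/
theorem hc_mul_le {A A' C C' : Matrix E E ℝ} (h1 : ∀ e f, 0 ≤ A e f) (h2 : ∀ e f, A e f ≤ A' e f)
    (h3 : ∀ e f, 0 ≤ C e f) (h4 : ∀ e f, C e f ≤ C' e f) (e f : E) :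
    0 ≤ (A * C) e f ∧ (A * C) e f ≤ (A' * C') e f := by
  rw [Matrix.mul_apply, Matrix.mul_apply]
  refine ⟨Finset.sum_nonneg fun g _ => mul_nonneg (h1 _ _) (h3 _ _),
    Finset.sum_le_sum fun g _ => mul_le_mul (h2 _ _) (h4 _ _) (h3 _ _) ((h1 _ _).trans (h2 _ _))⟩

theorem hc_pow_le {A A' : Matrix E E ℝ} (h1 : ∀ e f, 0 ≤ A e f) (h2 : ∀ e f, A e f ≤ A' e f)
    (j : ℕ) : ∀ e f, 0 ≤ (A ^ j) e f ∧ (A ^ j) e f ≤ (A' ^ j) e f := by
  induction j with
  | zero =>
    intro e f
    rw [pow_zero, pow_zero, Matrix.one_apply]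
    split_ifs <;> norm_num
  | succ j ih =>
    intro e f
    rw [pow_succ, pow_succ]
    exact hc_mul_le (fun e f => (ih e f).1) (fun e f => (ih e f).2) h1 h2 e f

theorem hc_kil_nonneg {A : Matrix E E ℝ} (h : ∀ e f, 0 ≤ A e f) (e f g g' : E) :
    0 ≤ kil e f A g g' := by
  rw [kil]
  split_ifs
  · exact le_refl _
  · exact h _ _

theorem hc_kil_le {A : Matrix E E ℝ} (h : ∀ e f, 0 ≤ A e f) (e f g g' : E) :
    kil e f A g g' ≤ A g g' := by
  rw [kil]
  split_ifs
  · exact h _ _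
  · exact le_refl _

theorem hc_entry (k r : ℕ) (hk : 2 ≤ k) (hr : 2 ≤ r) (s : E → V) (t : E → B) (e f : E) (j : ℕ)
    (g g' : E) :
    0 ≤ ((kil e f (sto k t) * kil e f (sto r s)) ^ j) g g' ∧
      ((kil e f (sto k t) * kil e f (sto r s)) ^ j) g g' ≤ (nb k r s t ^ j) g g' := by
  have h1 := hc_mul_le (hc_kil_nonneg (sto_nonneg k hk t) e f) (hc_kil_le (sto_nonneg k hk t) e f)
    (hc_kil_nonneg (sto_nonneg r hr s) e f) (hc_kil_le (sto_nonneg r hr s) e f)
  exact hc_pow_le (fun a b => (h1 a b).1) (fun a b => (h1 a b).2) j g g'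

theorem kil_le (k r : ℕ) (hk : 2 ≤ k) (hr : 2 ≤ r) (s : E → V) (t : E → B) (e f : E) (j : ℕ) :
    trace ((kil e f (sto k t) * kil e f (sto r s)) ^ j) ≤ aa k r s t j := by
  rw [aa, trace, trace]
  exact Finset.sum_le_sum fun g _ => (hc_entry k r hk hr s t e f j g g).2

theorem gain (k r : ℕ) (hk : 2 ≤ k) (hr : 2 ≤ r) (s : E → V) (t : E → B) (e f : E) (j : ℕ)
    (hj : 1 ≤ j) :
    trace ((kil e f (sto k t) * kil e f (sto r s)) ^ j) + (nb k r s t ^ j) e e
      ≤ aa k r s t j := by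
  have h0 : ((kil e f (sto k t) * kil e f (sto r s)) ^ j) e e = 0 := by
    obtain ⟨i, rfl⟩ := Nat.exists_eq_add_of_le' hj
    rw [pow_succ', Matrix.mul_assoc, Matrix.mul_apply]
    refine Finset.sum_eq_zero fun g _ => ?_
    rw [kil, if_pos (Or.inl rfl), zero_mul]
  rw [aa, trace, trace]
  simp only [Matrix.diag_apply]
  rw [← Finset.add_sum_erase univ _ (Finset.mem_univ e), h0, zero_add,
    ← Finset.add_sum_erase univ (fun g => (nb k r s t ^ j) g g) (Finset.mem_univ e), add_comm]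
  exact add_le_add_right
    (Finset.sum_le_sum fun g _ => (hc_entry k r hk hr s t e f j g g).2) _

theorem hc_sto (k : ℕ) (t : E → B) (e f : E) (h1 : t e = t f) (h2 : e ≠ f) :
    sto k t e f = ((k : ℝ) - 1)⁻¹ := by
  rw [sto, Matrix.smul_apply, adj, if_pos ⟨h1, h2⟩, smul_eq_mul, mul_one]

/-- one summand of a product of nonnegative matrices -/
theorem hc_term {A C : Matrix E E ℝ} (h1 : ∀ e f, 0 ≤ A e f) (h3 : ∀ e f, 0 ≤ C e f) (e f g : E) :
    A e g * C g f ≤ (A * C) e f := by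
  rw [Matrix.mul_apply]
  exact Finset.single_le_sum (f := fun g => A e g * C g f)
    (fun g _ => mul_nonneg (h1 _ _) (h3 _ _)) (Finset.mem_univ g)

/-- a cycle gives a closed walk -/
theorem cyc_gain (k r : ℕ) (hk : 2 ≤ k) (hr : 2 ≤ r) (s : E → V) (t : E → B) (l : ℕ)
    (hl : 1 ≤ l) (c : ℕ → E) (hc : Cyc s t l c) :
    1 / qq k r ^ l ≤ (nb k r s t ^ l) (c 0) (c 0) := by
  obtain ⟨hinj, hend, hstep⟩ := hc
  have hq : 0 ≤ 1 / qq k r := by
    have h1 : (0 : ℝ) ≤ (r : ℝ) - 1 := by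
      have : (2 : ℝ) ≤ r := by exact_mod_cast hr
      linarith
    have h2 : (0 : ℝ) ≤ (k : ℝ) - 1 := by
      have : (2 : ℝ) ≤ k := by exact_mod_cast hk
      linarith
    exact one_div_nonneg.2 (mul_nonneg h1 h2)
  have hnb : ∀ e f, 0 ≤ nb k r s t e f := fun e f => by
    have := nb_nonneg k r hk hr s t 1 e f
    rwa [pow_one] at this
  have hmain : ∀ i, i ≤ l → (1 / qq k r) ^ i ≤ (nb k r s t ^ i) (c 0) (c (2 * i)) := by
    intro i
    induction i with
    | zero =>
      intro _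
      rw [pow_zero, pow_zero, mul_zero, Matrix.one_apply_eq]
    | succ i ih =>
      intro hi
      have h1 := ih (by omega)
      have hs1 := (hstep (2 * i) (by omega)).1 (even_two_mul i)
      have hs2 := (hstep (2 * i + 1) (by omega)).2 (by simp)
      have hn1 : c (2 * i) ≠ c (2 * i + 1) := fun h => by
        have := hinj _ _ (by omega) (by omega) h
        omega
      have hn2 : c (2 * i + 1) ≠ c (2 * i + 1 + 1) := fun h => by
        rcases Nat.lt_or_ge (2 * i + 1 + 1) (2 * l) with h3 | h3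
        · have := hinj _ _ (by omega) h3 h
          omega
        · have h4 : 2 * i + 1 + 1 = 2 * l := by omega
          rw [h4, hend] at h
          have := hinj _ _ (by omega) (by omega) h
          omega
      have h2 : 1 / qq k r ≤ nb k r s t (c (2 * i)) (c (2 * i + 1 + 1)) := by
        refine le_trans (le_of_eq ?_) (hc_term (sto_nonneg k hk t) (sto_nonneg r hr s)
          (c (2 * i)) (c (2 * i + 1 + 1)) (c (2 * i + 1)))
        rw [hc_sto k t _ _ hs1 hn1, hc_sto r s _ _ hs2 hn2, qq, one_div, mul_inv, mul_comm]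
      rw [pow_succ, pow_succ]
      refine le_trans (mul_le_mul h1 h2 hq ?_) (hc_term (nb_nonneg k r hk hr s t i) hnb _ _ _)
      exact nb_nonneg k r hk hr s t i _ _
  have h := hmain l (le_refl _)
  rw [hend, _root_.one_div_pow] at h
  exact h

end LCD
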