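import Mathlib
import Pool.Agent.Lib_helper55.LCD.Defs
import Pool.Agent.Lib_helper55.LCD.AA

set_option autoImplicit false

namespace LCD

open Finset Matrix

variable {E V B : Type} [Fintype E] [DecidableEq E] [Fintype V] [DecidableEq V]
  [Fintype B] [DecidableEq B]

theorem he_nn_mul {X Y : Matrix E E ℝ} (hX : ∀ i j, 0 ≤ X i j) (hY : ∀ i j, 0 ≤ Y i j) (i j : E) :
    0 ≤ (X * Y) i j := by
  rw [Matrix.mul_apply]
  exact Finset.sum_nonneg (fun g _ => mul_nonneg (hX i g) (hY g j))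

theorem he_nn_pow {X : Matrix E E ℝ} (hX : ∀ i j, 0 ≤ X i j) (n : ℕ) (i j : E) :
    0 ≤ (X ^ n) i j := by
  induction n generalizing i j with
  | zero =>
    rw [pow_zero, Matrix.one_apply]
    split_ifs <;> norm_num
  | succ n ih =>
    rw [pow_succ]
    exact he_nn_mul (fun i j => ih i j) hX i j

theorem he_col_mul {X Y : Matrix E E ℝ} (hX : ∀ j, ∑ i, X i j = 1) (hY : ∀ j, ∑ i, Y i j = 1)
    (j : E) : ∑ i, (X * Y) i j = 1 := by
  have e : ∑ i, (X * Y) i j = ∑ g, (∑ i, X i g) * Y g j := by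
    simp only [Matrix.mul_apply, Finset.sum_mul]
    rw [Finset.sum_comm]
  rw [e]
  simp only [hX, one_mul]
  exact hY j

theorem he_col_pow {X : Matrix E E ℝ} (hX : ∀ j, ∑ i, X i j = 1) (n : ℕ) (j : E) :
    ∑ i, (X ^ n) i j = 1 := by
  induction n generalizing j with
  | zero =>
    rw [pow_zero]
    simp [Matrix.one_apply]
  | succ n ih =>
    rw [pow_succ]
    exact he_col_mul (fun j => ih j) hX j

theorem he_sto_col (k : ℕ) (hk : 2 ≤ k) (t : E → B) (ht : Fib t k) (e : E) :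
    ∑ f, sto k t f e = 1 := by
  have h : ∀ f, sto k t f e = sto k t e f := by
    intro f
    have := congrFun (congrFun (sto_symm k t) e) f
    rw [Matrix.transpose_apply] at this
    exact this
  simp only [h]
  exact sto_row k hk t ht e

theorem sg_nonneg (k r : ℕ) (hk : 2 ≤ k) (hr : 2 ≤ r) (s : E → V) (t : E → B) (J : ℕ)
    (e f : E) : 0 ≤ sg k r s t J e f := by
  have hP := sto_nonneg k hk t
  have hR := sto_nonneg r hr s
  have hN : ∀ i j, 0 ≤ (nb k r s t) i j := fun i j => he_nn_mul hP hR i j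
  have hRP : ∀ i j, 0 ≤ (sto r s * sto k t) i j := fun i j => he_nn_mul hR hP i j
  unfold sg
  apply Finset.sum_nonneg
  intro i _
  have a1 := fun x y => he_nn_pow hN i x y
  have a2 := fun x y => he_nn_mul (fun x y => a1 x y) hP x y
  have a3 := fun x y => he_nn_pow hRP i x y
  have a4 := fun x y => he_nn_mul (fun x y => a3 x y) hR x y
  have b1 := a1 f e
  have b2 := a1 f f
  have b3 := a2 f e
  have b4 := a2 f f
  have b5 := a3 f e
  have b6 := a3 f f
  have b7 := a4 f e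
  have b8 := a4 f f
  linarith

/-- the sums of two sequences with a recursion -/
theorem he_rec (α β a : ℕ → ℝ) (hα0 : α 0 = 0) (hβ0 : β 0 = 0) (hα : ∀ i, 0 ≤ α i)
    (hβ : ∀ i, 0 ≤ β i) (h1 : ∀ i, β (i + 1) ≤ α i + a (i + 1))
    (h2 : ∀ i, α (i + 1) ≤ 1 / 2 * β i + a (i + 1)) (J : ℕ) :
    ∑ i ∈ Icc 1 J, (α i + β i) ≤ 7 * ∑ i ∈ Icc 1 J, a i := by
  have s1 : ∀ J : ℕ, ∑ i ∈ Icc 1 J, β i ≤ ∑ i ∈ Icc 1 J, α i - α J + ∑ i ∈ Icc 1 J, a i := by
    intro J
    induction J with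
    | zero => simp [hα0]
    | succ J ih =>
      rw [Finset.sum_Icc_succ_top (by omega), Finset.sum_Icc_succ_top (by omega),
        Finset.sum_Icc_succ_top (by omega)]
      have := h1 J
      linarith
  have s2 : ∀ J : ℕ, ∑ i ∈ Icc 1 J, α i ≤
      1 / 2 * (∑ i ∈ Icc 1 J, β i - β J) + ∑ i ∈ Icc 1 J, a i := by
    intro J
    induction J with
    | zero => simp [hβ0]
    | succ J ih =>
      rw [Finset.sum_Icc_succ_top (by omega), Finset.sum_Icc_succ_top (by omega),
        Finset.sum_Icc_succ_top (by omega)]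
      have := h2 J
      linarith
  rw [Finset.sum_add_distrib]
  have t1 := s1 J
  have t2 := s2 J
  have t3 := hα J
  have t4 := hβ J
  linarith

theorem sum_sg (k r : ℕ) (hk : 2 ≤ k) (hr : 3 ≤ r) (s : E → V) (t : E → B) (hs : Fib s r)
    (ht : Fib t k) (J : ℕ) (e : E) :
    ∑ f, sg k r s t J e f ≤ 4 * J + 9 * ∑ j ∈ Icc 1 J, aa k r s t j := by
  have hr2 : 2 ≤ r := by omega
  set P := sto k t with hPdef
  set R := sto r s with hRdef
  have hP : ∀ i j, 0 ≤ P i j := sto_nonneg k hk t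
  have hR : ∀ i j, 0 ≤ R i j := sto_nonneg r hr2 s
  have cP : ∀ j, ∑ i, P i j = 1 := he_sto_col k hk t ht
  have cR : ∀ j, ∑ i, R i j = 1 := he_sto_col r hr2 s hs
  have hN : nb k r s t = P * R := rfl
  -- semiconjugation
  have sc : ∀ i : ℕ, R * (P * R) ^ i = (R * P) ^ i * R := by
    intro i
    have h : SemiconjBy R (P * R) (R * P) := by
      show R * (P * R) = (R * P) * R
      rw [Matrix.mul_assoc]
    exact (h.pow_right i)
  have tr1 : ∀ i : ℕ, trace ((R * P) ^ (i + 1)) = trace ((P * R) ^ (i + 1)) := by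
    intro i
    rw [pow_succ, ← Matrix.mul_assoc, ← sc, Matrix.trace_mul_comm, ← Matrix.mul_assoc, ← pow_succ']
  set α : ℕ → ℝ := fun i => trace ((R * P) ^ i * R) with hα
  set β : ℕ → ℝ := fun i => trace ((P * R) ^ i * P) with hβ
  have dP : trace P = 0 := by
    unfold Matrix.trace
    apply Finset.sum_eq_zero
    intro i _
    show P i i = 0
    rw [hPdef]
    unfold sto
    rw [Matrix.smul_apply, adj_diag, smul_zero]
  have dR : trace R = 0 := by
    unfold Matrix.trace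
    apply Finset.sum_eq_zero
    intro i _
    show R i i = 0
    rw [hRdef]
    unfold sto
    rw [Matrix.smul_apply, adj_diag, smul_zero]
  have hα0 : α 0 = 0 := by
    show trace ((R * P) ^ 0 * R) = 0
    rw [pow_zero, Matrix.one_mul, dR]
  have hβ0 : β 0 = 0 := by
    show trace ((P * R) ^ 0 * P) = 0
    rw [pow_zero, Matrix.one_mul, dP]
  have hPR : ∀ i j, 0 ≤ (P * R) i j := fun i j => he_nn_mul hP hR i j
  have hRP : ∀ i j, 0 ≤ (R * P) i j := fun i j => he_nn_mul hR hP i j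
  have hαn : ∀ i, 0 ≤ α i := fun i =>
    Finset.sum_nonneg (fun x _ => he_nn_mul (fun x y => he_nn_pow hRP i x y) hR x x)
  have hβn : ∀ i, 0 ≤ β i := fun i =>
    Finset.sum_nonneg (fun x _ => he_nn_mul (fun x y => he_nn_pow hPR i x y) hP x x)
  have han : ∀ i, 0 ≤ aa k r s t i := fun i => aa_nonneg k r hk hr2 s t i
  have hk1 : (1 : ℝ) ≤ (k : ℝ) - 1 := by
    have : (2 : ℝ) ≤ k := by exact_mod_cast hk
    linarith
  have hr1 : (2 : ℝ) ≤ (r : ℝ) - 1 := by
    have : (3 : ℝ) ≤ r := by exact_mod_cast hr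
    linarith
  have r1 : ∀ i, β (i + 1) = ((k : ℝ) - 1)⁻¹ * α i +
      (((k : ℝ) - 2) / ((k : ℝ) - 1)) * aa k r s t (i + 1) := by
    intro i
    show trace ((P * R) ^ (i + 1) * P) = ((k : ℝ) - 1)⁻¹ * trace ((R * P) ^ i * R) +
      (((k : ℝ) - 2) / ((k : ℝ) - 1)) * trace ((P * R) ^ (i + 1))
    have e1 : trace ((P * R) ^ (i + 1) * P) = trace ((P * P) * (R * (P * R) ^ i)) := by
      rw [Matrix.trace_mul_comm, pow_succ']
      congr 1
      simp only [Matrix.mul_assoc]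
    rw [e1, hPdef, sto_mul k hk t ht, ← hPdef, Matrix.add_mul, Matrix.trace_add,
      Matrix.smul_mul, Matrix.smul_mul, Matrix.trace_smul, Matrix.trace_smul, Matrix.one_mul,
      sc, ← sc, ← Matrix.mul_assoc, ← pow_succ', smul_eq_mul, smul_eq_mul]
  have r2 : ∀ i, α (i + 1) = ((r : ℝ) - 1)⁻¹ * β i +
      (((r : ℝ) - 2) / ((r : ℝ) - 1)) * aa k r s t (i + 1) := by
    intro i
    show trace ((R * P) ^ (i + 1) * R) = ((r : ℝ) - 1)⁻¹ * trace ((P * R) ^ i * P) +
      (((r : ℝ) - 2) / ((r : ℝ) - 1)) * trace ((P * R) ^ (i + 1))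
    have sc2 : ∀ i : ℕ, P * (R * P) ^ i = (P * R) ^ i * P := by
      intro i
      have h : SemiconjBy P (R * P) (P * R) := by
        show P * (R * P) = (P * R) * P
        rw [Matrix.mul_assoc]
      exact (h.pow_right i)
    have e1 : trace ((R * P) ^ (i + 1) * R) = trace ((R * R) * (P * (R * P) ^ i)) := by
      rw [Matrix.trace_mul_comm, pow_succ']
      congr 1
      simp only [Matrix.mul_assoc]
    rw [e1, hRdef, sto_mul r hr2 s hs, ← hRdef, Matrix.add_mul, Matrix.trace_add,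
      Matrix.smul_mul, Matrix.smul_mul, Matrix.trace_smul, Matrix.trace_smul, Matrix.one_mul,
      ← Matrix.mul_assoc R P, ← pow_succ', tr1, sc2, smul_eq_mul, smul_eq_mul]
  have h1 : ∀ i, β (i + 1) ≤ α i + aa k r s t (i + 1) := by
    intro i
    rw [r1]
    have c1 : ((k : ℝ) - 1)⁻¹ ≤ 1 := inv_le_one_of_one_le₀ hk1
    have c2 : ((k : ℝ) - 2) / ((k : ℝ) - 1) ≤ 1 := by
      rw [div_le_one (by linarith)]; linarith
    have c3 := mul_le_mul_of_nonneg_right c1 (hαn i)
    have c4 := mul_le_mul_of_nonneg_right c2 (han (i + 1))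
    linarith
  have h2 : ∀ i, α (i + 1) ≤ 1 / 2 * β i + aa k r s t (i + 1) := by
    intro i
    rw [r2]
    have c1 : ((r : ℝ) - 1)⁻¹ ≤ 1 / 2 := by
      rw [inv_eq_one_div]
      exact one_div_le_one_div_of_le (by norm_num) hr1
    have c2 : ((r : ℝ) - 2) / ((r : ℝ) - 1) ≤ 1 := by
      rw [div_le_one (by linarith)]; linarith
    have c3 := mul_le_mul_of_nonneg_right c1 (hβn i)
    have c4 := mul_le_mul_of_nonneg_right c2 (han (i + 1))
    linarith
  have hrec := he_rec α β (aa k r s t) hα0 hβ0 hαn hβn h1 h2 J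
  have htot : ∑ f, sg k r s t J e f =
      ∑ i ∈ Icc 1 J, (4 + 2 * aa k r s t i + (α i + β i)) := by
    unfold sg
    rw [Finset.sum_comm]
    apply Finset.sum_congr rfl
    intro i hi
    obtain ⟨i', rfl⟩ : ∃ i', i = i' + 1 := ⟨i - 1, by have := (Finset.mem_Icc.1 hi).1; omega⟩
    simp only [Finset.sum_add_distrib]
    rw [← hPdef, ← hRdef, hN]
    have a1 := he_col_pow (he_col_mul cP cR) (i' + 1) e
    have a2 := he_col_mul (he_col_pow (he_col_mul cP cR) (i' + 1)) cP e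
    have a3 := he_col_pow (he_col_mul cR cP) (i' + 1) e
    have a4 := he_col_mul (he_col_pow (he_col_mul cR cP) (i' + 1)) cR e
    rw [a1, a2, a3, a4]
    have b1 : ∑ x, ((P * R) ^ (i' + 1)) x x = aa k r s t (i' + 1) := rfl
    have b2 : ∑ x, ((P * R) ^ (i' + 1) * P) x x = β (i' + 1) := rfl
    have b3 : ∑ x, ((R * P) ^ (i' + 1)) x x = aa k r s t (i' + 1) := tr1 i'
    have b4 : ∑ x, ((R * P) ^ (i' + 1) * R) x x = α (i' + 1) := rfl
    rw [b1, b2, b3, b4]
    ring
  rw [htot, Finset.sum_add_distrib, Finset.sum_add_distrib, Finset.sum_const, Nat.card_Icc,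
    ← Finset.mul_sum, nsmul_eq_mul]
  have e4 : ((J + 1 - 1 : ℕ) : ℝ) * 4 = 4 * J := by
    rw [Nat.add_sub_cancel]; ring
  rw [e4]
  linarith

end LCD
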