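import Mathlib
import Pool.Agent.Lib_helper55.LCD.Defs

set_option autoImplicit false

namespace LCD

open Finset Matrix

variable {E V B : Type} [Fintype E] [DecidableEq E] [Fintype V] [DecidableEq V]
  [Fintype B] [DecidableEq B]

/-- the gradient map -/
def pa_T (s : E → V) (t : E → B) : ((V → ℝ) × (B → ℝ)) →ₗ[ℝ] (E → ℝ) where
  toFun x := fun g => x.1 (s g) - x.2 (t g)
  map_add' x y := by
    funext g
    show (x.1 (s g) + y.1 (s g)) - (x.2 (t g) + y.2 (t g)) =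
      (x.1 (s g) - x.2 (t g)) + (y.1 (s g) - y.2 (t g))
    ring
  map_smul' a x := by
    funext g
    show a * x.1 (s g) - a * x.2 (t g) = a * (x.1 (s g) - x.2 (t g))
    ring

theorem pa_proj (W : Submodule ℝ (E → ℝ)) : ∃ P : (E → ℝ) →ₗ[ℝ] (E → ℝ),
    (∀ x, P x ∈ W) ∧ (∀ x ∈ W, P x = x) ∧
      ∀ x y : E → ℝ, (P x) ⬝ᵥ y = x ⬝ᵥ (P y) := by
  set K : Submodule ℝ (EuclideanSpace ℝ E) :=
    W.map (WithLp.linearEquiv 2 ℝ (E → ℝ)).symm.toLinearMap with hK
  have hin : ∀ a b : EuclideanSpace ℝ E, inner ℝ a b = (a.ofLp) ⬝ᵥ (b.ofLp) := by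
    intro a b
    rw [EuclideanSpace.inner_eq_star_dotProduct, star_trivial, dotProduct_comm]
  refine ⟨(WithLp.linearEquiv 2 ℝ (E → ℝ)).toLinearMap ∘ₗ K.starProjection.toLinearMap ∘ₗ
    (WithLp.linearEquiv 2 ℝ (E → ℝ)).symm.toLinearMap, ?_, ?_, ?_⟩
  · intro x
    have h := K.starProjection_apply_mem (WithLp.toLp 2 x)
    obtain ⟨y, hy, hy2⟩ := h
    have h2 : K.starProjection (WithLp.toLp 2 x) = WithLp.toLp 2 y := hy2.symm
    show (K.starProjection (WithLp.toLp 2 x)).ofLp ∈ W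
    rw [h2]
    exact hy
  · intro x hx
    show (K.starProjection (WithLp.toLp 2 x)).ofLp = x
    have h : WithLp.toLp 2 x ∈ K := ⟨x, hx, rfl⟩
    rw [Submodule.starProjection_eq_self_iff.2 h]
  · intro x y
    have h := K.inner_starProjection_left_eq_right (WithLp.toLp 2 x) (WithLp.toLp 2 y)
    rw [hin, hin] at h
    exact h

/-- the projection onto the gradients -/
theorem proj (s : E → V) (t : E → B) : ∃ Q : Matrix E E ℝ, Qᵀ = Q ∧ Q * Q = Q ∧
    trace Q ≤ (Fintype.card V : ℝ) + Fintype.card B ∧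
    (∀ (φ : V → ℝ) (ψ : B → ℝ), Q *ᵥ (fun g => φ (s g) - ψ (t g)) = fun g => φ (s g) - ψ (t g)) ∧
    ∀ x : E → ℝ, ∃ (φ : V → ℝ) (ψ : B → ℝ), Q *ᵥ x = fun g => φ (s g) - ψ (t g) := by
  obtain ⟨P, h1, h2, h3⟩ := pa_proj (LinearMap.range (pa_T s t))
  have hQ : ∀ x, LinearMap.toMatrix' P *ᵥ x = P x := by
    intro x
    rw [← Matrix.toLin'_apply, Matrix.toLin'_toMatrix']
  refine ⟨LinearMap.toMatrix' P, ?_, ?_, ?_, ?_, ?_⟩
  · ext e f
    rw [Matrix.transpose_apply]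
    have h4 := h3 (Pi.single e 1) (Pi.single f 1)
    rw [dotProduct_single_one, single_one_dotProduct, ← hQ, ← hQ, mulVec_single_one,
      mulVec_single_one] at h4
    exact h4
  · rw [← LinearMap.toMatrix'_comp]
    congr 1
    exact LinearMap.ext fun x => h2 _ (h1 _)
  · have h4 : LinearMap.IsProj (LinearMap.range (pa_T s t)) P := ⟨h1, h2⟩
    have h5 := h4.trace
    rw [LinearMap.trace_eq_matrix_trace ℝ (Pi.basisFun ℝ E) P] at h5
    have h6 : LinearMap.toMatrix (Pi.basisFun ℝ E) (Pi.basisFun ℝ E) P = LinearMap.toMatrix' P := rfl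
    rw [h6] at h5
    rw [h5]
    have h7 := LinearMap.finrank_range_le (pa_T s t)
    rw [Module.finrank_prod, Module.finrank_fintype_fun_eq_card,
      Module.finrank_fintype_fun_eq_card] at h7
    exact_mod_cast h7
  · intro φ ψ
    rw [hQ]
    exact h2 _ ⟨(φ, ψ), rfl⟩
  · intro x
    rw [hQ]
    obtain ⟨⟨φ, ψ⟩, h4⟩ := h1 x
    exact ⟨φ, ψ, h4.symm⟩

end LCD
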