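import Mathlib
import Pool.Agent.Lib_helper55.LCD.Defs

set_option autoImplicit false

namespace LCD

open Finset Matrix

variable {E V B : Type} [Fintype E] [DecidableEq E] [Fintype V] [DecidableEq V]
  [Fintype B] [DecidableEq B]

/-- alternating sums of a gradient telescope -/
theorem pb_tel (s : E → V) (t : E → B) (l : ℕ) (c : ℕ → E) (hc : Cyc s t l c) (φ : V → ℝ)
    (ψ : B → ℝ) (j : ℕ) (hj : j ≤ l) :
    ∑ i ∈ range (2 * j), (-1 : ℝ) ^ i * (φ (s (c i)) - ψ (t (c i))) =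
      φ (s (c 0)) - φ (s (c (2 * j))) := by
  induction j with
  | zero => simp
  | succ j ih =>
    have h1 : t (c (2 * j)) = t (c (2 * j + 1)) :=
      (hc.2.2 (2 * j) (by omega)).1 (even_two_mul j)
    have h2 : s (c (2 * j + 1)) = s (c (2 * j + 1 + 1)) :=
      (hc.2.2 (2 * j + 1) (by omega)).2 (by
        rw [Nat.not_even_iff_odd]
        exact ⟨j, rfl⟩)
    have h3 : 2 * (j + 1) = 2 * j + 1 + 1 := by ring
    have h4 : (-1 : ℝ) ^ (2 * j) = 1 := by
      rw [pow_mul]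
      norm_num
    have h5 : (-1 : ℝ) ^ (2 * j + 1) = -1 := by
      rw [pow_succ, h4]
      norm_num
    rw [h3, sum_range_succ, sum_range_succ, ih (by omega), h4, h5, h1, ← h2]
    ring

theorem pb_real {u A : ℝ} {l : ℕ} (hl : 1 ≤ l) (h1 : u ^ 2 ≤ ((2 * l - 1 : ℕ) : ℝ) * A)
    (h2 : A + u ^ 2 ≤ u) : u ≤ 1 - 1 / (2 * l) := by
  have hl' : (1 : ℝ) ≤ l := by exact_mod_cast hl
  have h3 : ((2 * l - 1 : ℕ) : ℝ) = 2 * l - 1 := by
    rw [Nat.cast_sub (by omega)]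
    push_cast
    ring
  rw [h3] at h1
  have h4 : u ^ 2 ≤ (2 * l - 1) * (u - u ^ 2) :=
    h1.trans (mul_le_mul_of_nonneg_left (by linarith) (by linarith))
  have h5 : 1 - 1 / (2 * (l : ℝ)) = (2 * l - 1) / (2 * l) := by
    field_simp
  rw [h5, le_div_iff₀ (by positivity)]
  rcases le_or_gt u 0 with h6 | h6
  · have : u * (2 * l) ≤ 0 := mul_nonpos_of_nonpos_of_nonneg h6 (by positivity)
    linarith
  · have h7 : u * (u * (2 * l)) ≤ u * (2 * l - 1) := by nlinarith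
    exact le_of_mul_le_mul_left h7 h6

/-- the leverage of a plot on a cycle -/
theorem lev_cyc (s : E → V) (t : E → B) (Q : Matrix E E ℝ) (hQ : Qᵀ = Q) (hQQ : Q * Q = Q)
    (hr : ∀ x : E → ℝ, ∃ (φ : V → ℝ) (ψ : B → ℝ), Q *ᵥ x = fun g => φ (s g) - ψ (t g))
    (l : ℕ) (hl : 1 ≤ l) (c : ℕ → E) (hc : Cyc s t l c) :
    Q (c 0) (c 0) ≤ 1 - 1 / (2 * l) := by
  obtain ⟨φ, ψ, hφ⟩ := hr (Pi.single (c 0) 1)
  have hh : ∀ g, Q g (c 0) = φ (s g) - ψ (t g) := by
    intro g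
    have h1 := congrFun hφ g
    rw [Matrix.mulVec_single_one] at h1
    exact h1
  have htel := pb_tel s t l c hc φ ψ l le_rfl
  rw [hc.2.1, sub_self] at htel
  obtain ⟨m, hm⟩ : ∃ m, 2 * l = m + 1 := ⟨2 * l - 1, by omega⟩
  have hm' : 2 * l - 1 = m := by omega
  simp only [← hh] at htel
  rw [hm, sum_range_succ', pow_zero, one_mul] at htel
  -- squares
  have hsq : ∑ g, Q g (c 0) ^ 2 = Q (c 0) (c 0) := by
    have h1 := congrFun (congrFun hQQ (c 0)) (c 0)
    rw [Matrix.mul_apply] at h1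
    rw [← h1]
    apply sum_congr rfl
    intro g _
    have h2 : Q (c 0) g = Q g (c 0) := by
      have := congrFun (congrFun hQ g) (c 0)
      rw [Matrix.transpose_apply] at this
      exact this
    rw [h2, sq]
  have himg : ∑ i ∈ range (2 * l), Q (c i) (c 0) ^ 2 ≤ ∑ g, Q g (c 0) ^ 2 := by
    rw [← sum_image (f := fun g => Q g (c 0) ^ 2) (s := range (2 * l)) (g := c)]
    · exact sum_le_sum_of_subset_of_nonneg (subset_univ _) fun _ _ _ => sq_nonneg _
    · intro i hi j hj hij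
      rw [coe_range, Set.mem_Iio] at hi hj
      exact hc.1 i j hi hj hij
  rw [hsq, hm, sum_range_succ'] at himg
  refine pb_real hl (A := ∑ i ∈ range m, Q (c (i + 1)) (c 0) ^ 2) ?_ himg
  have hcs := sq_sum_le_card_mul_sum_sq (s := range m)
    (f := fun i => (-1 : ℝ) ^ (i + 1) * Q (c (i + 1)) (c 0))
  rw [card_range] at hcs
  have h3 : ∑ i ∈ range m, (-1 : ℝ) ^ (i + 1) * Q (c (i + 1)) (c 0) = - Q (c 0) (c 0) := by
    linarith
  rw [h3, neg_sq] at hcs
  rw [hm']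
  refine hcs.trans (le_of_eq ?_)
  congr 1
  apply sum_congr rfl
  intro i _
  rw [mul_pow, ← pow_mul, mul_comm (i + 1) 2, pow_mul]
  norm_num

end LCD
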