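import Mathlib
import Pool.Agent.Lib_helper55.LCD.Defs

set_option autoImplicit false

namespace LCD

open Finset Matrix

variable {E V B : Type} [Fintype E] [DecidableEq E] [Fintype V] [DecidableEq V]
  [Fintype B] [DecidableEq B]

theorem two_of_lev (s : E → V) (t : E → B) (Q : Matrix E E ℝ) (hQ : Qᵀ = Q) (hQQ : Q * Q = Q)
    (hg : ∀ (φ : V → ℝ) (ψ : B → ℝ),
      Q *ᵥ (fun g => φ (s g) - ψ (t g)) = fun g => φ (s g) - ψ (t g))
    (e f : E) (a β : ℝ) (h1 : Q e e ≤ a) (h2 : Q f f ≤ a) (h3 : |Q e f| ≤ β) :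
    Two s t e f (a + β) := by
  intro φ ψ
  set h : E → ℝ := fun g => φ (s g) - ψ (t g) with hh
  have hh' : ∀ g, φ (s g) - ψ (t g) = h g := fun g => rfl
  simp only [hh']
  have hQs : ∀ i j, Q i j = Q j i := fun i j => by
    conv_lhs => rw [← hQ]
    rfl
  have hfix : ∀ g, ∑ j, Q g j * h j = h g := by
    intro g
    have := congrFun (hg φ ψ) g
    simpa [Matrix.mulVec, dotProduct] using this
  have hidem : ∀ i j, ∑ g, Q i g * Q j g = Q i j := by
    intro i j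
    have := congrFun (congrFun hQQ i) j
    rw [Matrix.mul_apply] at this
    rw [← this]
    exact Finset.sum_congr rfl fun g _ => by rw [hQs j g]
  set w : E → ℝ := fun g => h e * Q e g + h f * Q f g with hw
  have hwh : ∑ g, w g * h g = h e ^ 2 + h f ^ 2 := by
    have : ∀ g, w g * h g = h e * (Q e g * h g) + h f * (Q f g * h g) := fun g => by
      rw [hw]; ring
    simp_rw [this]
    rw [Finset.sum_add_distrib, ← Finset.mul_sum, ← Finset.mul_sum, hfix, hfix]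
    ring
  have hww : ∑ g, w g ^ 2 = h e ^ 2 * Q e e + 2 * (h e * h f) * Q e f + h f ^ 2 * Q f f := by
    have : ∀ g, w g ^ 2 = h e ^ 2 * (Q e g * Q e g) + 2 * (h e * h f) * (Q e g * Q f g)
        + h f ^ 2 * (Q f g * Q f g) := fun g => by
      rw [hw]; ring
    simp_rw [this]
    rw [Finset.sum_add_distrib, Finset.sum_add_distrib, ← Finset.mul_sum, ← Finset.mul_sum,
      ← Finset.mul_sum, hidem, hidem, hidem]
  have hS0 : 0 ≤ h e ^ 2 + h f ^ 2 := by positivity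
  have hQe : 0 ≤ Q e e := by
    rw [← hidem e e]
    exact Finset.sum_nonneg fun g _ => mul_self_nonneg _
  have hβ : 0 ≤ β := le_trans (abs_nonneg _) h3
  have hw2 : ∑ g, w g ^ 2 ≤ (a + β) * (h e ^ 2 + h f ^ 2) := by
    rw [hww]
    have i1 : h e ^ 2 * Q e e ≤ h e ^ 2 * a := mul_le_mul_of_nonneg_left h1 (sq_nonneg _)
    have i2 : h f ^ 2 * Q f f ≤ h f ^ 2 * a := mul_le_mul_of_nonneg_left h2 (sq_nonneg _)
    have i3 : 2 * (h e * h f) * Q e f ≤ (h e ^ 2 + h f ^ 2) * β := by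
      have j1 : 2 * (h e * h f) * Q e f ≤ |2 * (h e * h f)| * |Q e f| := by
        rw [← abs_mul]; exact le_abs_self _
      have j2 : |2 * (h e * h f)| ≤ h e ^ 2 + h f ^ 2 := by
        rw [abs_le]
        constructor <;> nlinarith [sq_nonneg (h e - h f), sq_nonneg (h e + h f)]
      calc 2 * (h e * h f) * Q e f ≤ |2 * (h e * h f)| * |Q e f| := j1
        _ ≤ (h e ^ 2 + h f ^ 2) * β := mul_le_mul j2 h3 (abs_nonneg _) hS0
    linarith
  have hcs : (h e ^ 2 + h f ^ 2) ^ 2 ≤ (∑ g, w g ^ 2) * ∑ g, h g ^ 2 := by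
    rw [← hwh]
    exact Finset.sum_mul_sq_le_sq_mul_sq _ _ _
  have hhn : 0 ≤ ∑ g, h g ^ 2 := Finset.sum_nonneg fun g _ => sq_nonneg _
  rcases hS0.eq_or_lt with h0 | h0
  · rw [← h0]
    exact mul_nonneg (by linarith) hhn
  · have h5 : (h e ^ 2 + h f ^ 2) * (h e ^ 2 + h f ^ 2)
        ≤ (h e ^ 2 + h f ^ 2) * ((a + β) * ∑ g, h g ^ 2) := by
      calc (h e ^ 2 + h f ^ 2) * (h e ^ 2 + h f ^ 2) = (h e ^ 2 + h f ^ 2) ^ 2 := by ring
        _ ≤ (∑ g, w g ^ 2) * ∑ g, h g ^ 2 := hcs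
        _ ≤ ((a + β) * (h e ^ 2 + h f ^ 2)) * ∑ g, h g ^ 2 :=
          mul_le_mul_of_nonneg_right hw2 hhn
        _ = (h e ^ 2 + h f ^ 2) * ((a + β) * ∑ g, h g ^ 2) := by ring
    exact le_of_mul_le_mul_left h5 h0

end LCD
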