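import Mathlib
import Pool.Agent.Lib_helper55.LCD.Defs
import Pool.Agent.Lib_helper55.LCD.HE
import Pool.Agent.Lib_helper55.LCD.PA
import Pool.Agent.Lib_helper55.LCD.PB
import Pool.Agent.Lib_helper55.LCD.PC

set_option autoImplicit false

namespace LCD

open Finset Matrix

variable {E V B : Type} [Fintype E] [DecidableEq E] [Fintype V] [DecidableEq V]
  [Fintype B] [DecidableEq B]

theorem pe_card (s : E → V) (r : ℕ) (hs : Fib s r) : (Fintype.card E : ℝ) = Fintype.card V * r := by
  have h1 : (Finset.univ : Finset E).card = ∑ i : V, (univ.filter (fun e => s e = i)).card :=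
    Finset.card_eq_sum_card_fiberwise (fun _ _ => Finset.mem_univ _)
  have h2 : ∑ i : V, (univ.filter (fun e => s e = i)).card = Fintype.card V * r := by
    rw [Finset.sum_congr rfl (fun i _ => hs i), Finset.sum_const, smul_eq_mul, Finset.card_univ]
  have h3 : Fintype.card E = Fintype.card V * r := by
    rw [← h2, ← h1, Finset.card_univ]
  exact_mod_cast h3

/-- Markov -/
theorem pe_markov (w : E → ℝ) (hw : ∀ f, 0 ≤ w f) (T a : ℝ) (hT : ∑ f, w f ≤ T) (ha : 0 < a) :
    ((univ.filter (fun f => a < w f)).card : ℝ) * a ≤ T := by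
  refine le_trans ?_ hT
  rw [← nsmul_eq_mul]
  refine le_trans (Finset.card_nsmul_le_sum _ w a ?_)
    (Finset.sum_le_sum_of_subset_of_nonneg (Finset.filter_subset _ _) (fun f _ _ => hw f))
  intro f hf
  exact (Finset.mem_filter.mp hf).2.le

/-- the choice of the second plot -/
theorem choose_f (k r : ℕ) (hk : 2 ≤ k) (hr : 3 ≤ r) (s : E → V) (t : E → B) (hs : Fib s r)
    (ht : Fib t k) (J l : ℕ) (hl : 1 ≤ l) (c : ℕ → E) (hc : Cyc s t l c) (S : ℝ)
    (hS : ∑ f, sg k r s t J (c 0) f ≤ S)
    (hm : 22 * ((k : ℝ) + r) < Fintype.card E) (hm2 : 44 * (24 * (l : ℝ)) ^ 2 ≤ Fintype.card E) :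
    ∃ f, t (c 0) ≠ t f ∧ s (c 0) ≠ s f ∧
      sg k r s t J (c 0) f ≤ 44 * S / Fintype.card E ∧ Two s t (c 0) f (1 - 1 / (24 * l)) := by
  classical
  obtain ⟨Q, hQ, hQQ, htr, hg, hrg⟩ := proj s t
  set e := c 0 with he
  set m : ℝ := (Fintype.card E : ℝ) with hmdef
  have hl0 : (1 : ℝ) ≤ l := by exact_mod_cast hl
  have hk0 : (2 : ℝ) ≤ k := by exact_mod_cast hk
  have hr0 : (3 : ℝ) ≤ r := by exact_mod_cast hr
  have hm0 : 0 < m := by nlinarith
  have hsg : ∀ f, 0 ≤ sg k r s t J e f := fun f => sg_nonneg k r hk (by omega) s t J e f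
  have hS0 : 0 ≤ S := le_trans (Finset.sum_nonneg (fun f _ => hsg f)) hS
  -- leverages
  have hlev : Q e e ≤ 1 - 1 / (2 * l) := lev_cyc s t Q hQ hQQ hrg l hl c hc
  have hsq : ∀ g, ∑ f, Q g f ^ 2 = Q g g := by
    intro g
    have h1 := congrFun (congrFun hQQ g) g
    rw [Matrix.mul_apply] at h1
    rw [← h1]
    refine Finset.sum_congr rfl fun f _ => ?_
    have h2 : Q f g = Q g f := by
      have := congrFun (congrFun hQ g) f
      rwa [Matrix.transpose_apply] at this
    rw [h2, sq]
  have hQn : ∀ g, 0 ≤ Q g g := fun g => by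
    rw [← hsq g]
    exact Finset.sum_nonneg fun f _ => sq_nonneg _
  -- fibres
  have hv := pe_card s r hs
  have hb := pe_card t k ht
  have hvb : (Fintype.card V : ℝ) + Fintype.card B ≤ 5 / 6 * m := by
    have h1 : (Fintype.card V : ℝ) * 3 ≤ m := by
      rw [hmdef, hv]
      gcongr
    have h2 : (Fintype.card B : ℝ) * 2 ≤ m := by
      rw [hmdef, hb]
      gcongr
    linarith
  set a : ℝ := 1 - 1 / (12 * l) with ha
  set β : ℝ := 1 / (24 * l) with hβ
  have ha1 : 11 / 12 ≤ a := by
    have : 1 / (12 * (l : ℝ)) ≤ 1 / 12 := by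
      apply one_div_le_one_div_of_le (by norm_num)
      linarith
    rw [ha]
    linarith
  have hβ0 : 0 < β := by positivity
  -- bad sets
  set B1 := univ.filter (fun f : E => t f = t e) with hB1
  set B2 := univ.filter (fun f : E => s f = s e) with hB2
  set B3 := univ.filter (fun f : E => 44 * S / m < sg k r s t J e f) with hB3
  set B4 := univ.filter (fun f : E => β ^ 2 < Q e f ^ 2) with hB4
  set B5 := univ.filter (fun f : E => a < Q f f) with hB5
  have c1 : (B1.card : ℝ) = k := by
    have := ht (t e)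
    rw [← this]
  have c2 : (B2.card : ℝ) = r := by
    have := hs (s e)
    rw [← this]
  have c3 : (B3.card : ℝ) ≤ m / 44 := by
    rcases hS0.eq_or_lt with h0 | h0
    · have : B3 = ∅ := by
        rw [hB3, Finset.filter_eq_empty_iff]
        intro f _ hf
        rw [← h0] at hf hS
        have h1 : sg k r s t J e f ≤ ∑ f, sg k r s t J e f :=
          Finset.single_le_sum (f := fun f => sg k r s t J e f) (fun f _ => hsg f)
            (Finset.mem_univ f)
        rw [mul_zero, zero_div] at hf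
        linarith
      rw [this]
      simp
      positivity
    · have h1 := pe_markov (fun f => sg k r s t J e f) hsg S (44 * S / m) hS (by positivity)
      rw [← hB3] at h1
      rw [le_div_iff₀ (by norm_num : (0 : ℝ) < 44)]
      have h2 : (B3.card : ℝ) * (44 * S / m) = (B3.card * 44) * S / m := by ring
      rw [h2, div_le_iff₀ hm0] at h1
      nlinarith
  have c4 : (B4.card : ℝ) ≤ m / 44 := by
    have h1 := pe_markov (fun f => Q e f ^ 2) (fun f => sq_nonneg _) 1 (β ^ 2)
      (by
        rw [hsq]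
        have : 0 ≤ 1 / (2 * (l : ℝ)) := by positivity
        linarith) (by positivity)
    rw [← hB4, hβ, div_pow, one_pow, mul_one_div, div_le_one (by positivity)] at h1
    rw [le_div_iff₀ (by norm_num : (0 : ℝ) < 44)]
    linarith
  have c5 : (B5.card : ℝ) ≤ 10 / 11 * m := by
    have h1 := pe_markov (fun f => Q f f) hQn (5 / 6 * m) a (le_trans htr hvb) (by linarith)
    rw [← hB5] at h1
    have h2 : (0 : ℝ) ≤ B5.card := by positivity
    nlinarith
  have hex : ∃ f, f ∉ B1 ∪ (B2 ∪ (B3 ∪ (B4 ∪ B5))) := by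
    by_contra hne
    push Not at hne
    have h1 : (Finset.univ : Finset E) ⊆ B1 ∪ (B2 ∪ (B3 ∪ (B4 ∪ B5))) := fun f _ => hne f
    have h2 := Finset.card_le_card h1
    have h3 : (B1 ∪ (B2 ∪ (B3 ∪ (B4 ∪ B5)))).card ≤
        B1.card + (B2.card + (B3.card + (B4.card + B5.card))) := by
      refine (Finset.card_union_le _ _).trans (Nat.add_le_add_left ?_ _)
      refine (Finset.card_union_le _ _).trans (Nat.add_le_add_left ?_ _)
      refine (Finset.card_union_le _ _).trans (Nat.add_le_add_left ?_ _)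
      exact Finset.card_union_le _ _
    rw [Finset.card_univ] at h2
    have h4 : m ≤ B1.card + (B2.card + (B3.card + (B4.card + B5.card))) := by
      rw [hmdef]
      exact_mod_cast h2.trans h3
    rw [c1, c2] at h4
    linarith
  obtain ⟨f, hf⟩ := hex
  simp only [Finset.mem_union, not_or] at hf
  obtain ⟨f1, f2, f3, f4, f5⟩ := hf
  rw [hB1, Finset.mem_filter, not_and] at f1
  rw [hB2, Finset.mem_filter, not_and] at f2
  rw [hB3, Finset.mem_filter, not_and, not_lt] at f3
  rw [hB4, Finset.mem_filter, not_and, not_lt] at f4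
  rw [hB5, Finset.mem_filter, not_and, not_lt] at f5
  have g1 := f1 (Finset.mem_univ _)
  have g2 := f2 (Finset.mem_univ _)
  have g3 := f3 (Finset.mem_univ _)
  have g4 := f4 (Finset.mem_univ _)
  have g5 := f5 (Finset.mem_univ _)
  refine ⟨f, fun h => g1 h.symm, fun h => g2 h.symm, g3, ?_⟩
  have h1 : a + β = 1 - 1 / (24 * l) := by
    rw [ha, hβ]
    field_simp
    ring
  rw [← h1]
  refine two_of_lev s t Q hQ hQQ hg e f a β ?_ g5 ?_
  · refine hlev.trans ?_
    rw [ha]
    have : 1 / (12 * (l : ℝ)) ≤ 1 / (2 * l) := by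
      apply one_div_le_one_div_of_le (by positivity)
      linarith
    linarith
  · exact abs_le_of_sq_le_sq g4 hβ0.le

end LCD
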