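import Mathlib
import Pool.Agent.Lib_helper55.LCD.Defs
import Pool.Agent.Lib_helper55.LCD.RA
import Pool.Agent.Lib_helper55.LCD.RB

set_option autoImplicit false

namespace LCD

open Finset Matrix

variable {E V B : Type} [Fintype E] [DecidableEq E] [Fintype V] [DecidableEq V]
  [Fintype B] [DecidableEq B]

/-- one term, split -/
theorem rd_split (u : ℂ) (n : ℕ) :
    ‖u ^ (n + 1) * ((1 + u) / 2) ^ n / (1 - u)‖ =
      ‖u‖ / ‖1 - u‖ * (‖u‖ * (‖1 + u‖ / 2)) ^ n := by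
  rw [norm_div, norm_mul, norm_pow, norm_pow, norm_div]
  have : ‖(2 : ℂ)‖ = 2 := by simp
  rw [this, mul_pow, pow_succ]
  ring

/-- a small root -/
theorem rd_small {u : ℂ} (hu : ‖u‖ ≤ 0.7072) (n : ℕ) :
    ‖u ^ (n + 1) * ((1 + u) / 2) ^ n / (1 - u)‖ ≤ 3 * (3 / 4) ^ n := by
  rw [rd_split]
  have h0 := norm_nonneg u
  have h1 : ‖1 + u‖ ≤ 1.7072 := by
    have := norm_add_le 1 u
    rw [norm_one] at this
    linarith
  have h2 : 0.2928 ≤ ‖1 - u‖ := by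
    have := norm_sub_norm_le 1 u
    rw [norm_one] at this
    linarith
  have h3 : ‖u‖ / ‖1 - u‖ ≤ 3 := by
    rw [div_le_iff₀ (by linarith)]
    linarith
  have h4 : ‖u‖ * (‖1 + u‖ / 2) ≤ 3 / 4 := by
    have : ‖u‖ * (‖1 + u‖ / 2) ≤ 0.7072 * (1.7072 / 2) :=
      mul_le_mul hu (by linarith) (by positivity) (by norm_num)
    linarith
  exact mul_le_mul h3 (pow_le_pow_left₀ (by positivity) h4 n) (by positivity) (by norm_num)

/-- a negative root -/
theorem rd_neg {a : ℝ} (h1 : -1 ≤ a) (h2 : a < 0) (n : ℕ) :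
    ‖(a : ℂ) ^ (n + 1) * ((1 + (a : ℂ)) / 2) ^ n / (1 - (a : ℂ))‖ ≤ 3 * (3 / 4) ^ n := by
  rw [rd_split]
  have e1 : ‖1 + (a : ℂ)‖ = 1 + a := by
    rw [← Complex.ofReal_one, ← Complex.ofReal_add, Complex.norm_real,
      Real.norm_of_nonneg (by linarith)]
  have e2 : ‖1 - (a : ℂ)‖ = 1 - a := by
    rw [← Complex.ofReal_one, ← Complex.ofReal_sub, Complex.norm_real,
      Real.norm_of_nonneg (by linarith)]
  have e3 : ‖(a : ℂ)‖ = -a := by
    rw [Complex.norm_real, Real.norm_eq_abs, abs_of_neg h2]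
  rw [e1, e2, e3]
  have h3 : -a / (1 - a) ≤ 3 := by
    rw [div_le_iff₀ (by linarith)]
    linarith
  have h4 : -a * ((1 + a) / 2) ≤ 3 / 4 := by nlinarith
  have h5 : 0 ≤ -a * ((1 + a) / 2) := mul_nonneg (by linarith) (by linarith)
  exact mul_le_mul h3 (pow_le_pow_left₀ h5 h4 n) (by positivity) (by norm_num)

/-- the large root -/
theorem rd_pos {a γ : ℝ} (h1 : 0 < a) (h2 : a ≤ 1 - γ) (hγ : 0 < γ) (n : ℕ) :
    ‖(a : ℂ) ^ (n + 1) * ((1 + (a : ℂ)) / 2) ^ n / (1 - (a : ℂ))‖ ≤ (1 - γ) ^ n / γ := by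
  rw [rd_split]
  have e1 : ‖1 + (a : ℂ)‖ = 1 + a := by
    rw [← Complex.ofReal_one, ← Complex.ofReal_add, Complex.norm_real,
      Real.norm_of_nonneg (by linarith)]
  have e2 : ‖1 - (a : ℂ)‖ = 1 - a := by
    rw [← Complex.ofReal_one, ← Complex.ofReal_sub, Complex.norm_real,
      Real.norm_of_nonneg (by linarith)]
  have e3 : ‖(a : ℂ)‖ = a := by
    rw [Complex.norm_real, Real.norm_of_nonneg h1.le]
  rw [e1, e2, e3]
  have h3 : a / (1 - a) ≤ 1 / γ := div_le_div₀ (by norm_num) (by linarith) hγ (by linarith)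
  have h4 : a * ((1 + a) / 2) ≤ 1 - γ := by nlinarith
  have h5 : 0 ≤ a * ((1 + a) / 2) := by positivity
  have h6 : a / (1 - a) * (a * ((1 + a) / 2)) ^ n ≤ 1 / γ * (1 - γ) ^ n :=
    mul_le_mul h3 (pow_le_pow_left₀ h5 h4 n) (by positivity) (by positivity)
  refine h6.trans (le_of_eq ?_)
  ring

/-- the binomial cutoff has a tiny remainder below the gap -/
theorem rem_bc (k r n : ℕ) (hk : 2 ≤ k) (hr : 3 ≤ r) (hkr : k ≤ r) (hn : 1 ≤ n) (μ γ : ℝ)
    (h0 : 0 ≤ μ) (hγ0 : 0 < γ) (hγ : γ ≤ 1 / 4) (h1 : μ ≤ (r : ℝ) * k - γ * qq k r) :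
    |Rem k r (bc n) (2 * n) μ| ≤ 6 * (1 - γ) ^ n / γ := by
  have hkR : (2 : ℝ) ≤ k := by exact_mod_cast hk
  have hrR : (3 : ℝ) ≤ r := by exact_mod_cast hr
  have hq : 2 ≤ qq k r := by
    unfold qq
    nlinarith
  have hμ : μ < (r : ℝ) * k := by
    have : 0 < γ * qq k r := by positivity
    linarith
  obtain ⟨x, y, hxy, hT, hP, hcases⟩ := roots k r hk hr hkr μ h0 hμ
  have hrem := rem_bc_eq k r n (by linarith) μ hμ x y hxy hT hP
  have hiq : 1 / qq k r ≤ 1 / 2 := one_div_le_one_div_of_le (by norm_num) hq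
  have hsm : ∀ u : ℂ, ‖u‖ ^ 2 ≤ 1 / 2 → ‖u‖ ≤ 0.7072 := by
    intro u hu
    by_contra hcon
    push Not at hcon
    nlinarith
  have h34 : (3 / 4 : ℝ) ^ n ≤ (1 - γ) ^ n := pow_le_pow_left₀ (by norm_num) (by linarith) n
  have hp0 : 0 < (1 - γ) ^ n := pow_pos (by linarith) n
  have hpg : (1 - γ) ^ n ≤ (1 - γ) ^ n / γ := by
    rw [le_div_iff₀ hγ0]
    nlinarith
  have hnorm : |Rem k r (bc n) (2 * n) μ| = ‖((Rem k r (bc n) (2 * n) μ : ℝ) : ℂ)‖ := by
    rw [Complex.norm_real, Real.norm_eq_abs]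
  rw [hnorm, hrem]
  refine (norm_add_le _ _).trans ?_
  have e6 : 6 * (1 - γ) ^ n / γ = 6 * ((1 - γ) ^ n / γ) := by ring
  rw [e6]
  rcases hcases with ⟨hy, hx⟩ | ⟨a, c, rfl, rfl, hc, hca, ha, hc2⟩ | ⟨a, c, rfl, rfl, ha, hac, hc⟩
  · have hxs := hsm x (by rw [hx]; exact hiq)
    have hys : ‖y‖ ≤ 0.7072 := by
      rw [hy, RCLike.norm_conj]
      exact hxs
    have i1 := rd_small hxs n
    have i2 := rd_small hys n
    linarith
  · have hgap : γ ≤ 1 - a := by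
      have e1 : (1 - (a : ℂ)) * (1 - (c : ℂ)) = (((1 - a) * (1 - c) : ℝ) : ℂ) := by push_cast; ring
      rw [e1] at hT
      have e2 : (1 - a) * (1 - c) = ((r : ℝ) * k - μ) / qq k r := by exact_mod_cast hT
      have e3 : γ ≤ ((r : ℝ) * k - μ) / qq k r := by
        rw [le_div_iff₀ (by linarith)]
        linarith
      nlinarith
    have hcs : ‖(c : ℂ)‖ ≤ 0.7072 := by
      refine hsm _ ?_
      rw [Complex.norm_real, Real.norm_of_nonneg hc.le]
      linarith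
    have i1 := rd_pos (a := a) (γ := γ) (by linarith) (by linarith) hγ0 n
    have i2 := rd_small hcs n
    linarith
  · have i1 := rd_neg ha (by linarith) n
    have i2 := rd_neg (a := c) (by linarith) hc n
    linarith

end LCD
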