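import Mathlib
import Pool.Agent.Lib_helper55.LCD.Defs
import Pool.Agent.Lib_helper55.LCD.AA
import Pool.Agent.Lib_helper55.LCD.GA
import Pool.Agent.Lib_helper55.LCD.KI
import Pool.Agent.Lib_helper55.LCD.RB
import Pool.Agent.Lib_helper55.LCD.RD
import Pool.Agent.Lib_helper55.LCD.SP
import Pool.Agent.Lib_helper55.LCD.QF
import Pool.Agent.Lib_helper55.LCD.PE
import Pool.Agent.Lib_helper55.LCD.HB
import Pool.Agent.Lib_helper55.LCD.HC
import Pool.Agent.Lib_helper55.LCD.HD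
import Pool.Agent.Lib_helper55.LCD.HE
import Pool.Agent.Lib_helper55.LCD.CG

set_option autoImplicit false

namespace LCD

open Finset Matrix

variable {E V B : Type} [Fintype E] [DecidableEq E] [Fintype V] [DecidableEq V]
  [Fintype B] [DecidableEq B]

theorem co_card (k : ℕ) (t : E → B) (ht : Fib t k) : Fintype.card B * k = Fintype.card E := by
  have h := Finset.card_eq_sum_card_fiberwise (s := (univ : Finset E)) (t := (univ : Finset B))
    (f := t) (fun _ _ => mem_univ _)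
  rw [card_univ] at h
  rw [h]
  have h2 : ∀ b ∈ (univ : Finset B), #{a ∈ (univ : Finset E) | t a = b} = k := fun b _ => ht b
  rw [Finset.sum_congr rfl h2]
  simp

theorem co_comp (k : ℕ) (t : E → B) (ht : Fib t k) (σ : Equiv.Perm E) : Fib (t ∘ σ) k := by
  intro i
  rw [← ht i]
  refine Finset.card_bij (fun a _ => σ a) ?_ ?_ ?_
  · intro a ha
    simp only [mem_filter, mem_univ, true_and, Function.comp] at ha ⊢
    exact ha
  · intro a _ b _ h
    exact σ.injective h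
  · intro b hb
    refine ⟨σ.symm b, ?_, by simp⟩
    simp only [mem_filter, mem_univ, true_and, Function.comp, Equiv.apply_symm_apply] at hb ⊢
    exact hb

theorem co_qq (k r : ℕ) (hk : 2 ≤ k) (hr : 3 ≤ r) : 2 ≤ qq k r := by
  unfold qq
  have h1 : (2 : ℝ) ≤ k := by exact_mod_cast hk
  have h2 : (3 : ℝ) ≤ r := by exact_mod_cast hr
  nlinarith

theorem co_sqrt (q : ℝ) (hq : 2 ≤ q) (L : ℕ) : (2 : ℝ) ^ L ≤ Real.sqrt q ^ (2 * L + 1 + 1) := by
  have h1 : Real.sqrt q ^ (2 * L + 1 + 1) = q ^ (L + 1) := by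
    rw [show 2 * L + 1 + 1 = 2 * (L + 1) by ring, pow_mul, Real.sq_sqrt (by linarith)]
  rw [h1]
  calc (2 : ℝ) ^ L ≤ 2 ^ (L + 1) := pow_le_pow_right₀ (by norm_num) (by omega)
    _ ≤ q ^ (L + 1) := by gcongr

theorem co_energy (k r : ℕ) (hk : 2 ≤ k) (hr : 3 ≤ r) (hkr : k ≤ r) (s : E → V) (t : E → B)
    (hs : Fib s r) (ht : Fib t k) (hV : 0 < Fintype.card V) (n : ℕ) (hn : 1 ≤ n) (γ : ℝ)
    (hγ0 : 0 < γ) (hγ : γ ≤ 1 / 4) (hG : Gap k r s t (γ * qq k r)) :
    0 < (Rs k r s t).det ∧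
    |(qq k r - 1) * En k r s t - (Kc k r (Fintype.card V) (Fintype.card B) (Fintype.card E) (bc n)
      (2 * n) + ∑ j ∈ Icc 1 (2 * n), bc n j * aa k r s t j)|
      ≤ Fintype.card V * (6 * (1 - γ) ^ n / γ) := by
  obtain ⟨ν, h0, h1, h2, h3, h4⟩ := spec k r s t hs ht
  have hν : ∀ i, ν i ≤ (r : ℝ) * k - γ * qq k r := (h2 _).1 hG
  have hq := co_qq k r hk hr
  have hlt : ∀ i, ν i < (r : ℝ) * k := by
    intro i
    have := hν i
    have h5 : 0 < γ * qq k r := by positivity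
    linarith
  refine ⟨?_, ?_⟩
  · rw [h3]
    exact Finset.prod_pos fun i _ => by linarith [hlt i]
  have hid := energy_id k r hk (by omega) s t hs ht hV ν h1 (h4 hlt) (bc n) (2 * n)
  rw [hid]
  have e1 : (Kc k r (Fintype.card V) (Fintype.card B) (Fintype.card E) (bc n) (2 * n)
      + ∑ j ∈ Icc 1 (2 * n), bc n j * aa k r s t j + ∑ i, Rem k r (bc n) (2 * n) (ν i))
      - (Kc k r (Fintype.card V) (Fintype.card B) (Fintype.card E) (bc n)
      (2 * n) + ∑ j ∈ Icc 1 (2 * n), bc n j * aa k r s t j)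
      = ∑ i, Rem k r (bc n) (2 * n) (ν i) := by ring
  rw [e1]
  calc |∑ i, Rem k r (bc n) (2 * n) (ν i)| ≤ ∑ i, |Rem k r (bc n) (2 * n) (ν i)| :=
        Finset.abs_sum_le_sum_abs _ _
    _ ≤ ∑ _i : V, 6 * (1 - γ) ^ n / γ :=
        Finset.sum_le_sum fun i _ => rem_bc k r n hk hr hkr hn (ν i) γ (h0 i) hγ0 hγ (hν i)
    _ = Fintype.card V * (6 * (1 - γ) ^ n / γ) := by simp

theorem co_gap_mono (k r : ℕ) (s : E → V) (t : E → B) (δ δ' : ℝ) (h : δ' ≤ δ)
    (hG : Gap k r s t δ) : Gap k r s t δ' := by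
  intro x
  refine le_trans ?_ (hG x)
  have : 0 ≤ x ⬝ᵥ x := by
    unfold dotProduct
    exact Finset.sum_nonneg fun i _ => mul_self_nonneg _
  nlinarith

theorem co_sum (n : ℕ) : ∑ j ∈ Icc 1 (2 * n), (j : ℝ) = (n : ℝ) * (2 * n + 1) := by
  have h : ∀ N : ℕ, ∑ j ∈ Icc 1 N, (j : ℝ) = (N : ℝ) * (N + 1) / 2 := by
    intro N
    induction N with
    | zero => simp
    | succ N ih =>
      rw [Finset.sum_Icc_succ_top (by omega), ih]
      push_cast
      ring
  rw [h]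
  push_cast
  ring

/-- change of the walk counts under the switch -/
theorem co_walk (k r : ℕ) (hk : 2 ≤ k) (hr : 3 ≤ r) (s : E → V) (t : E → B) (hs : Fib s r)
    (ht : Fib t k) (l n : ℕ) (hl : 1 ≤ l) (hln : l ≤ n) (c : ℕ → E) (hc : Cyc s t l c) (f : E)
    (hte : t (c 0) ≠ t f) (hse : s (c 0) ≠ s f) (ρ : ℝ) (hρ : sg k r s t (2 * n) (c 0) f ≤ ρ) :
    ∑ j ∈ Icc 1 (2 * n), bc n j * aa k r s (sw t (c 0) f) j
      - ∑ j ∈ Icc 1 (2 * n), bc n j * aa k r s t j
      ≤ 8 * ((n : ℝ) * (2 * n + 1)) * ρ - 1 / qq k r ^ l := by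
  have hr2 : 2 ≤ r := by omega
  have hρ0 : 0 ≤ ρ := le_trans (sg_nonneg k r hk hr2 s t (2 * n) (c 0) f) hρ
  rw [← Finset.sum_sub_distrib]
  have key : ∀ j ∈ Icc 1 (2 * n), bc n j * aa k r s (sw t (c 0) f) j - bc n j * aa k r s t j
      ≤ 8 * (j : ℝ) * ρ - (if j = l then 1 / qq k r ^ l else 0) := by
    intro j hj
    rw [mem_Icc] at hj
    obtain ⟨hj1, hj2⟩ := hj
    have h1 := noise k r hk hr2 s t (c 0) f j
    have h2 := gain k r hk hr2 s t (c 0) f j hj1
    have h3 := sw_return k r hk hr2 s t hs ht (c 0) f hte hse j (2 * n) hj1 hj2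
    have h4 := nb_nonneg k r hk hr2 s t j (c 0) (c 0)
    have hb0 := bc_nonneg n j
    have hb1 := bc_le_one n j
    have hj0 : (0 : ℝ) ≤ j := by positivity
    have h5 : aa k r s (sw t (c 0) f) j - aa k r s t j
        ≤ 8 * (j : ℝ) * ρ - (nb k r s t ^ j) (c 0) (c 0) := by
      have h6 : 4 * (j : ℝ) * ((nb k r s (sw t (c 0) f) ^ j) (c 0) (c 0)
          + (nb k r s (sw t (c 0) f) ^ j) f f) ≤ 4 * (j : ℝ) * (ρ + ρ) := by
        refine mul_le_mul_of_nonneg_left (add_le_add (h3.1.trans hρ) (h3.2.trans hρ))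
          (by positivity)
      linarith
    have h8 : 0 ≤ 8 * (j : ℝ) * ρ := by positivity
    by_cases hjl : j = l
    · rw [if_pos hjl]
      have hb : bc n j = 1 := bc_one n j (by omega)
      rw [hb]
      have h7 := cyc_gain k r hk hr2 s t l hl c hc
      rw [← hjl] at h7 ⊢
      linarith
    · rw [if_neg hjl]
      have h9 : bc n j * (aa k r s (sw t (c 0) f) j - aa k r s t j) ≤ bc n j * (8 * (j : ℝ) * ρ) :=
        mul_le_mul_of_nonneg_left (by linarith) hb0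
      have h10 : bc n j * (8 * (j : ℝ) * ρ) ≤ 1 * (8 * (j : ℝ) * ρ) :=
        mul_le_mul_of_nonneg_right hb1 h8
      linarith
  refine (Finset.sum_le_sum key).trans ?_
  rw [Finset.sum_sub_distrib, Finset.sum_ite_eq' (Icc 1 (2 * n)) l, if_pos (by
    rw [mem_Icc]; omega), ← Finset.sum_mul, ← Finset.mul_sum, co_sum]

/-- the switch: no short cycles in an optimal design -/
theorem core (k r : ℕ) (hk : 2 ≤ k) (hr : 3 ≤ r) (hkr : k ≤ r) (s : E → V) (t : E → B)
    (hs : Fib s r) (ht : Fib t k) (hV : 3 ≤ Fintype.card V) (hdet : 0 < (Rs k r s t).det)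
    (hmin : ∀ t' : E → B, Fib t' k → 0 < (Rs k r s t').det → En k r s t ≤ En k r s t')
    (l L n : ℕ) (hl : 1 ≤ l) (hL : 8 * (Fintype.card E : ℝ) ≤ 2 ^ L) (hLn : L ≤ n) (hln : l ≤ n)
    (hm : 22 * ((k : ℝ) + r) < Fintype.card E) (hm2 : 44 * (24 * (l : ℝ)) ^ 2 ≤ Fintype.card E)
    (hnum : 8 * ((n : ℝ) * (2 * n + 1)) * (44 * (26 * n + 72) / Fintype.card E)
        + 12 * Fintype.card E
          * ((1 - 1 / (336 * (l : ℝ) * (2 * L + 9))) ^ n * (336 * l * (2 * L + 9)))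
        < 1 / qq k r ^ l) (c : ℕ → E) : ¬ Cyc s t l c := by
  intro hc
  have hq := co_qq k r hk hr
  have hr2 : 2 ≤ r := by omega
  have hk1 : 1 ≤ k := by omega
  have hn1 : 1 ≤ n := by omega
  have hV0 : 0 < Fintype.card V := by omega
  have hl1 : (1 : ℝ) ≤ l := by exact_mod_cast hl
  have hVE : (Fintype.card V : ℝ) ≤ Fintype.card E := by
    have h := co_card r s hs
    have h2 : Fintype.card V ≤ Fintype.card E := by
      rw [← h]
      exact Nat.le_mul_of_pos_right _ (by omega)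
    exact_mod_cast h2
  have hE0 : (0 : ℝ) < Fintype.card E := by
    have : (0 : ℝ) < Fintype.card V := by exact_mod_cast hV0
    linarith
  -- the energy bound
  have hE : (qq k r - 1) * (En k r s t - 1 / ((r : ℝ) * k))
      ≤ (Fintype.card V : ℝ) * ((r : ℝ) - 1) / r + 1 := by
    obtain ⟨σ, h1, h2⟩ := exists_good k r hk hr hkr s t hs ht hV
    refine le_trans ?_ h2
    have h3 := hmin (t ∘ σ) (co_comp k t ht σ) h1
    have h4 : 0 ≤ qq k r - 1 := by linarith
    exact mul_le_mul_of_nonneg_left (by linarith) h4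
  -- gap
  have hgap := (apriori k r (2 * L + 1) hk hr hkr s t hs ht hV0 ⟨L, by ring⟩
    (by
      refine le_trans ?_ (co_sqrt (qq k r) hq L)
      linarith) hdet hE).2
  have hsum := (apriori k r (2 * n + 1) hk hr hkr s t hs ht hV0 ⟨n, by ring⟩
    (by
      refine le_trans ?_ (co_sqrt (qq k r) hq n)
      have : (2 : ℝ) ^ L ≤ 2 ^ n := pow_le_pow_right₀ (by norm_num) hLn
      linarith) hdet hE).1
  have hS : ∑ f, sg k r s t (2 * n) (c 0) f ≤ 26 * n + 72 := by
    have h1 := sum_sg k r hk hr s t hs ht (2 * n) (c 0)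
    have h2 : ∑ j ∈ Icc 1 (2 * n), aa k r s t j ≤ ∑ j ∈ Icc 1 (2 * n + 1), aa k r s t j := by
      rw [Finset.sum_Icc_succ_top (by omega)]
      have := aa_nonneg k r hk hr2 s t (2 * n + 1)
      linarith
    push_cast at h1 hsum
    linarith
  obtain ⟨f, hte, hse, hsg, htwo⟩ := choose_f k r hk hr s t hs ht (2 * n) l hl c hc (26 * n + 72)
    hS hm hm2
  set γ : ℝ := 1 / (336 * (l : ℝ) * (2 * L + 9)) with hγdef
  have hL9 : (0 : ℝ) < 2 * L + 9 := by positivity
  have hden : (0 : ℝ) < 336 * (l : ℝ) * (2 * L + 9) := by positivity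
  have hγ0 : 0 < γ := by positivity
  have hγ4 : γ ≤ 1 / 4 := by
    rw [hγdef]
    apply one_div_le_one_div_of_le (by norm_num)
    have : (0 : ℝ) ≤ L := by positivity
    nlinarith
  have hκ0 : (0 : ℝ) ≤ 1 - 1 / (24 * l) := by
    have : 1 / (24 * (l : ℝ)) ≤ 1 := by
      rw [div_le_one (by positivity)]
      linarith
    linarith
  have hκ1 : 1 - 1 / (24 * (l : ℝ)) < 1 := by
    have : 0 < 1 / (24 * (l : ℝ)) := by positivity
    linarith
  have hδeq : qq k r / (14 * (((2 * L + 1 : ℕ) : ℝ) + 8)) = qq k r / (14 * (2 * L + 9)) := by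
    push_cast
    ring_nf
  rw [hδeq] at hgap
  have hγq : γ * qq k r = (1 - (1 - 1 / (24 * (l : ℝ)))) * (qq k r / (14 * (2 * L + 9))) := by
    rw [hγdef]
    field_simp
    ring
  have hδle : qq k r / (14 * (2 * (L : ℝ) + 9)) ≤ (r : ℝ) * k := by
    have h1 : qq k r / (14 * (2 * (L : ℝ) + 9)) ≤ qq k r := by
      apply div_le_self (by linarith)
      have : (0 : ℝ) ≤ L := by positivity
      linarith
    refine h1.trans ?_
    unfold qq
    have h2 : (2 : ℝ) ≤ k := by exact_mod_cast hk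
    have h3 : (3 : ℝ) ≤ r := by exact_mod_cast hr
    nlinarith
  have hG' : Gap k r s (sw t (c 0) f) (γ * qq k r) := by
    rw [hγq]
    exact gap_switch k r hk1 s t hs ht (c 0) f _ _ hκ0 hκ1 htwo hgap hδle
  have hG : Gap k r s t (γ * qq k r) := by
    refine co_gap_mono k r s t _ _ ?_ hgap
    rw [hγq]
    have h1 : 0 ≤ qq k r / (14 * (2 * (L : ℝ) + 9)) := by positivity
    nlinarith
  obtain ⟨-, hA⟩ := co_energy k r hk hr hkr s t hs ht hV0 n hn1 γ hγ0 hγ4 hG
  have hfib' := fib_sw k t ht (c 0) f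
  obtain ⟨hdet', hA'⟩ := co_energy k r hk hr hkr s (sw t (c 0) f) hs hfib' hV0 n hn1 γ hγ0 hγ4 hG'
  have hle := hmin (sw t (c 0) f) hfib' hdet'
  have hle2 : (qq k r - 1) * En k r s t ≤ (qq k r - 1) * En k r s (sw t (c 0) f) :=
    mul_le_mul_of_nonneg_left hle (by linarith)
  have hw := co_walk k r hk hr s t hs ht l n hl hln c hc f hte hse
    (44 * (26 * n + 72) / Fintype.card E) hsg
  have hA1 := (abs_le.1 hA).1
  have hA2 := (abs_le.1 hA').2
  have hbound : 2 * ((Fintype.card V : ℝ) * (6 * (1 - γ) ^ n / γ))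
      ≤ 12 * Fintype.card E * ((1 - γ) ^ n * (336 * l * (2 * L + 9))) := by
    have h1 : (1 - γ) ^ n / γ = (1 - γ) ^ n * (336 * l * (2 * L + 9)) := by
      rw [hγdef]
      field_simp
    have h2 : 0 ≤ (1 - γ) ^ n := pow_nonneg (by linarith) n
    have h3 : 6 * (1 - γ) ^ n / γ = 6 * ((1 - γ) ^ n * (336 * l * (2 * L + 9))) := by
      rw [← h1]; ring
    rw [h3]
    have h4 : 0 ≤ (1 - γ) ^ n * (336 * (l : ℝ) * (2 * L + 9)) := by positivity
    nlinarith
  linarith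

end LCD
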