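import Mathlib
import Pool.Agent.Lib_helper55.LCD.Defs
import Pool.Agent.Lib_helper88.HCR.Defs

set_option autoImplicit false

namespace LCD

open Finset Matrix HCR

/-- the design matrix of a labelled design -/
def des {v b r : ℕ} (t : Fin v × Fin r → Fin b) : Matrix (Fin v) (Fin b) ℕ :=
  fun i j => (univ.filter (fun e : Fin v × Fin r => e.1 = i ∧ t e = j)).card

/-- no cycle of length at most `2 l` in the incidence graph: no multiple incidence (cycle of
length `2`) and no cycle of length `2 p` with `2 ≤ p ≤ l` -/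
def NoCyc {v b : ℕ} (l : ℕ) (N : Matrix (Fin v) (Fin b) ℕ) : Prop :=
  (∀ i j, N i j ≤ 1) ∧ ∀ p : ℕ, 2 ≤ p → p ≤ l →
    ¬ ∃ (x : ZMod p → Fin v) (y : ZMod p → Fin b), Function.Injective x ∧ Function.Injective y ∧
      ∀ i, N (x i) (y i) ≠ 0 ∧ N (x (i + 1)) (y i) ≠ 0

end LCD
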