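import Mathlib
import Pool.Agent.Lib_helper55.LCD.Defs
import Pool.Agent.Lib_helper55.LCD.Defs2
import Pool.Agent.Lib_helper88.HCR.Defs
import Pool.Agent.Lib_helper88.HCR.du
import Pool.Agent.Lib_helper88.HCR.dv

set_option autoImplicit false

namespace LCD

open Finset Matrix HCR

theorem fib_fst (v r : ℕ) : Fib (fun e : Fin v × Fin r => e.1) r := by
  intro i
  have h : univ.filter (fun e : Fin v × Fin r => e.1 = i) = ({i} : Finset (Fin v)) ×ˢ univ := by
    ext ⟨a, b⟩
    simp [eq_comm]
  rw [h, Finset.card_product, Finset.card_singleton, Finset.card_univ, Fintype.card_fin, one_mul]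

theorem fa_col {v b r : ℕ} (t : Fin v × Fin r → Fin b) (j : Fin b) :
    ∑ i, des t i j = (univ.filter (fun e => t e = j)).card := by
  rw [Finset.card_eq_sum_card_fiberwise (f := fun e : Fin v × Fin r => e.1) (t := univ)
    (fun _ _ => Finset.mem_coe.2 (Finset.mem_univ _))]
  refine Finset.sum_congr rfl fun i _ => ?_
  rw [des, Finset.filter_filter]
  congr 1
  ext e
  simp only [Finset.mem_filter, Finset.mem_univ, true_and]
  exact and_comm

theorem fa_row {v b r : ℕ} (t : Fin v × Fin r → Fin b) (i : Fin v) :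
    ∑ j, des t i j = r := by
  refine Eq.trans ?_ (fib_fst v r i)
  rw [Finset.card_eq_sum_card_fiberwise (f := t) (t := univ)
    (fun _ _ => Finset.mem_coe.2 (Finset.mem_univ _))]
  refine Finset.sum_congr rfl fun j _ => ?_
  rw [des, Finset.filter_filter]

theorem des_isDes {v b k r : ℕ} (t : Fin v × Fin r → Fin b) (ht : Fib t k) :
    IsDes k r (des t) :=
  ⟨fun j => by rw [fa_col, ht j], fun i => fa_row t i⟩

/-- every design has plots -/
theorem exists_plots {v b k r : ℕ} (N : Matrix (Fin v) (Fin b) ℕ) (hN : IsDes k r N) :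
    ∃ t : Fin v × Fin r → Fin b, Fib t k ∧ des t = N := by
  have h1 : ∀ i : Fin v, Nonempty (Fin r ≃ Σ j : Fin b, Fin (N i j)) := by
    intro i
    refine ⟨Fintype.equivOfCardEq ?_⟩
    rw [Fintype.card_sigma, Fintype.card_fin]
    simp only [Fintype.card_fin]
    exact (hN.2 i).symm
  let ε : ∀ i : Fin v, Fin r ≃ Σ j : Fin b, Fin (N i j) := fun i => (h1 i).some
  have h2 : des (fun e : Fin v × Fin r => (ε e.1 e.2).1) = N := by
    ext i j
    have h3 : (univ.filter (fun a : Fin r => (ε i a).1 = j)).card = N i j := by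
      have h4 : (univ.filter (fun x : Σ j : Fin b, Fin (N i j) => x.1 = j)).card = N i j := by
        have h5 : univ.filter (fun x : Σ j : Fin b, Fin (N i j) => x.1 = j) =
            (univ : Finset (Fin (N i j))).map
              ⟨fun a => (⟨j, a⟩ : Σ j : Fin b, Fin (N i j)), fun a b h => by simpa using h⟩ := by
          ext ⟨x, a⟩
          simp only [Finset.mem_filter, Finset.mem_univ, true_and, Finset.mem_map,
            Function.Embedding.coeFn_mk]
          constructor
          · rintro rfl
            exact ⟨a, rfl⟩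
          · rintro ⟨c, hc⟩
            exact (Sigma.mk.inj_iff.1 hc).1.symm
        rw [h5, Finset.card_map, Finset.card_univ, Fintype.card_fin]
      rw [← h4]
      exact Finset.card_equiv (ε i) (fun a => by simp)
    rw [des, ← h3]
    refine Finset.card_bij' (fun e _ => e.2) (fun a _ => (i, a)) ?_ ?_ ?_ ?_
    · intro e he
      obtain ⟨h6, h7⟩ := (Finset.mem_filter.1 he).2
      rw [Finset.mem_filter]
      refine ⟨Finset.mem_univ _, ?_⟩
      rw [← h6]
      exact h7
    · intro a ha
      rw [Finset.mem_filter]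
      exact ⟨Finset.mem_univ _, rfl, (Finset.mem_filter.1 ha).2⟩
    · intro e he
      obtain ⟨h6, h7⟩ := (Finset.mem_filter.1 he).2
      exact Prod.ext h6.symm rfl
    · intro a ha
      rfl
  refine ⟨_, ?_, h2⟩
  intro j
  rw [← fa_col, h2]
  exact hN.1 j

end LCD
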