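import Mathlib
import Pool.Agent.Lib_helper55.LCD.Defs
import Pool.Agent.Lib_helper55.LCD.Defs2
import Pool.Agent.Lib_helper88.HCR.Defs
import Pool.Agent.Lib_helper88.HCR.du
import Pool.Agent.Lib_helper88.HCR.dv

set_option autoImplicit false

namespace LCD

open Finset Matrix HCR

theorem noCyc_transpose {v b l : ℕ} (N : Matrix (Fin v) (Fin b) ℕ) (h : NoCyc l N) :
    NoCyc l N.transpose := by
  refine ⟨fun i j => h.1 j i, ?_⟩
  rintro p hp hpl ⟨x, y, hx, hy, hxy⟩
  apply h.2 p hp hpl
  refine ⟨fun i => y (-i), fun i => x (-i), ?_, ?_, ?_⟩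
  · intro i j hij
    exact neg_injective (hy hij)
  · intro i j hij
    exact neg_injective (hx hij)
  · intro i
    constructor
    · exact (hxy (-i)).1
    · have h2 := (hxy (-(i + 1))).2
      rw [show -(i + 1) + 1 = -i by ring] at h2
      exact h2

theorem cyc_one {v b r : ℕ} (t : Fin v × Fin r → Fin b) (i : Fin v) (j : Fin b)
    (h : 2 ≤ (univ.filter (fun e : Fin v × Fin r => e.1 = i ∧ t e = j)).card) :
    ∃ c : ℕ → Fin v × Fin r, Cyc (fun e : Fin v × Fin r => e.1) t 1 c := by
  have h1 : 1 < (univ.filter (fun e : Fin v × Fin r => e.1 = i ∧ t e = j)).card := by omega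
  obtain ⟨e, f, he, hf, hef⟩ := Finset.one_lt_card_iff.1 h1
  rw [Finset.mem_filter] at he hf
  obtain ⟨_, he1, he2⟩ := he
  obtain ⟨_, hf1, hf2⟩ := hf
  refine ⟨fun n => if n = 1 then f else e, ?_, ?_, ?_⟩
  · intro a c ha hc hac
    have ha' : a = 0 ∨ a = 1 := by omega
    have hc' : c = 0 ∨ c = 1 := by omega
    rcases ha' with rfl | rfl <;> rcases hc' with rfl | rfl
    · rfl
    · exfalso
      simp only [zero_ne_one, if_false, if_true] at hac
      exact hef hac
    · exfalso
      simp only [zero_ne_one, if_false, if_true] at hac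
      exact hef hac.symm
    · rfl
  · simp
  · intro a ha
    have ha' : a = 0 ∨ a = 1 := by omega
    rcases ha' with rfl | rfl
    · refine ⟨fun _ => ?_, fun hne => absurd (by decide : Even 0) hne⟩
      simp only [zero_ne_one, if_false, zero_add, if_true]
      rw [he2, hf2]
    · refine ⟨fun hev => absurd hev (by decide), fun _ => ?_⟩
      simp only [if_true]
      norm_num
      rw [he1, hf1]

theorem cyc_many {v b r p : ℕ} (hp : 2 ≤ p) (t : Fin v × Fin r → Fin b) (x : ZMod p → Fin v)
    (y : ZMod p → Fin b) (hx : Function.Injective x) (hy : Function.Injective y)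
    (h : ∀ i, (univ.filter (fun e : Fin v × Fin r => e.1 = x i ∧ t e = y i)).card ≠ 0 ∧
      (univ.filter (fun e : Fin v × Fin r => e.1 = x (i + 1) ∧ t e = y i)).card ≠ 0) :
    ∃ c : ℕ → Fin v × Fin r, Cyc (fun e : Fin v × Fin r => e.1) t p c := by
  have he : ∀ i, ∃ e : Fin v × Fin r, e.1 = x i ∧ t e = y i := by
    intro i
    obtain ⟨e, he⟩ := Finset.card_ne_zero.1 (h i).1
    exact ⟨e, (Finset.mem_filter.1 he).2⟩
  have hf : ∀ i, ∃ e : Fin v × Fin r, e.1 = x (i + 1) ∧ t e = y i := by
    intro i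
    obtain ⟨e, he⟩ := Finset.card_ne_zero.1 (h i).2
    exact ⟨e, (Finset.mem_filter.1 he).2⟩
  choose e he1 he2 using he
  choose f hf1 hf2 using hf
  have hcast : ∀ a c : ℕ, a < p → c < p → (a : ZMod p) = (c : ZMod p) → a = c := by
    intro a c ha hc hac
    have := (ZMod.natCast_eq_natCast_iff' a c p).1 hac
    rwa [Nat.mod_eq_of_lt ha, Nat.mod_eq_of_lt hc] at this
  have h10 : (1 : ZMod p) ≠ 0 := by
    intro h1
    have h2 : ((1 : ℕ) : ZMod p) = ((0 : ℕ) : ZMod p) := by
      push_cast
      exact h1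
    have := hcast 1 0 (by omega) (by omega) h2
    omega
  have hef : ∀ i j : ZMod p, e i ≠ f j := by
    intro i j hij
    have h1 : y i = y j := by rw [← he2 i, ← hf2 j, hij]
    have h2 : x i = x (j + 1) := by rw [← he1 i, ← hf1 j, hij]
    have h3 := hy h1
    have h4 := hx h2
    rw [h3] at h4
    apply h10
    have h5 : j + 0 = j + 1 := by rw [add_zero]; exact h4
    exact (add_left_cancel h5).symm
  refine ⟨fun n => if n % 2 = 0 then e ((n / 2 : ℕ) : ZMod p) else f ((n / 2 : ℕ) : ZMod p),
    ?_, ?_, ?_⟩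
  · intro i j hi hj hij
    simp only at hij
    by_cases hi2 : i % 2 = 0 <;> by_cases hj2 : j % 2 = 0
    · rw [if_pos hi2, if_pos hj2] at hij
      have h1 : x ((i / 2 : ℕ) : ZMod p) = x ((j / 2 : ℕ) : ZMod p) := by
        rw [← he1, ← he1, hij]
      have h2 := hcast _ _ (by omega) (by omega) (hx h1)
      omega
    · rw [if_pos hi2, if_neg hj2] at hij
      exact absurd hij (hef _ _)
    · rw [if_neg hi2, if_pos hj2] at hij
      exact absurd hij.symm (hef _ _)
    · rw [if_neg hi2, if_neg hj2] at hij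
      have h1 : y ((i / 2 : ℕ) : ZMod p) = y ((j / 2 : ℕ) : ZMod p) := by
        rw [← hf2, ← hf2, hij]
      have h2 := hcast _ _ (by omega) (by omega) (hy h1)
      omega
  · simp only
    rw [if_pos (by omega), if_pos trivial, Nat.mul_div_cancel_left _ (by omega : 0 < 2), Nat.zero_div,
      ZMod.natCast_self, Nat.cast_zero]
  · intro i hi
    simp only
    constructor
    · intro hev
      have h0 : i % 2 = 0 := Nat.even_iff.1 hev
      rw [if_pos h0, if_neg (by omega), he2, hf2, show (i + 1) / 2 = i / 2 by omega]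
    · intro hev
      have h0 : i % 2 = 1 := Nat.not_even_iff.1 hev
      rw [if_neg (by omega), if_pos (by omega), hf1, he1, show (i + 1) / 2 = i / 2 + 1 by omega]
      push_cast
      rfl

end LCD
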