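import Mathlib
import Pool.Agent.Lib_helper55.LCD.Defs
import Pool.Agent.Lib_helper55.LCD.Defs2
import Pool.Agent.Lib_helper88.HCR.Defs
import Pool.Agent.Lib_helper88.HCR.du
import Pool.Agent.Lib_helper88.HCR.dv

set_option autoImplicit false

namespace LCD

open Finset Matrix HCR

/-- concurrences -/
def fd_p {v b : ℕ} (N : Matrix (Fin v) (Fin b) ℕ) (i j : Fin v) : ℕ := ∑ l, N i l * N j l

theorem fd_tr1 {v b : ℕ} (N : Matrix (Fin v) (Fin b) ℕ) :
    trace (N.map (fun x : ℕ => (x : ℝ)) * Matrix.transpose (N.map (fun x : ℕ => (x : ℝ)))) =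
      ((∑ i, fd_p N i i : ℕ) : ℝ) := by
  simp only [Matrix.trace, Matrix.diag, Matrix.mul_apply, Matrix.transpose_apply, Matrix.map_apply,
    fd_p]
  push_cast
  rfl

theorem fd_tr2 {v b : ℕ} (N : Matrix (Fin v) (Fin b) ℕ) :
    trace (N.map (fun x : ℕ => (x : ℝ)) * Matrix.transpose (N.map (fun x : ℕ => (x : ℝ))) *
      (N.map (fun x : ℕ => (x : ℝ)) * Matrix.transpose (N.map (fun x : ℕ => (x : ℝ))))) =
      ((∑ i, ∑ j, fd_p N i j ^ 2 : ℕ) : ℝ) := by
  have h : ∀ i j, (N.map (fun x : ℕ => (x : ℝ)) *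
      Matrix.transpose (N.map (fun x : ℕ => (x : ℝ)))) i j = (fd_p N i j : ℝ) := by
    intro i j
    simp only [Matrix.mul_apply, Matrix.transpose_apply, Matrix.map_apply, fd_p]
    push_cast
    rfl
  have hs : ∀ i j, fd_p N i j = fd_p N j i := by
    intro i j
    exact Finset.sum_congr rfl fun l _ => mul_comm _ _
  simp only [Matrix.trace, Matrix.diag]
  push_cast
  refine Finset.sum_congr rfl fun i _ => ?_
  rw [Matrix.mul_apply]
  refine Finset.sum_congr rfl fun j _ => ?_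
  rw [h, h, hs j i]
  ring

theorem fd_inj {n : ℕ} {a c : Fin n} (h : a ≠ c) :
    Function.Injective (![a, c] : Fin 2 → Fin n) := by
  intro x y hxy
  fin_cases x <;> fin_cases y
  · rfl
  · exact absurd hxy h
  · exact absurd hxy.symm h
  · rfl

theorem fd_lam {v b : ℕ} (N : Matrix (Fin v) (Fin b) ℕ) (h : NoCyc 2 N) (i j : Fin v)
    (hij : i ≠ j) : fd_p N i j ≤ 1 := by
  by_contra hc
  push Not at hc
  have h1 : fd_p N i j = (univ.filter (fun l => N i l ≠ 0 ∧ N j l ≠ 0)).card := by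
    rw [Finset.card_filter]
    unfold fd_p
    refine Finset.sum_congr rfl fun l _ => ?_
    have a := h.1 i l
    have c := h.1 j l
    split_ifs with hl
    · have a1 : N i l = 1 := by omega
      have c1 : N j l = 1 := by omega
      rw [a1, c1]
    · rw [Nat.mul_eq_zero]
      by_contra h0
      push Not at h0
      exact hl h0
  rw [h1] at hc
  obtain ⟨l, hl, l', hl', hne⟩ := Finset.one_lt_card.1 hc
  simp only [Finset.mem_filter, Finset.mem_univ, true_and] at hl hl'
  refine h.2 2 le_rfl le_rfl ⟨(![i, j] : Fin 2 → Fin v), (![l, l'] : Fin 2 → Fin b), ?_, ?_, ?_⟩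
  · exact fd_inj hij
  · exact fd_inj hne
  · intro q
    change (Fin 2) at q
    fin_cases q
    · exact ⟨hl.1, hl.2⟩
    · exact ⟨hl'.2, hl'.1⟩

theorem fd_tot {v b k r : ℕ} (N : Matrix (Fin v) (Fin b) ℕ) (hN : IsDes k r N) :
    ∑ i, ∑ j, fd_p N i j = b * k ^ 2 := by
  unfold fd_p
  have : ∀ i, ∑ j, ∑ l, N i l * N j l = ∑ l, N i l * k := by
    intro i
    rw [Finset.sum_comm]
    refine Finset.sum_congr rfl fun l _ => ?_
    rw [← Finset.mul_sum, hN.1 l]
  simp only [this]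
  rw [Finset.sum_comm]
  have : ∀ l, ∑ i, N i l * k = k ^ 2 := by
    intro l
    rw [← Finset.sum_mul, hN.1 l, pow_two]
  simp only [this]
  simp

theorem fd_diag {v b k r : ℕ} (N : Matrix (Fin v) (Fin b) ℕ) (hN : IsDes k r N)
    (h : ∀ i j, N i j ≤ 1) (i : Fin v) : fd_p N i i = r := by
  rw [← hN.2 i]
  refine Finset.sum_congr rfl fun l _ => ?_
  have := h i l
  interval_cases N i l <;> rfl

theorem fd_diag_ge {v b k r : ℕ} (N : Matrix (Fin v) (Fin b) ℕ) (hN : IsDes k r N)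
    (i : Fin v) : r ≤ fd_p N i i := by
  rw [← hN.2 i]
  refine Finset.sum_le_sum fun l _ => ?_
  exact Nat.le_mul_self _

theorem fd_off {v b k r : ℕ} (N : Matrix (Fin v) (Fin b) ℕ) (hN : IsDes k r N)
    (h : ∀ i, fd_p N i i = r) :
    (∑ i, ∑ j, (if i = j then 0 else fd_p N i j)) + v * r = b * k ^ 2 := by
  rw [← fd_tot N hN]
  have e : ∀ i, ∑ j, fd_p N i j = (∑ j, (if i = j then 0 else fd_p N i j)) + r := by
    intro i
    have : ∀ j, fd_p N i j = (if i = j then 0 else fd_p N i j) + (if i = j then fd_p N i j else 0) := by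
      intro j
      split_ifs <;> simp
    rw [Finset.sum_congr rfl fun j _ => this j, Finset.sum_add_distrib]
    congr 1
    rw [Finset.sum_ite_eq]
    simp [h i]
  rw [Finset.sum_congr rfl fun i _ => e i, Finset.sum_add_distrib]
  simp

theorem fd_sq {v b r : ℕ} (N : Matrix (Fin v) (Fin b) ℕ) (h : ∀ i, fd_p N i i = r) :
    ∑ i, ∑ j, fd_p N i j ^ 2 =
      (∑ i, ∑ j, (if i = j then 0 else fd_p N i j ^ 2)) + v * r ^ 2 := by
  have e : ∀ i, ∑ j, fd_p N i j ^ 2 =
      (∑ j, (if i = j then 0 else fd_p N i j ^ 2)) + r ^ 2 := by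
    intro i
    have : ∀ j, fd_p N i j ^ 2 =
        (if i = j then 0 else fd_p N i j ^ 2) + (if i = j then fd_p N i j ^ 2 else 0) := by
      intro j
      split_ifs <;> simp
    rw [Finset.sum_congr rfl fun j _ => this j, Finset.sum_add_distrib]
    congr 1
    rw [Finset.sum_ite_eq]
    simp [h i]
  rw [Finset.sum_congr rfl fun i _ => e i, Finset.sum_add_distrib]
  simp

/-- linear designs are `(M,S)`-optimal -/
theorem ms_of_noCyc {v b k r : ℕ} (hk : 1 ≤ k) (N : Matrix (Fin v) (Fin b) ℕ)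
    (hN : IsDes k r N) (h : NoCyc 2 N) : MSopt k r N := by
  have hk0 : (0 : ℝ) < (k : ℝ) := by exact_mod_cast hk
  have hd := fd_diag N hN h.1
  have gen : ∀ N' : Matrix (Fin v) (Fin b) ℕ,
      (k : ℝ) * trace (Info k r N') = k * r * v - ((∑ i, fd_p N' i i : ℕ) : ℝ) ∧
      (k : ℝ) ^ 2 * trace (Info k r N' * Info k r N') =
        (k * r) ^ 2 * v - 2 * (k * r) * ((∑ i, fd_p N' i i : ℕ) : ℝ) +
          ((∑ i, ∑ j, fd_p N' i j ^ 2 : ℕ) : ℝ) := by
    intro N'
    obtain ⟨h1, h2⟩ := dv_gen (n := v) (k : ℝ) (r : ℝ) hk0.ne'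
      (N'.map (fun x : ℕ => (x : ℝ)) * Matrix.transpose (N'.map (fun x : ℕ => (x : ℝ))))
    rw [fd_tr1] at h1 h2
    rw [fd_tr2] at h2
    exact ⟨h1, h2⟩
  have hsum : ∑ i, fd_p N i i = v * r := by
    rw [Finset.sum_congr rfl fun i _ => hd i]
    simp
  refine ⟨hN, ?_, ?_⟩
  · intro N' hN'
    have a := (gen N).1
    have c := (gen N').1
    have hle : ∑ i, fd_p N i i ≤ ∑ i, fd_p N' i i :=
      Finset.sum_le_sum fun i _ => by rw [hd i]; exact fd_diag_ge N' hN' i
    have hle' : ((∑ i, fd_p N i i : ℕ) : ℝ) ≤ ((∑ i, fd_p N' i i : ℕ) : ℝ) := by exact_mod_cast hle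
    refine le_of_mul_le_mul_left ?_ hk0
    rw [a, c]
    linarith
  · intro N' hN' heq
    have a := (gen N).1
    have c := (gen N').1
    rw [heq, a] at c
    have e1 : ∑ i, fd_p N' i i = ∑ i, fd_p N i i := by
      have : ((∑ i, fd_p N' i i : ℕ) : ℝ) = ((∑ i, fd_p N i i : ℕ) : ℝ) := by linarith
      exact_mod_cast this
    have hd' : ∀ i, fd_p N' i i = r := by
      by_contra hcon
      push Not at hcon
      obtain ⟨i0, hi0⟩ := hcon
      have hlt : ∑ i, fd_p N i i < ∑ i, fd_p N' i i := by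
        refine Finset.sum_lt_sum (fun i _ => by rw [hd i]; exact fd_diag_ge N' hN' i)
          ⟨i0, Finset.mem_univ _, ?_⟩
        rw [hd i0]
        exact lt_of_le_of_ne (fd_diag_ge N' hN' i0) hi0.symm
      omega
    have o1 := fd_off N hN hd
    have o2 := fd_off N' hN' hd'
    have s1 := fd_sq N hd
    have s2 := fd_sq N' hd'
    have l1 : ∑ i, ∑ j, (if i = j then 0 else fd_p N i j ^ 2) ≤
        ∑ i, ∑ j, (if i = j then 0 else fd_p N i j) := by
      refine Finset.sum_le_sum fun i _ => Finset.sum_le_sum fun j _ => ?_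
      split_ifs with hij
      · exact le_rfl
      · have := fd_lam N h i j hij
        interval_cases fd_p N i j <;> simp
    have l2 : ∑ i, ∑ j, (if i = j then 0 else fd_p N' i j) ≤
        ∑ i, ∑ j, (if i = j then 0 else fd_p N' i j ^ 2) := by
      refine Finset.sum_le_sum fun i _ => Finset.sum_le_sum fun j _ => ?_
      split_ifs with hij
      · exact le_rfl
      · rw [pow_two]
        exact Nat.le_mul_self _
    have fin : ∑ i, ∑ j, fd_p N i j ^ 2 ≤ ∑ i, ∑ j, fd_p N' i j ^ 2 := by omega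
    have fin' : ((∑ i, ∑ j, fd_p N i j ^ 2 : ℕ) : ℝ) ≤ ((∑ i, ∑ j, fd_p N' i j ^ 2 : ℕ) : ℝ) := by
      exact_mod_cast fin
    have a2 := (gen N).2
    have c2 := (gen N').2
    rw [e1] at c2
    refine le_of_mul_le_mul_left ?_ (pow_pos hk0 2)
    rw [a2, c2]
    linarith

/-- `A`-optimality is invariant under transposition -/
theorem aopt_transpose {v b k r : ℕ} (hv : 1 ≤ v) (hb : 1 ≤ b) (hk : 1 ≤ k) (hr : 1 ≤ r)
    (N : Matrix (Fin v) (Fin b) ℕ) (h : Aopt k r N) : Aopt r k N.transpose := by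
  obtain ⟨h1, h2, h3⟩ := h
  have hk0 : (0 : ℝ) < (k : ℝ) := by exact_mod_cast hk
  have hr0 : (0 : ℝ) < (r : ℝ) := by exact_mod_cast hr
  refine ⟨(dual_des N).1 h1, (dual_conn hv hb hk hr N h1).1 h2, ?_⟩
  intro N' hN' hC'
  have t1 : IsDes k r N'.transpose := by
    rw [dual_des, Matrix.transpose_transpose]
    exact hN'
  have t2 : Conn k r N'.transpose := by
    rw [dual_conn hv hb hk hr N'.transpose t1, Matrix.transpose_transpose]
    exact hC'
  have a := dual_PhiA hv hb hk hr N h1 h2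
  have c := dual_PhiA hv hb hk hr N'.transpose t1 t2
  rw [Matrix.transpose_transpose] at c
  have m := h3 N'.transpose t1 t2
  have m' : (PhiA k r N - 1) / k ≤ (PhiA k r N'.transpose - 1) / k :=
    div_le_div_of_nonneg_right (by linarith) hk0.le
  rw [a, c] at m'
  have m2 : (PhiA r k N.transpose - 1) / r ≤ (PhiA r k N' - 1) / r := by linarith
  have m3 := (div_le_div_iff_of_pos_right hr0).1 m2
  linarith

/-- an `A`-optimal design exists if a connected one exists, and then `Q1` -/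
theorem q1_of_all {v b k r : ℕ} (h : ∀ N : Matrix (Fin v) (Fin b) ℕ, Aopt k r N → MSopt k r N) :
    Q1 v b k r := by
  intro N _ _ hmin N' hN' hC'
  have hf : ({M : Fin v → Fin b → ℕ | IsDes k r M ∧ Conn k r M}).Finite := by
    refine (Set.finite_Icc (0 : Fin v → Fin b → ℕ) (fun _ _ => k)).subset ?_
    rintro M ⟨hM, -⟩
    refine ⟨fun i j => Nat.zero_le _, fun i j => ?_⟩
    have := hM.1 j
    rw [← this]
    exact Finset.single_le_sum (f := fun i => M i j) (fun _ _ => Nat.zero_le _) (Finset.mem_univ i)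
  obtain ⟨M, hM, hle⟩ := Set.exists_min_image _ (fun M => PhiA k r M) hf ⟨N', hN', hC'⟩
  have hA : Aopt k r M := ⟨hM.1, hM.2, fun M' h1 h2 => hle M' ⟨h1, h2⟩⟩
  exact (hmin M (h M hA) hM.2).trans (hle N' ⟨hN', hC'⟩)

end LCD
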