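import Mathlib
import Pool.Agent.Lib_helper55.LCD.Defs

set_option autoImplicit false

namespace LCD

open Finset Matrix

variable {E V B : Type} [Fintype E] [DecidableEq E] [Fintype V] [DecidableEq V]
  [Fintype B] [DecidableEq B]

/-- the binary logarithm -/
theorem nu_L {m : ℕ} (hm : 2 ≤ m) (hx : 1 ≤ Real.log m) :
    ∃ L : ℕ, 8 * (m : ℝ) ≤ 2 ^ L ∧ (L : ℝ) ≤ 6 * Real.log m := by
  refine ⟨Nat.clog 2 (8 * m), ?_, ?_⟩
  · have := Nat.le_pow_clog (b := 2) (by norm_num) (8 * m)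
    exact_mod_cast this
  · have h1 := Nat.pow_pred_clog_lt_self (b := 2) (by norm_num) (x := 8 * m) (by omega)
    set L := Nat.clog 2 (8 * m) with hL
    have hmR : (0 : ℝ) < m := by positivity
    have h2 : ((2 : ℝ) ^ (L.pred)) < 8 * m := by exact_mod_cast h1
    have h3 := Real.log_lt_log (by positivity) h2
    rw [Real.log_pow, Real.log_mul (by norm_num) hmR.ne',
      show (8 : ℝ) = 2 ^ 3 by norm_num, Real.log_pow] at h3
    have h4 : (L : ℝ) ≤ (L.pred : ℕ) + 1 := by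
      have : L ≤ L.pred + 1 := by
        rw [Nat.pred_eq_sub_one]
        omega
      exact_mod_cast this
    have h5 := Real.log_two_gt_d9
    push_cast at h3
    nlinarith

/-- the final estimate, with real numbers -/
theorem nu_fin {m l Q x n K : ℝ} (hl : 1 ≤ l) (hQ : 2 ≤ Q) (hx : 1 ≤ x) (hm : 1 ≤ m)
    (hC : 10 ^ 19 * l ^ 3 * x ^ 6 * Q ≤ m) (hn1 : 1 ≤ n) (hn : n ≤ 28225 * l * x ^ 2)
    (hK0 : 0 ≤ K) (hK : K ≤ 7056 * l * x) :
    8 * (n * (2 * n + 1)) * (44 * (26 * n + 72) / m) + 12 * m * (1 / m ^ 4 * K) < 1 / Q := by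
  have hm0 : 0 < m := by linarith
  have hQ0 : 0 < Q := by linarith
  have h1 : 8 * (n * (2 * n + 1)) * (44 * (26 * n + 72) / m) ≤ 103488 * n ^ 3 / m := by
    rw [mul_div_assoc', div_le_div_iff_of_pos_right hm0]
    have a1 : n * (2 * n + 1) ≤ 3 * n ^ 2 := by nlinarith
    have a2 : 44 * (26 * n + 72) ≤ 4312 * n := by linarith
    have a3 : 8 * (n * (2 * n + 1)) * (44 * (26 * n + 72)) ≤ (8 * (3 * n ^ 2)) * (4312 * n) :=
      mul_le_mul (by linarith) a2 (by positivity) (by positivity)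
    refine a3.trans (le_of_eq ?_)
    ring
  have h2 : n ^ 3 ≤ (28225 * l * x ^ 2) ^ 3 := pow_le_pow_left₀ (by linarith) hn 3
  have h3 : 103488 * n ^ 3 ≤ 2400000000000000000 * (l ^ 3 * x ^ 6) := by
    have e1 : (28225 * l * x ^ 2) ^ 3 = 22485463890625 * (l ^ 3 * x ^ 6) := by ring
    rw [e1] at h2
    have : 0 ≤ l ^ 3 * x ^ 6 := by positivity
    nlinarith
  have hlx : 1 ≤ l ^ 3 * x ^ 6 := by
    have a1 : 1 ≤ l ^ 3 := one_le_pow₀ hl
    have a2 : 1 ≤ x ^ 6 := one_le_pow₀ hx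
    nlinarith
  have hlx2 : l * x ≤ l ^ 3 * x ^ 6 := by
    have a1 : l ≤ l ^ 3 := by nlinarith [mul_nonneg (by linarith : 0 ≤ l) (by linarith : 0 ≤ l - 1)]
    have a2 : x ≤ x ^ 6 := le_self_pow₀ hx (by norm_num)
    exact mul_le_mul a1 a2 (by linarith) (by positivity)
  set T := l ^ 3 * x ^ 6 with hT
  have hCT : 10 ^ 19 * (T * Q) ≤ m := by
    rw [hT]
    linarith
  have hTQ : 0 < T * Q := by positivity
  have h4 : 12 * m * (1 / m ^ 4 * K) ≤ 100000 * T / m := by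
    have e1 : 12 * m * (1 / m ^ 4 * K) = 12 * K / m ^ 3 := by
      field_simp
    rw [e1, div_le_div_iff₀ (by positivity) hm0]
    have a1 : 12 * K ≤ 100000 * T := by nlinarith
    have a2 : m ≤ m ^ 3 := le_self_pow₀ hm (by norm_num)
    exact mul_le_mul a1 a2 hm0.le (by positivity)
  have h5 : 103488 * n ^ 3 / m ≤ 2400000000000000000 * T / m :=
    div_le_div_of_nonneg_right h3 hm0.le
  have h6 : 2400000000000000000 * T / m + 100000 * T / m < 1 / Q := by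
    rw [← add_div, div_lt_div_iff₀ hm0 hQ0]
    nlinarith
  linarith

theorem numeric : ∃ C : ℝ, 0 < C ∧ ∀ (m l : ℕ) (q : ℝ), 2 ≤ q → 1 ≤ l → 2 ≤ m →
    C * (l : ℝ) ^ 3 * Real.log m ^ 6 * q ^ l ≤ m →
    ∃ L n : ℕ, 8 * (m : ℝ) ≤ 2 ^ L ∧ L ≤ n ∧ l ≤ n ∧ 44 * (24 * (l : ℝ)) ^ 2 ≤ m ∧ 88 * q < m ∧
      8 * ((n : ℝ) * (2 * n + 1)) * (44 * (26 * n + 72) / m)
        + 12 * m * ((1 - 1 / (336 * (l : ℝ) * (2 * L + 9))) ^ n * (336 * l * (2 * L + 9)))
        < 1 / q ^ l := by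
  refine ⟨10 ^ 19, by norm_num, ?_⟩
  intro m l q hq hl hm hC
  have hlR : (1 : ℝ) ≤ l := by exact_mod_cast hl
  have hmR : (2 : ℝ) ≤ m := by exact_mod_cast hm
  have hm0 : (0 : ℝ) < m := by linarith
  have hQq : q ≤ q ^ l := le_self_pow₀ (by linarith) (by omega)
  have hQ : 2 ≤ q ^ l := hq.trans hQq
  have hl3 : (1 : ℝ) ≤ (l : ℝ) ^ 3 := one_le_pow₀ hlR
  -- the logarithm is at least one
  have hx : 1 ≤ Real.log m := by
    have h1 : Real.log 2 ≤ Real.log m := Real.log_le_log (by norm_num) hmR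
    have h2 := Real.log_two_gt_d9
    have h3 : (0.69 : ℝ) ^ 6 ≤ Real.log m ^ 6 := pow_le_pow_left₀ (by norm_num) (by linarith) 6
    have h4 : (0.1 : ℝ) ≤ Real.log m ^ 6 := le_trans (by norm_num) h3
    have h5 : (1 : ℝ) * 0.1 * 2 ≤ (l : ℝ) ^ 3 * Real.log m ^ 6 * q ^ l :=
      mul_le_mul (mul_le_mul hl3 h4 (by norm_num) (by positivity)) hQ (by norm_num) (by positivity)
    have h6 : (3 : ℝ) ≤ m := by
      have : 10 ^ 19 * ((1 : ℝ) * 0.1 * 2) ≤ 10 ^ 19 * ((l : ℝ) ^ 3 * Real.log m ^ 6 * q ^ l) :=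
        mul_le_mul_of_nonneg_left h5 (by norm_num)
      have e1 : (10 : ℝ) ^ 19 * ((l : ℝ) ^ 3 * Real.log m ^ 6 * q ^ l) =
        10 ^ 19 * (l : ℝ) ^ 3 * Real.log m ^ 6 * q ^ l := by ring
      rw [e1] at this
      refine le_trans ?_ (this.trans hC)
      norm_num
    rw [Real.le_log_iff_exp_le hm0]
    have := Real.exp_one_lt_d9
    linarith
  obtain ⟨L, hL1, hL2⟩ := nu_L hm hx
  set x := Real.log m with hxdef
  have hx0 : 0 < x := by linarith
  set K : ℝ := 336 * (l : ℝ) * (2 * L + 9) with hK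
  have hLR : (0 : ℝ) ≤ L := Nat.cast_nonneg L
  have hKl : 3024 * (l : ℝ) ≤ K := by rw [hK]; nlinarith
  have hK0 : 0 < K := by linarith
  have hKu : K ≤ 7056 * l * x := by
    rw [hK]
    have : 2 * (L : ℝ) + 9 ≤ 21 * x := by linarith
    nlinarith
  have hKL : (L : ℝ) ≤ K := by rw [hK]; nlinarith
  set n := ⌈4 * x * K⌉₊ with hn
  have hn1 : 4 * x * K ≤ n := Nat.le_ceil _
  have hn2 : (n : ℝ) < 4 * x * K + 1 := Nat.ceil_lt_add_one (by positivity)
  have hKn : K ≤ n := by nlinarith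
  have hn3 : (n : ℝ) ≤ 28225 * l * x ^ 2 := by
    have h1 : 4 * x * K ≤ 4 * x * (7056 * l * x) :=
      mul_le_mul_of_nonneg_left hKu (by positivity)
    have h2 : 1 ≤ (l : ℝ) * x ^ 2 := by
      have : 1 ≤ x ^ 2 := one_le_pow₀ hx
      nlinarith
    nlinarith
  have hx6 : 1 ≤ x ^ 6 := one_le_pow₀ hx
  have hbig : 10 ^ 19 * (l : ℝ) ^ 3 * q ^ l ≤ m := by
    refine le_trans ?_ hC
    have : 0 ≤ 10 ^ 19 * (l : ℝ) ^ 3 * q ^ l := by positivity
    nlinarith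
  refine ⟨L, n, hL1, ?_, ?_, ?_, ?_, ?_⟩
  · have : (L : ℝ) ≤ n := hKL.trans hKn
    exact_mod_cast this
  · have : (l : ℝ) ≤ n := by linarith
    exact_mod_cast this
  · have h1 : (l : ℝ) ^ 2 ≤ (l : ℝ) ^ 3 := pow_le_pow_right₀ hlR (by norm_num)
    have h2 : 10 ^ 19 * (l : ℝ) ^ 3 * 2 ≤ 10 ^ 19 * (l : ℝ) ^ 3 * q ^ l :=
      mul_le_mul_of_nonneg_left hQ (by positivity)
    nlinarith
  · have h2 : 10 ^ 19 * 1 * q ≤ 10 ^ 19 * (l : ℝ) ^ 3 * q ^ l :=
      mul_le_mul (by linarith) hQq (by linarith) (by positivity)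
    nlinarith
  · have hexp : (1 - 1 / K) ^ n ≤ 1 / (m : ℝ) ^ 4 := by
      have h1 : 1 - 1 / K ≤ Real.exp (-(1 / K)) := by
        have := Real.add_one_le_exp (-(1 / K))
        linarith
      have h2 : 0 ≤ 1 - 1 / K := by
        have : 1 / K ≤ 1 := by
          rw [div_le_one hK0]
          linarith
        linarith
      have h3 : (1 - 1 / K) ^ n ≤ Real.exp (-(1 / K)) ^ n := pow_le_pow_left₀ h2 h1 n
      rw [← Real.exp_nat_mul] at h3
      refine h3.trans ?_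
      have h4 : (n : ℝ) * -(1 / K) ≤ -(4 * x) := by
        have : 4 * x ≤ n * (1 / K) := by
          rw [mul_one_div, le_div_iff₀ hK0]
          exact hn1
        linarith
      refine (Real.exp_le_exp.2 h4).trans (le_of_eq ?_)
      rw [Real.exp_neg, one_div]
      congr 1
      have : Real.exp (4 * x) = Real.exp x ^ 4 := by
        rw [← Real.exp_nat_mul]
        norm_num
      rw [this, hxdef, Real.exp_log hm0]
    have hfin := nu_fin (m := m) (l := l) (Q := q ^ l) (x := x) (n := n) (K := K) hlR hQ hx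
      (by linarith) hC (by linarith) hn3 hK0.le hKu
    refine lt_of_le_of_lt ?_ hfin
    have h5 : (1 - 1 / K) ^ n * K ≤ 1 / (m : ℝ) ^ 4 * K :=
      mul_le_mul_of_nonneg_right hexp hK0.le
    have h6 : 12 * (m : ℝ) * ((1 - 1 / K) ^ n * K) ≤ 12 * m * (1 / (m : ℝ) ^ 4 * K) :=
      mul_le_mul_of_nonneg_left h5 (by positivity)
    linarith

end LCD
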