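import Mathlib
import Pool.Agent.Lib_helper55.LCD.Defs
import Pool.Agent.Lib_helper55.LCD.Defs2
import Pool.Agent.Lib_helper88.HCR.Defs
import Pool.Agent.Lib_helper88.HCR.du
import Pool.Agent.Lib_helper88.HCR.dv
import Pool.Agent.Lib_helper55.LCD.CO
import Pool.Agent.Lib_helper55.LCD.NU
import Pool.Agent.Lib_helper55.LCD.CG
import Pool.Agent.Lib_helper55.LCD.CF
import Pool.Agent.Lib_helper55.LCD.FA
import Pool.Agent.Lib_helper55.LCD.FB
import Pool.Agent.Lib_helper55.LCD.FX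
import Pool.Agent.Lib_helper55.LCD.FD

set_option autoImplicit false

namespace LCD

open Finset Matrix HCR

/-- the case `k ≤ r` -/
theorem main_le (C : ℝ) (hC0 : 0 < C) (hC : ∀ (m l : ℕ) (q : ℝ), 2 ≤ q → 1 ≤ l → 2 ≤ m →
    C * (l : ℝ) ^ 3 * Real.log m ^ 6 * q ^ l ≤ m →
    ∃ L n : ℕ, 8 * (m : ℝ) ≤ 2 ^ L ∧ L ≤ n ∧ l ≤ n ∧ 44 * (24 * (l : ℝ)) ^ 2 ≤ m ∧ 88 * q < m ∧
      8 * ((n : ℝ) * (2 * n + 1)) * (44 * (26 * n + 72) / m)
        + 12 * m * ((1 - 1 / (336 * (l : ℝ) * (2 * L + 9))) ^ n * (336 * l * (2 * L + 9)))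
        < 1 / q ^ l)
    {v b k r : ℕ} (hk : 2 ≤ k) (hr : 3 ≤ r) (hkr : k ≤ r) (hvb : v * r = b * k) (l : ℕ) (hl : 1 ≤ l)
    (hm2 : 2 ≤ v * r)
    (hbig : C * (l : ℝ) ^ 3 * Real.log ((v : ℝ) * r) ^ 6 * (((r : ℝ) - 1) * ((k : ℝ) - 1)) ^ l
      ≤ (v : ℝ) * r) (N : Matrix (Fin v) (Fin b) ℕ) (hN : Aopt k r N) : NoCyc l N := by
  have hq2 : 2 ≤ qq k r := by
    unfold qq
    have h1 : (2 : ℝ) ≤ k := by exact_mod_cast hk
    have h2 : (3 : ℝ) ≤ r := by exact_mod_cast hr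
    nlinarith
  have hk1 : 1 ≤ k := by omega
  have hr1 : 1 ≤ r := by omega
  have hv1 : 1 ≤ v := by
    rcases Nat.eq_zero_or_pos v with h | h
    · subst h; omega
    · exact h
  have key : ∀ l' : ℕ, 1 ≤ l' → l' ≤ l → ∀ t : Fin v × Fin r → Fin b, Fib t k → des t = N →
      ∀ c : ℕ → Fin v × Fin r, ¬ Cyc (fun e : Fin v × Fin r => e.1) t l' c := by
    intro l' hl1 hl2 t ht htN c
    have hb' : C * (l' : ℝ) ^ 3 * Real.log ((v * r : ℕ) : ℝ) ^ 6 * (qq k r) ^ l'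
        ≤ ((v * r : ℕ) : ℝ) := by
      push_cast
      refine le_trans ?_ hbig
      have hlog : 0 ≤ Real.log ((v : ℝ) * r) ^ 6 := by positivity
      have h1 : (l' : ℝ) ^ 3 ≤ (l : ℝ) ^ 3 := by
        have : (l' : ℝ) ≤ l := by exact_mod_cast hl2
        gcongr
      have h2 : qq k r ^ l' ≤ (((r : ℝ) - 1) * ((k : ℝ) - 1)) ^ l := by
        have : qq k r = ((r : ℝ) - 1) * ((k : ℝ) - 1) := rfl
        rw [← this]
        exact pow_le_pow_right₀ (by linarith) hl2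
      have h3 : 0 ≤ qq k r ^ l' := by positivity
      gcongr
    obtain ⟨L, n, h1, h2, h3, h4, h5, h6⟩ := hC (v * r) l' (qq k r) hq2 hl1 hm2 hb'
    have hcard : Fintype.card (Fin v × Fin r) = v * r := by simp
    have hconn : 0 < (Rs k r (fun e : Fin v × Fin r => e.1) t).det := by
      have ha := (conn_iff hv1 hk1 hr1 t ht).1 (by rw [htN]; exact hN.2.1)
      have hb := (charpoly_deriv k r hk1 (fun e : Fin v × Fin r => e.1) t (fib_fst v r) ht).1
      exact lt_of_le_of_ne hb (Ne.symm ha)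
    have hqlt : 22 * ((k : ℝ) + r) < (v * r : ℕ) := by
      refine lt_of_le_of_lt ?_ h5
      unfold qq
      have h1 : (2 : ℝ) ≤ k := by exact_mod_cast hk
      have h2 : (3 : ℝ) ≤ r := by exact_mod_cast hr
      nlinarith
    have hv3 : 3 ≤ v := by
      have h : (44 : ℝ) * r < (v : ℝ) * r := by
        have : 88 * (qq k r) < (v : ℝ) * r := by exact_mod_cast h5
        refine lt_of_le_of_lt ?_ this
        unfold qq
        have h1 : (2 : ℝ) ≤ k := by exact_mod_cast hk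
        have h2 : (3 : ℝ) ≤ r := by exact_mod_cast hr
        nlinarith
      have h' : (44 : ℝ) < v := by
        have h2 : (0 : ℝ) < r := by exact_mod_cast (by omega : 0 < r)
        exact lt_of_mul_lt_mul_right h h2.le
      have : (44 : ℕ) < v := by exact_mod_cast h'
      omega
    refine core k r hk hr hkr (fun e : Fin v × Fin r => e.1) t (fib_fst v r) ht (by simpa using hv3)
      hconn ?_ l' L n hl1 (by rw [hcard]; exact h1) h2 h3 (by rw [hcard]; exact hqlt)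
      (by rw [hcard]; exact h4) (by rw [hcard]; exact h6) c
    intro t' ht' hdet'
    have hc' : Conn k r (des t') := (conn_iff hv1 hk1 hr1 t' ht').2 hdet'.ne'
    have hc : Conn k r (des t) := (conn_iff hv1 hk1 hr1 t ht).2 hconn.ne'
    have hle := hN.2.2 (des t') (des_isDes t' ht') hc'
    have e1 := PhiA_eq hv1 hk1 hr1 t ht hc
    have e2 := PhiA_eq hv1 hk1 hr1 t' ht' hc'
    have hle' : (PhiA k r (des t) - 1) / k ≤ (PhiA k r (des t') - 1) / k := by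
      rw [htN]
      have hk0 : (0 : ℝ) < k := by exact_mod_cast (by omega : 0 < k)
      gcongr
    rw [e1, e2] at hle'
    linarith
  obtain ⟨t, ht, htN⟩ := exists_plots N hN.1
  refine ⟨?_, ?_⟩
  · intro i j
    by_contra hcon
    have h2 : 2 ≤ N i j := by omega
    rw [← htN] at h2
    obtain ⟨c, hc⟩ := cyc_one t i j h2
    exact key 1 le_rfl hl t ht htN c hc
  · rintro p hp hpl ⟨x, y, hx, hy, h⟩
    obtain ⟨c, hc⟩ := cyc_many hp t x y hx hy (by
      intro i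
      have := h i
      rw [← htN] at this
      exact this)
    exact key p (by omega) hpl t ht htN c hc

theorem girth : ∃ C : ℝ, 0 < C ∧ ∀ v b k r : ℕ, 2 ≤ k → 2 ≤ r → ¬ (k = 2 ∧ r = 2) →
    v * r = b * k → 2 ≤ v * r → ∀ l : ℕ, 1 ≤ l →
    C * (l : ℝ) ^ 3 * Real.log ((v : ℝ) * r) ^ 6 * (((r : ℝ) - 1) * ((k : ℝ) - 1)) ^ l
      ≤ (v : ℝ) * r →
    ∀ N : Matrix (Fin v) (Fin b) ℕ, Aopt k r N → NoCyc l N := by
  obtain ⟨C, hC0, hC⟩ := numeric
  refine ⟨C, hC0, ?_⟩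
  intro v b k r hk hr hkr hvb hm l hl hbig N hN
  rcases le_total k r with h | h
  · exact main_le C hC0 hC hk (by omega) h hvb l hl hm hbig N hN
  · have hv1 : 1 ≤ v := by
      rcases Nat.eq_zero_or_pos v with h | h
      · subst h; omega
      · exact h
    have hb1 : 1 ≤ b := by
      rcases Nat.eq_zero_or_pos b with h | h
      · subst h; omega
      · exact h
    have hvb' : (v : ℝ) * r = (b : ℝ) * k := by exact_mod_cast hvb
    have h1 := aopt_transpose hv1 hb1 (by omega) (by omega) N hN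
    have h2 := main_le C hC0 hC hr (by omega) h hvb.symm l hl (by rw [← hvb]; exact hm)
      (by rw [← hvb', mul_comm ((k : ℝ) - 1)]; exact hbig) N.transpose h1
    have h3 := noCyc_transpose _ h2
    simpa using h3

/-- **Low concurrence.** -/
theorem lowConcurrence : ∃ C : ℝ, 0 < C ∧ ∀ v b k r : ℕ, 2 ≤ k → 2 ≤ r → ¬ (k = 2 ∧ r = 2) →
    v * r = b * k → 1 ≤ v →
    (C * r * (k : ℝ) ^ 2 * Real.log ((v : ℝ) * r) ^ 6 ≤ v →
      Q1 v b k r ∧ ∀ N : Matrix (Fin v) (Fin b) ℕ, Aopt k r N → MSopt k r N) ∧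
    ∀ l : ℕ, 1 ≤ l →
      C * (l : ℝ) ^ 3 * Real.log ((v : ℝ) * r) ^ 6 * (((r : ℝ) - 1) * ((k : ℝ) - 1)) ^ l
        ≤ (v : ℝ) * r →
      ∀ N : Matrix (Fin v) (Fin b) ℕ, Aopt k r N → NoCyc l N := by
  obtain ⟨C, hC0, hC⟩ := girth
  refine ⟨8 * C, by linarith, ?_⟩
  intro v b k r hk hr hkr hvb hv
  have hm : 2 ≤ v * r := by nlinarith
  have hk2 : (2 : ℝ) ≤ k := by exact_mod_cast hk
  have hr2 : (2 : ℝ) ≤ r := by exact_mod_cast hr
  have hlog : 0 ≤ Real.log ((v : ℝ) * r) ^ 6 := by positivity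
  refine ⟨fun h => ?_, fun l hl hbig => ?_⟩
  · have hall : ∀ N : Matrix (Fin v) (Fin b) ℕ, Aopt k r N → MSopt k r N := by
      intro N hN
      refine ms_of_noCyc (by omega) N hN.1 (hC v b k r hk hr hkr hvb hm 2 (by norm_num) ?_ N hN)
      have h1 : (((r : ℝ) - 1) * ((k : ℝ) - 1)) ^ 2 ≤ (r : ℝ) ^ 2 * (k : ℝ) ^ 2 := by
        rw [mul_pow]
        have ha : ((r : ℝ) - 1) ^ 2 ≤ (r : ℝ) ^ 2 := by nlinarith
        have hb : ((k : ℝ) - 1) ^ 2 ≤ (k : ℝ) ^ 2 := by nlinarith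
        have hc : 0 ≤ ((k : ℝ) - 1) ^ 2 := by positivity
        gcongr
      have h2 : 8 * C * r * (k : ℝ) ^ 2 * Real.log ((v : ℝ) * r) ^ 6 * r ≤ (v : ℝ) * r :=
        mul_le_mul_of_nonneg_right h (by linarith)
      calc C * ((2 : ℕ) : ℝ) ^ 3 * Real.log ((v : ℝ) * r) ^ 6
            * (((r : ℝ) - 1) * ((k : ℝ) - 1)) ^ 2
          ≤ C * ((2 : ℕ) : ℝ) ^ 3 * Real.log ((v : ℝ) * r) ^ 6 * ((r : ℝ) ^ 2 * (k : ℝ) ^ 2) := by
            gcongr
        _ = 8 * C * r * (k : ℝ) ^ 2 * Real.log ((v : ℝ) * r) ^ 6 * r := by push_cast; ring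
        _ ≤ (v : ℝ) * r := h2
    exact ⟨q1_of_all hall, hall⟩
  · refine hC v b k r hk hr hkr hvb hm l hl (le_trans ?_ hbig)
    have h3 : 0 ≤ (((r : ℝ) - 1) * ((k : ℝ) - 1)) ^ l := by
      apply pow_nonneg
      nlinarith
    have h4 : C ≤ 8 * C := by linarith
    gcongr

end LCD
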