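import Mathlib
import Pool.Agent.Lib_helper55.LCD.Defs
import Pool.Agent.Lib_helper55.LCD.Defs2
import Pool.Agent.Lib_helper88.HCR.Defs
import Pool.Agent.Lib_helper88.HCR.du
import Pool.Agent.Lib_helper88.HCR.dv

set_option autoImplicit false

namespace LCD

open Finset Matrix HCR

theorem fx_col {v b k r : ℕ} (t : Fin v × Fin r → Fin b) (ht : Fib t k) (j : Fin b) :
    ∑ i, des t i j = k := by
  rw [← ht j]
  unfold des
  have h1 := Finset.card_eq_sum_card_fiberwise (s := univ.filter (fun e : Fin v × Fin r => t e = j))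
    (f := fun e : Fin v × Fin r => e.1) (t := (univ : Finset (Fin v))) (fun _ _ => by simp)
  rw [h1]
  refine Finset.sum_congr rfl fun i _ => ?_
  congr 1
  ext e
  simp only [Finset.mem_filter, Finset.mem_univ, true_and]
  exact and_comm

theorem fx_row {v b r : ℕ} (t : Fin v × Fin r → Fin b) (i : Fin v) :
    ∑ j, des t i j = r := by
  unfold des
  have h0 : (univ.filter (fun e : Fin v × Fin r => e.1 = i)).card = r := by
    have h2 : univ.filter (fun e : Fin v × Fin r => e.1 = i) =
        (univ : Finset (Fin r)).image (fun x => (i, x)) := by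
      ext ⟨a, x⟩
      simp only [Finset.mem_filter, Finset.mem_univ, true_and, Finset.mem_image, Prod.mk.injEq]
      constructor
      · intro h
        exact ⟨x, h.symm, rfl⟩
      · rintro ⟨y, h, -⟩
        exact h.symm
    rw [h2, Finset.card_image_of_injective _ (Prod.mk_right_injective i), Finset.card_univ,
      Fintype.card_fin]
  have h1 := Finset.card_eq_sum_card_fiberwise (s := univ.filter (fun e : Fin v × Fin r => e.1 = i))
    (f := fun e : Fin v × Fin r => t e) (t := (univ : Finset (Fin b))) (fun _ _ => by simp)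
  rw [h0] at h1
  conv_rhs => rw [h1]
  refine Finset.sum_congr rfl fun j _ => ?_
  congr 1
  ext e
  simp only [Finset.mem_filter, Finset.mem_univ, true_and]

theorem fx_des {v b k r : ℕ} (t : Fin v × Fin r → Fin b) (ht : Fib t k) :
    IsDes k r (des t) := ⟨fx_col t ht, fx_row t⟩

theorem fx_Rs {v b k r : ℕ} (hv : 1 ≤ v) (t : Fin v × Fin r → Fin b) (ht : Fib t k) (c : ℝ)
    (hc : c * v = k) (hc' : c * b = r) :
    Rs k r (fun e : Fin v × Fin r => e.1) t = ((r : ℝ) * k) • (1 : Matrix (Fin v) (Fin v) ℝ)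
      - du_N0 c (des t) * (du_N0 c (des t)).transpose := by
  have hv0 : (v : ℝ) ≠ 0 := by exact_mod_cast (by omega : v ≠ 0)
  have hrow : ∀ i, ∑ j, (des t i j : ℝ) = r := fun i => by exact_mod_cast fx_row t i
  unfold Rs M0
  congr 1
  ext i i'
  have hMM : MM (fun e : Fin v × Fin r => e.1) t i i' =
      ∑ j, (des t i j : ℝ) * (des t i' j : ℝ) := rfl
  rw [Matrix.sub_apply, hMM, Matrix.smul_apply, Matrix.of_apply, smul_eq_mul, mul_one,
    Fintype.card_fin, Matrix.mul_apply]
  have h1 : ∑ j, du_N0 c (des t) i j * (du_N0 c (des t)).transpose j i'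
      = ∑ j, (des t i j : ℝ) * (des t i' j : ℝ) - c * r := by
    have h2 : ∀ j, du_N0 c (des t) i j * (du_N0 c (des t)).transpose j i'
        = (des t i j : ℝ) * (des t i' j : ℝ) - c * (des t i' j : ℝ) - c * (des t i j : ℝ)
          + c * c := fun j => by
      simp only [du_N0, Matrix.transpose_apply]
      ring
    simp_rw [h2]
    rw [Finset.sum_add_distrib, Finset.sum_sub_distrib, Finset.sum_sub_distrib, ← Finset.mul_sum,
      ← Finset.mul_sum, hrow, hrow, Finset.sum_const, Finset.card_univ, Fintype.card_fin,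
      nsmul_eq_mul]
    linear_combination c * hc'
  rw [h1]
  have h3 : c = k / v := by
    rw [eq_div_iff hv0]; exact hc
  rw [h3]
  ring

theorem fx_half {v b k r : ℕ} (hv : 1 ≤ v) (hk : 1 ≤ k) (hr : 1 ≤ r)
    (t : Fin v × Fin r → Fin b) (ht : Fib t k) :
    (Conn k r (des t) ↔ (Rs k r (fun e : Fin v × Fin r => e.1) t).det ≠ 0) ∧
    (Conn k r (des t) → (PhiA k r (des t) - 1) / k
      = trace (Rs k r (fun e : Fin v × Fin r => e.1) t)⁻¹ - 1 / ((r : ℝ) * k)) := by
  have hv0 : (v : ℝ) ≠ 0 := by exact_mod_cast (by omega : v ≠ 0)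
  have hN := fx_des (r := r) t ht
  have hcd := du_card (des t) hN
  have hc : ((k : ℝ) / v) * v = k := div_mul_cancel₀ _ hv0
  have hc' : ((k : ℝ) / v) * b = r := by
    field_simp
    linarith
  have h := du_half hv hk hr (des t) hN _ hc hc'
  rw [← fx_Rs hv t ht _ hc hc'] at h
  exact h

theorem conn_iff {v b k r : ℕ} (hv : 1 ≤ v) (hk : 1 ≤ k) (hr : 1 ≤ r)
    (t : Fin v × Fin r → Fin b) (ht : Fib t k) :
    Conn k r (des t) ↔ (Rs k r (fun e : Fin v × Fin r => e.1) t).det ≠ 0 :=
  (fx_half hv hk hr t ht).1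

theorem PhiA_eq {v b k r : ℕ} (hv : 1 ≤ v) (hk : 1 ≤ k) (hr : 1 ≤ r)
    (t : Fin v × Fin r → Fin b) (ht : Fib t k) (hc : Conn k r (des t)) :
    (PhiA k r (des t) - 1) / k
      = En k r (fun e : Fin v × Fin r => e.1) t - 1 / ((r : ℝ) * k) :=
  (fx_half hv hk hr t ht).2 hc

end LCD
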