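import Mathlib
import Pool.Agent.Lib_helper55.LCD.Defs

set_option autoImplicit false

namespace LCD

open Finset Matrix

variable {E V B : Type} [Fintype E] [DecidableEq E] [Fintype V] [DecidableEq V]
  [Fintype B] [DecidableEq B]

/-- the killed distribution -/
def ha_kap (A : ℕ → Matrix E E ℝ) (e f : E) (x : E → ℝ) : ℕ → (E → ℝ)
  | 0 => x
  | (n + 1) => fun g => if g = e ∨ g = f then 0 else (ha_kap A e f x n ᵥ* A n) g

theorem ha_kap_nonneg (A : ℕ → Matrix E E ℝ) (e f : E) (hA : ∀ n g h, 0 ≤ A n g h)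
    (x : E → ℝ) (hx : ∀ g, 0 ≤ x g) (n : ℕ) (g : E) : 0 ≤ ha_kap A e f x n g := by
  induction n generalizing g with
  | zero => exact hx g
  | succ n ih =>
    simp only [ha_kap]
    split_ifs
    · exact le_rfl
    · unfold vecMul dotProduct
      exact Finset.sum_nonneg fun i _ => mul_nonneg (ih i) (hA n i g)

theorem ha_kap_zero (A : ℕ → Matrix E E ℝ) (e f : E)
    (x : E → ℝ) (hxe : x e = 0) (hxf : x f = 0) (n : ℕ) (g : E) (hg : g = e ∨ g = f) :
    ha_kap A e f x n g = 0 := by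
  cases n with
  | zero =>
    simp only [ha_kap]
    rcases hg with h | h <;> rw [h] <;> assumption
  | succ n =>
    simp only [ha_kap]
    rw [if_pos hg]

theorem ha_vecMul_mono (A : Matrix E E ℝ) (hA : ∀ g h, 0 ≤ A g h) (x y : E → ℝ)
    (h : ∀ g, x g ≤ y g) (g : E) : (x ᵥ* A) g ≤ (y ᵥ* A) g := by
  unfold vecMul dotProduct
  exact Finset.sum_le_sum fun i _ => mul_le_mul_of_nonneg_right (h i) (hA i g)

theorem ha_vecMul_nonneg (A : Matrix E E ℝ) (hA : ∀ g h, 0 ≤ A g h) (x : E → ℝ)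
    (h : ∀ g, 0 ≤ x g) (g : E) : 0 ≤ (x ᵥ* A) g := by
  unfold vecMul dotProduct
  exact Finset.sum_nonneg fun i _ => mul_nonneg (h i) (hA i g)

theorem ha_run_nonneg (A : ℕ → Matrix E E ℝ) (hA : ∀ n g h, 0 ≤ A n g h)
    (x : E → ℝ) (hx : ∀ g, 0 ≤ x g) (n : ℕ) (g : E) : 0 ≤ run A x n g := by
  induction n generalizing g with
  | zero => exact hx g
  | succ n ih => exact ha_vecMul_nonneg _ (hA n) _ ih g

theorem ha_kap_le (A : ℕ → Matrix E E ℝ) (e f : E) (hA : ∀ n g h, 0 ≤ A n g h)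
    (x : E → ℝ) (hx : ∀ g, 0 ≤ x g) (n : ℕ) (g : E) : ha_kap A e f x n g ≤ run A x n g := by
  induction n generalizing g with
  | zero => exact le_rfl
  | succ n ih =>
    simp only [ha_kap]
    split_ifs
    · exact ha_run_nonneg A hA x hx (n + 1) g
    · exact ha_vecMul_mono _ (hA n) _ _ ih g

theorem ha_kap_eq (A A' : ℕ → Matrix E E ℝ) (e f : E)
    (heq : ∀ n g h, g ≠ e → g ≠ f → h ≠ e → h ≠ f → A n g h = A' n g h)
    (x : E → ℝ) (hxe : x e = 0) (hxf : x f = 0)
    (n : ℕ) (g : E) : ha_kap A e f x n g = ha_kap A' e f x n g := by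
  induction n generalizing g with
  | zero => rfl
  | succ n ih =>
    simp only [ha_kap]
    split_ifs with hg
    · rfl
    · push Not at hg
      unfold vecMul dotProduct
      refine Finset.sum_congr rfl fun i _ => ?_
      rw [← ih i]
      by_cases hi : i = e ∨ i = f
      · rw [ha_kap_zero A e f x hxe hxf n i hi]
        simp
      · push Not at hi
        have h5 := heq n i g hi.1 hi.2 hg.1 hg.2
        simp only [h5]

theorem ha_sum_vecMul (A : Matrix E E ℝ) (hr : ∀ g, ∑ h, A g h = 1) (x : E → ℝ) :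
    ∑ g, (x ᵥ* A) g = ∑ g, x g := by
  unfold vecMul dotProduct
  rw [Finset.sum_comm]
  refine Finset.sum_congr rfl fun i _ => ?_
  rw [← Finset.mul_sum, hr, mul_one]

theorem ha_sum_run (A : ℕ → Matrix E E ℝ) (hr : ∀ n g, ∑ h, A n g h = 1) (x : E → ℝ) (n : ℕ) :
    ∑ g, run A x n g = ∑ g, x g := by
  induction n with
  | zero => rfl
  | succ n ih =>
    have : run A x (n + 1) = run A x n ᵥ* A n := rfl
    rw [this, ha_sum_vecMul _ (hr n), ih]

theorem ha_split (e f : E) (y : E → ℝ) (hy : ∀ g, 0 ≤ y g) :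
    ∑ g, y g ≤ ∑ g, (if g = e ∨ g = f then 0 else y g) + (y e + y f) := by
  have h1 : ∀ g, y g ≤ (if g = e ∨ g = f then 0 else y g)
      + ((if g = e then y g else 0) + (if g = f then y g else 0)) := by
    intro g
    by_cases h1 : g = e
    · rw [if_pos (Or.inl h1), if_pos h1]
      split_ifs
      · linarith [hy g]
      · linarith
    · by_cases h2 : g = f
      · rw [if_pos (Or.inr h2), if_neg h1, if_pos h2]
        linarith
      · rw [if_neg (by tauto), if_neg h1, if_neg h2]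
        linarith
  refine (Finset.sum_le_sum fun g _ => h1 g).trans ?_
  rw [Finset.sum_add_distrib, Finset.sum_add_distrib, Finset.sum_ite_eq', Finset.sum_ite_eq']
  simp

theorem ha_mass (A : ℕ → Matrix E E ℝ) (e f : E) (hA : ∀ n g h, 0 ≤ A n g h)
    (hr : ∀ n g, ∑ h, A n g h = 1)
    (x : E → ℝ) (hx : ∀ g, 0 ≤ x g) (hx1 : ∑ g, x g = 1) (n : ℕ) :
    1 - ∑ g, ha_kap A e f x n g ≤ ∑ i ∈ Icc 1 n, (run A x i e + run A x i f) := by
  induction n with
  | zero =>
    have : ∑ g, ha_kap A e f x 0 g = 1 := hx1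
    rw [this]
    simp
  | succ n ih =>
    rw [Finset.sum_Icc_succ_top (by omega)]
    have h1 := ha_split e f (ha_kap A e f x n ᵥ* A n)
      (ha_vecMul_nonneg _ (hA n) _ (ha_kap_nonneg A e f hA x hx n))
    rw [ha_sum_vecMul _ (hr n)] at h1
    have h2 : ∑ g, (if g = e ∨ g = f then 0 else (ha_kap A e f x n ᵥ* A n) g)
        = ∑ g, ha_kap A e f x (n + 1) g := rfl
    rw [h2] at h1
    have h3 : ∀ g, (ha_kap A e f x n ᵥ* A n) g ≤ run A x (n + 1) g :=
      fun g => ha_vecMul_mono _ (hA n) _ _ (ha_kap_le A e f hA x hx n) g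
    linarith [h3 e, h3 f]

/-- two walks which agree outside `{e, f}` -/
theorem hitting (A A' : ℕ → Matrix E E ℝ) (e f : E)
    (hA : ∀ n g h, 0 ≤ A n g h) (hA' : ∀ n g h, 0 ≤ A' n g h)
    (hr : ∀ n g, ∑ h, A n g h = 1) (hr' : ∀ n g, ∑ h, A' n g h = 1)
    (heq : ∀ n g h, g ≠ e → g ≠ f → h ≠ e → h ≠ f → A n g h = A' n g h)
    (x : E → ℝ) (hx : ∀ g, 0 ≤ x g) (hx1 : ∑ g, x g = 1) (hxe : x e = 0) (hxf : x f = 0)
    (n : ℕ) (g : E) (hg : g = e ∨ g = f) :
    run A' x n g ≤ ∑ i ∈ Icc 1 n, (run A x i e + run A x i f) := by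
  refine le_trans ?_ (ha_mass A e f hA hr x hx hx1 n)
  have h1 : ∑ h, run A' x n h = 1 := by rw [ha_sum_run A' hr' x n, hx1]
  have h2 : ∑ h, ha_kap A e f x n h + run A' x n g ≤ ∑ h, run A' x n h := by
    have h3 : run A' x n g = ∑ h, (if h = g then run A' x n h else 0) := by
      rw [Finset.sum_ite_eq']
      simp
    rw [h3, ← Finset.sum_add_distrib]
    refine Finset.sum_le_sum fun h _ => ?_
    by_cases hh : h = g
    · rw [if_pos hh]
      rw [ha_kap_zero A e f x hxe hxf n h (by rw [hh]; exact hg)]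
      linarith
    · rw [if_neg hh, add_zero, ha_kap_eq A A' e f heq x hxe hxf n h]
      exact ha_kap_le A' e f hA' x hx n h
  linarith

end LCD
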