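import Mathlib
import Pool.Agent.Lib_helper55.LCD.Defs
import Pool.Agent.Lib_helper55.LCD.AA
import Pool.Agent.Lib_helper55.LCD.HA

set_option autoImplicit false

namespace LCD

open Finset Matrix

variable {E V B : Type} [Fintype E] [DecidableEq E] [Fintype V] [DecidableEq V]
  [Fintype B] [DecidableEq B]

/-- alternating transition matrices -/
def hd_alt (X Y : Matrix E E ℝ) : ℕ → Matrix E E ℝ := fun n => if Even n then X else Y

theorem hd_run (X Y : Matrix E E ℝ) (g : E) (i : ℕ) :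
    run (hd_alt X Y) (Y g) (2 * i) = ((Y * X) ^ i * Y) g ∧
      run (hd_alt X Y) (Y g) (2 * i + 1) = ((Y * X) ^ (i + 1)) g := by
  have step : ∀ i, run (hd_alt X Y) (Y g) (2 * i) = ((Y * X) ^ i * Y) g →
      run (hd_alt X Y) (Y g) (2 * i + 1) = ((Y * X) ^ (i + 1)) g := by
    intro i h
    show run (hd_alt X Y) (Y g) (2 * i) ᵥ* hd_alt X Y (2 * i) = _
    rw [h, hd_alt, if_pos (even_two_mul i), ← Matrix.mul_apply_eq_vecMul, pow_succ, Matrix.mul_assoc]
  induction i with
  | zero =>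
    have h0 : run (hd_alt X Y) (Y g) (2 * 0) = ((Y * X) ^ 0 * Y) g := by
      rw [pow_zero, Matrix.one_mul]
      rfl
    exact ⟨h0, step 0 h0⟩
  | succ i ih =>
    have h0 : run (hd_alt X Y) (Y g) (2 * (i + 1)) = ((Y * X) ^ (i + 1) * Y) g := by
      show run (hd_alt X Y) (Y g) (2 * i + 1) ᵥ* hd_alt X Y (2 * i + 1) = _
      rw [ih.2, hd_alt, if_neg (by rw [Nat.not_even_iff_odd]; exact odd_two_mul_add_one i),
        ← Matrix.mul_apply_eq_vecMul]
    exact ⟨h0, step _ h0⟩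

theorem hd_pair (F : ℕ → ℝ) (j : ℕ) :
    ∑ i ∈ Icc 1 (2 * j), F i = ∑ i ∈ Icc 1 j, (F (2 * (i - 1) + 1) + F (2 * i)) := by
  induction j with
  | zero => simp
  | succ j ih =>
    rw [show 2 * (j + 1) = 2 * j + 1 + 1 by ring, Finset.sum_Icc_succ_top (by omega),
      Finset.sum_Icc_succ_top (by omega), Finset.sum_Icc_succ_top (by omega), ih]
    have : 2 * (j + 1 - 1) + 1 = 2 * j + 1 := by omega
    rw [this, show 2 * (j + 1) = 2 * j + 1 + 1 by ring]
    ring

/-- the bound with the hitting lemma -/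
theorem hd_main (X Y Y' : Matrix E E ℝ) (X' : Matrix E E ℝ) (e f g : E)
    (hX : ∀ a b, 0 ≤ X a b) (hY : ∀ a b, 0 ≤ Y a b) (hX' : ∀ a b, 0 ≤ X' a b)
    (hY' : ∀ a b, 0 ≤ Y' a b) (rX : ∀ a, ∑ b, X a b = 1) (rY : ∀ a, ∑ b, Y a b = 1)
    (rX' : ∀ a, ∑ b, X' a b = 1) (rY' : ∀ a, ∑ b, Y' a b = 1)
    (eX : ∀ a b, a ≠ e → a ≠ f → b ≠ e → b ≠ f → X a b = X' a b)
    (eY : ∀ a b, a ≠ e → a ≠ f → b ≠ e → b ≠ f → Y a b = Y' a b)
    (hrow : Y' g = Y f) (h1 : Y f e = 0) (h2 : Y f f = 0) (hg : g = e ∨ g = f) (j : ℕ) (hj : 1 ≤ j) :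
    ((Y' * X') ^ j) g g ≤ ∑ i ∈ Icc 1 j, ((((Y * X) ^ i) f e + ((Y * X) ^ i) f f) +
      (((Y * X) ^ i * Y) f e + ((Y * X) ^ i * Y) f f)) := by
  obtain ⟨j, rfl⟩ : ∃ i, j = i + 1 := ⟨j - 1, by omega⟩
  have a1 : ((Y' * X') ^ (j + 1)) g g = run (hd_alt X' Y') (Y f) (2 * j + 1) g := by
    rw [← (hd_run X' Y' g j).2, hrow]
  have a2 := hitting (hd_alt X Y) (hd_alt X' Y') e f
    (by intro n a b; unfold hd_alt; split_ifs; exacts [hX a b, hY a b])
    (by intro n a b; unfold hd_alt; split_ifs; exacts [hX' a b, hY' a b])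
    (by intro n a; unfold hd_alt; split_ifs; exacts [rX a, rY a])
    (by intro n a; unfold hd_alt; split_ifs; exacts [rX' a, rY' a])
    (by
      intro n a b q1 q2 q3 q4
      unfold hd_alt
      split_ifs
      exacts [eX a b q1 q2 q3 q4, eY a b q1 q2 q3 q4])
    (Y f) (fun a => hY f a) (rY f) h1 h2 (2 * j + 1) g hg
  have hpos : ∀ (n : ℕ) (a : E), 0 ≤ run (hd_alt X Y) (Y f) n a := by
    intro n
    induction n with
    | zero => exact fun a => hY f a
    | succ n ih =>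
      intro a
      show 0 ≤ (run (hd_alt X Y) (Y f) n ᵥ* hd_alt X Y n) a
      rw [Matrix.vecMul, dotProduct]
      refine Finset.sum_nonneg fun b _ => mul_nonneg (ih b) ?_
      unfold hd_alt
      split_ifs
      exacts [hX b a, hY b a]
  rw [a1]
  refine a2.trans ?_
  have a3 : ∑ i ∈ Icc 1 (2 * j + 1), (run (hd_alt X Y) (Y f) i e + run (hd_alt X Y) (Y f) i f) ≤
      ∑ i ∈ Icc 1 (2 * (j + 1)), (run (hd_alt X Y) (Y f) i e + run (hd_alt X Y) (Y f) i f) := by
    rw [show 2 * (j + 1) = 2 * j + 1 + 1 by ring, Finset.sum_Icc_succ_top (b := 2 * j + 1) (by omega)]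
    have := hpos (2 * j + 1 + 1) e
    have := hpos (2 * j + 1 + 1) f
    linarith
  refine a3.trans (le_of_eq ?_)
  rw [hd_pair]
  refine Finset.sum_congr rfl fun i hi => ?_
  have hi1 : 1 ≤ i := (Finset.mem_Icc.mp hi).1
  rw [(hd_run X Y f (i - 1)).2, (hd_run X Y f i).1, show i - 1 + 1 = i by omega]

theorem hd_out (k : ℕ) (t : E → B) (e f : E) (a b : E) (h1 : a ≠ e) (h2 : a ≠ f) (h3 : b ≠ e)
    (h4 : b ≠ f) : sto k t a b = sto k (sw t e f) a b := by
  rw [sto_sw, Matrix.submatrix_apply, Equiv.swap_apply_of_ne_of_ne h1 h2,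
    Equiv.swap_apply_of_ne_of_ne h3 h4]

theorem hd_zero (k : ℕ) (t : E → B) (e f : E) (h : t f ≠ t e) : sto k t f e = 0 := by
  have h1 : adj t f e = 0 := if_neg (fun h' => h h'.1)
  unfold sto
  rw [Matrix.smul_apply, h1, smul_zero]

theorem hd_diag (k : ℕ) (t : E → B) (e : E) : sto k t e e = 0 := by
  unfold sto
  rw [Matrix.smul_apply, adj_diag, smul_zero]

theorem hd_pow_nonneg {M : Matrix E E ℝ} (hM : ∀ a b, 0 ≤ M a b) (j : ℕ) (a b : E) :
    0 ≤ (M ^ j) a b := by
  induction j generalizing a b with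
  | zero =>
    rw [pow_zero, Matrix.one_apply]
    split_ifs <;> norm_num
  | succ j ih =>
    rw [pow_succ, Matrix.mul_apply]
    exact Finset.sum_nonneg fun c _ => mul_nonneg (ih a c) (hM c b)

theorem hd_mul_nonneg {M N : Matrix E E ℝ} (hM : ∀ a b, 0 ≤ M a b) (hN : ∀ a b, 0 ≤ N a b)
    (a b : E) : 0 ≤ (M * N) a b := by
  rw [Matrix.mul_apply]
  exact Finset.sum_nonneg fun c _ => mul_nonneg (hM a c) (hN c b)

/-- return to the new plots -/
theorem sw_return (k r : ℕ) (hk : 2 ≤ k) (hr : 2 ≤ r) (s : E → V) (t : E → B) (hs : Fib s r)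
    (ht : Fib t k) (e f : E) (hte : t e ≠ t f) (hse : s e ≠ s f) (j J : ℕ) (hj : 1 ≤ j)
    (hJ : j ≤ J) :
    (nb k r s (sw t e f) ^ j) e e ≤ sg k r s t J e f ∧
      (nb k r s (sw t e f) ^ j) f f ≤ sg k r s t J e f := by
  have nP := sto_nonneg k hk t
  have nP' := sto_nonneg k hk (sw t e f)
  have nR := sto_nonneg r hr s
  have rP := sto_row k hk t ht
  have rP' := sto_row k hk (sw t e f) (fib_sw k t ht e f)
  have rR := sto_row r hr s hs
  have oP := hd_out k t e f
  have nn1 : ∀ i a b, 0 ≤ (nb k r s t ^ i) a b := fun i a b =>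
    hd_pow_nonneg (hd_mul_nonneg nP nR) i a b
  have nn2 : ∀ i a b, 0 ≤ ((sto r s * sto k t) ^ i) a b := fun i a b =>
    hd_pow_nonneg (hd_mul_nonneg nR nP) i a b
  have nn3 : ∀ i a b, 0 ≤ (nb k r s t ^ i * sto k t) a b := fun i a b =>
    hd_mul_nonneg (nn1 i) nP a b
  have nn4 : ∀ i a b, 0 ≤ ((sto r s * sto k t) ^ i * sto r s) a b := fun i a b =>
    hd_mul_nonneg (nn2 i) nR a b
  have hsub : Icc 1 j ⊆ Icc 1 J := Finset.Icc_subset_Icc_right hJ
  constructor
  · have hrow : sto k (sw t e f) e = sto k t f := by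
      funext h
      rw [sto_sw, Matrix.submatrix_apply, Equiv.swap_apply_left]
      by_cases h1 : h = e
      · rw [h1, Equiv.swap_apply_left, hd_diag, hd_zero k t e f hte.symm]
      · by_cases h2 : h = f
        · rw [h2, Equiv.swap_apply_right, hd_diag, hd_zero k t e f hte.symm]
        · rw [Equiv.swap_apply_of_ne_of_ne h1 h2]
    have := hd_main (sto r s) (sto k t) (sto k (sw t e f)) (sto r s) e f e nR nP nR nP' rR rP rR rP'
      (fun _ _ _ _ _ _ => rfl) oP hrow (hd_zero k t e f hte.symm) (hd_diag k t f) (Or.inl rfl) j hj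
    refine le_trans this ?_
    unfold sg
    refine le_trans (Finset.sum_le_sum_of_subset_of_nonneg hsub fun i _ _ => ?_)
      (Finset.sum_le_sum fun i _ => ?_)
    · have a1 := nn1 i f e
      have a2 := nn1 i f f
      have a3 := nn3 i f e
      have a4 := nn3 i f f
      unfold nb at a1 a2 a3 a4
      linarith
    · have a1 := nn2 i f e
      have a2 := nn2 i f f
      have a3 := nn4 i f e
      have a4 := nn4 i f f
      unfold nb
      linarith
  · have htr : (nb k r s (sw t e f) ^ j) f f = ((sto r s * sto k (sw t e f)) ^ j) f f := by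
      have h1 : (nb k r s (sw t e f) ^ j)ᵀ = (sto r s * sto k (sw t e f)) ^ j := by
        rw [Matrix.transpose_pow]
        unfold nb
        rw [Matrix.transpose_mul, sto_symm, sto_symm]
      rw [← h1, Matrix.transpose_apply]
    rw [htr]
    have := hd_main (sto k t) (sto r s) (sto r s) (sto k (sw t e f)) e f f nP nR nP' nR rP rR rP' rR
      oP (fun _ _ _ _ _ _ => rfl) rfl (hd_zero r s e f hse.symm) (hd_diag r s f) (Or.inr rfl) j hj
    refine le_trans this ?_
    unfold sg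
    refine le_trans (Finset.sum_le_sum_of_subset_of_nonneg hsub fun i _ _ => ?_)
      (Finset.sum_le_sum fun i _ => ?_)
    · have a1 := nn2 i f e
      have a2 := nn2 i f f
      have a3 := nn4 i f e
      have a4 := nn4 i f f
      linarith
    · have a1 := nn1 i f e
      have a2 := nn1 i f f
      have a3 := nn3 i f e
      have a4 := nn3 i f f
      linarith

end LCD
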